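import Mathlib

/-!
Linear algebra over the field with two elements: coordinates, leading positions,
isolated products.
-/

open Finset

namespace Pool.Agent.Work.MP_49e1e0_lc

theorem zmod2_eq_one {a : ZMod 2} (h : a ≠ 0) : a = 1 := by
  revert a; decide

theorem zmod2_add_self (a : ZMod 2) : a + a = 0 := by
  revert a; decide

/-- A subspace of functions on `V` has a system of coordinates given by points of `V`. -/
theorem exists_coords {V : Type} [Fintype V] [DecidableEq V]
    (S : Submodule (ZMod 2) (V → ZMod 2)) :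
    ∃ (D : ℕ) (b : Fin D → V) (β : Fin D → V → ZMod 2), (∀ i, β i ∈ S) ∧
      (∀ i j, β i (b j) = if i = j then 1 else 0) ∧
      ∀ σ ∈ S, ∀ v, σ v = ∑ i, σ (b i) * β i v := by
  classical
  let Good : Finset V → Prop := fun B => ∀ σ ∈ S, (∀ b ∈ B, σ b = 0) → σ = 0
  have hne : (univ.filter Good).Nonempty := by
    refine ⟨univ, ?_⟩
    simp only [mem_filter, mem_univ, true_and]
    intro σ _ h
    funext v
    exact h v (mem_univ v)
  obtain ⟨B, hB, hmin⟩ := Finset.exists_min_image (univ.filter Good) Finset.card hne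
  simp only [mem_filter, mem_univ, true_and] at hB hmin
  have hβ : ∀ b ∈ B, ∃ σ ∈ S, σ b = 1 ∧ ∀ b' ∈ B, b' ≠ b → σ b' = 0 := by
    intro b hb
    have hng : ¬ Good (B.erase b) := by
      intro hg
      have h1 := hmin _ hg
      have h2 := Finset.card_erase_lt_of_mem hb
      omega
    simp only [Good] at hng
    push Not at hng
    obtain ⟨σ, hσ, h0, hne⟩ := hng
    refine ⟨σ, hσ, ?_, fun b' hb' hne' => h0 b' (Finset.mem_erase.2 ⟨hne', hb'⟩)⟩
    apply zmod2_eq_one
    intro hb0
    apply hne
    apply hB σ hσ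
    intro b' hb'
    by_cases h : b' = b
    · rw [h]; exact hb0
    · exact h0 b' (Finset.mem_erase.2 ⟨h, hb'⟩)
  choose! s hs hs1 hs0 using hβ
  let e := B.equivFin
  refine ⟨B.card, fun i => (e.symm i : V), fun i => s (e.symm i : V), fun i => hs _ (e.symm i).2,
    ?_, ?_⟩
  · intro i j
    by_cases h : i = j
    · subst h
      simpa using hs1 _ (e.symm i).2
    · simp only [h, if_false]
      apply hs0 _ (e.symm i).2 _ (e.symm j).2
      intro h'
      apply h
      exact (e.symm.injective (Subtype.ext h')).symm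
  · intro σ hσ v
    have h1 : σ - ∑ i : Fin B.card, σ (e.symm i : V) • s (e.symm i : V) = 0 := by
      apply hB
      · exact S.sub_mem hσ (S.sum_mem fun i _ => S.smul_mem _ (hs _ (e.symm i).2))
      · intro b hb
        obtain ⟨j, hj⟩ : ∃ j, (e.symm j : V) = b := ⟨e ⟨b, hb⟩, by simp⟩
        subst hj
        simp only [Pi.sub_apply, Finset.sum_apply, Pi.smul_apply, smul_eq_mul]
        rw [Finset.sum_eq_single j]
        · rw [hs1 _ (e.symm j).2, mul_one, sub_self]
        · intro i _ hij
          rw [hs0 _ (e.symm i).2 _ (e.symm j).2, mul_zero]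
          intro h'
          apply hij
          exact (e.symm.injective (Subtype.ext h')).symm
        · simp
    have h2 := congrFun h1 v
    simp only [Pi.sub_apply, Finset.sum_apply, Pi.smul_apply, smul_eq_mul, Pi.zero_apply,
      sub_eq_zero] at h2
    exact h2

/-- Elements with distinct leading positions are at most as many as the dimension. -/
theorem card_le_of_lead {X V : Type} [Fintype V] (u : V → X → ZMod 2) (L : Finset X) (w : X → ℕ)
    (hw : ∀ p ∈ L, ∀ q ∈ L, w p = w q → p = q)
    (hL : ∀ p ∈ L, ∃ M ∈ Submodule.span (ZMod 2) (Set.range u), M p ≠ 0 ∧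
      ∀ q ∈ L, w p < w q → M q = 0) : L.card ≤ Fintype.card V := by
  classical
  have hL' : ∀ p : L, ∃ M ∈ Submodule.span (ZMod 2) (Set.range u), M p.1 ≠ 0 ∧
      ∀ q ∈ L, w p.1 < w q → M q = 0 := fun p => hL p.1 p.2
  choose M hM hM1 hM0 using hL'
  have hfin : Module.Finite (ZMod 2) (Submodule.span (ZMod 2) (Set.range u)) :=
    Module.Finite.span_of_finite _ (Set.finite_range u)
  have hli : LinearIndependent (ZMod 2)
      (fun p : L => (⟨M p, hM p⟩ : Submodule.span (ZMod 2) (Set.range u))) := by
    rw [linearIndependent_iff']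
    intro s g hg
    by_contra hcon
    push Not at hcon
    obtain ⟨i0, hi0, hgi0⟩ := hcon
    obtain ⟨i, hi, hmax⟩ := Finset.exists_max_image (s.filter fun i => g i ≠ 0)
      (fun i => w i.1) ⟨i0, by simp [hi0, hgi0]⟩
    simp only [mem_filter] at hi hmax
    have h1 := congrArg (fun f : Submodule.span (ZMod 2) (Set.range u) => f.1 i.1) hg
    simp only [Submodule.coe_sum, Submodule.coe_smul, Finset.sum_apply, Pi.smul_apply,
      smul_eq_mul, Submodule.coe_zero, Pi.zero_apply] at h1
    rw [Finset.sum_eq_single i] at h1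
    · rcases mul_eq_zero.1 h1 with h | h
      · exact hi.2 h
      · exact hM1 i h
    · intro j hj hji
      by_cases hgj : g j = 0
      · rw [hgj, zero_mul]
      · have h2 := hmax j ⟨hj, hgj⟩
        have h3 : w j.1 ≠ w i.1 := by
          intro h
          exact hji (Subtype.ext (hw _ j.2 _ i.2 h))
        rw [hM0 j i.1 i.2 (lt_of_le_of_ne h2 h3), mul_zero]
    · intro h
      exact absurd hi.1 h
  have h1 := hli.fintype_card_le_finrank
  have h2 := finrank_range_le_card (R := ZMod 2) (b := u)
  rw [Set.finrank] at h2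
  rw [Fintype.card_coe] at h1
  exact h1.trans h2

/-- The dimension of a subspace is at most the number of leading positions. -/
theorem finrank_le_lead {D : ℕ} (U : Submodule (ZMod 2) (Fin D → ZMod 2)) (M : Finset (Fin D))
    (hM : ∀ v ∈ U, ∀ j, v j ≠ 0 → (∀ k, j < k → v k = 0) → j ∈ M) :
    Module.finrank (ZMod 2) U ≤ M.card := by
  classical
  let φ : U →ₗ[ZMod 2] (M → ZMod 2) :=
    { toFun := fun v j => v.1 j.1
      map_add' := fun v v' => rfl
      map_smul' := fun c v => rfl }
  have hφ : Function.Injective φ := by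
    rw [← LinearMap.ker_eq_bot, LinearMap.ker_eq_bot']
    intro v hv
    by_contra hne
    have hne' : ∃ j, v.1 j ≠ 0 := by
      by_contra h
      push Not at h
      exact hne (Subtype.ext (funext h))
    obtain ⟨j0, hj0⟩ := hne'
    obtain ⟨j, hj, hmax⟩ := Finset.exists_max_image (univ.filter fun j => v.1 j ≠ 0) id
      ⟨j0, by simp [hj0]⟩
    simp only [mem_filter, mem_univ, true_and, id] at hj hmax
    have hjM : j ∈ M := by
      apply hM v.1 v.2 j hj
      intro k hk
      by_contra hk0
      exact absurd (hmax k hk0) (not_le.2 hk)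
    exact hj (congrFun hv ⟨j, hjM⟩)
  have h := LinearMap.finrank_le_finrank_of_injective hφ
  rwa [Module.finrank_fintype_fun_eq_card, Fintype.card_coe] at h

/-- Isolated products of two affine functions. -/
theorem isolated_products {D : ℕ} (U : Submodule (ZMod 2) (Fin D → ZMod 2)) {J : Type} [Fintype J]
    [DecidableEq J] (y z : J → U) (τ : J → Fin D → ZMod 2)
    (h : ∀ j j', (1 + (y j).1 ⬝ᵥ τ j') * (1 + (z j).1 ⬝ᵥ τ j') = if j = j' then 1 else 0) :
    Fintype.card J ≤ (Module.finrank (ZMod 2) U + 1) ^ 2 := by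
  classical
  let φ : J → (ZMod 2 × U) →ₗ[ZMod 2] ZMod 2 := fun j =>
    { toFun := fun a => a.1 + a.2.1 ⬝ᵥ τ j
      map_add' := fun a a' => by
        simp only [Prod.fst_add, Prod.snd_add, Submodule.coe_add, add_dotProduct]
        ring
      map_smul' := fun c a => by
        simp only [Prod.smul_fst, Prod.smul_snd, Submodule.coe_smul, smul_dotProduct,
          smul_eq_mul, RingHom.id_apply]
        ring }
  let w : J → TensorProduct (ZMod 2) (ZMod 2 × U) (ZMod 2 × U) := fun j =>
    (1, y j) ⊗ₜ[ZMod 2] (1, z j)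
  let Φ : J → TensorProduct (ZMod 2) (ZMod 2 × U) (ZMod 2 × U) →ₗ[ZMod 2] ZMod 2 := fun j =>
    (LinearMap.mul' (ZMod 2) (ZMod 2)).comp (TensorProduct.map (φ j) (φ j))
  have hΦ : ∀ j j', Φ j' (w j) = if j = j' then 1 else 0 := by
    intro j j'
    simp only [Φ, w, LinearMap.comp_apply, TensorProduct.map_tmul, LinearMap.mul'_apply]
    exact h j j'
  have hcomp : LinearIndependent (ZMod 2) ((LinearMap.pi Φ) ∘ w) := by
    have e : (LinearMap.pi Φ) ∘ w = Pi.basisFun (ZMod 2) J := by
      funext j j'
      simp only [Function.comp_apply, LinearMap.pi_apply, hΦ, Pi.basisFun_apply, Pi.single_apply]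
      by_cases hj : j = j'
      · simp [hj]
      · simp [hj, Ne.symm hj]
    rw [e]
    exact (Pi.basisFun (ZMod 2) J).linearIndependent
  have hli : LinearIndependent (ZMod 2) w := LinearIndependent.of_comp (LinearMap.pi Φ) hcomp
  have h1 := hli.fintype_card_le_finrank
  rw [Module.finrank_tensorProduct, Module.finrank_prod, Module.finrank_self] at h1
  rw [sq, add_comm]
  exact h1

end Pool.Agent.Work.MP_49e1e0_lc
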