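import Mathlib
import Pool.Agent.Work.MP_49e1e0_lc.LinAlg

/-!
The main estimates for isolated families of three-dimensional subspaces.
-/

open Finset

namespace Pool.Agent.Work.MP_49e1e0_lc

/-- An isolated family in coordinates. -/
structure Data (V ι : Type) (D : ℕ) where
  vec : V → Fin D → ZMod 2
  b : Fin D → V
  hb : ∀ i, vec (b i) = Pi.single i 1
  x : ι → Fin 6 → V
  h3 : ∀ e, vec (x e 3) = vec (x e 0) + vec (x e 1)
  h4 : ∀ e, vec (x e 4) = vec (x e 1) + vec (x e 2)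
  h5 : ∀ e, vec (x e 5) = vec (x e 0) + vec (x e 2)
  τ : ι → Fin D → ZMod 2
  iso : ∀ e e', (∀ p, vec (x e p) ⬝ᵥ τ e' = 0) ↔ e = e'

namespace Data

variable {V ι : Type} {D : ℕ} (A : Data V ι D)

/-- the space spanned by the squares `u ⊗ u` -/
def T : Submodule (ZMod 2) (Fin D × Fin D → ZMod 2) :=
  Submodule.span (ZMod 2) (Set.range fun u : V => fun p : Fin D × Fin D => A.vec u p.1 * A.vec u p.2)

theorem sq_mem (u : V) : (fun p : Fin D × Fin D => A.vec u p.1 * A.vec u p.2) ∈ A.T :=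
  Submodule.subset_span ⟨u, rfl⟩

/-- wedge of two elements whose sum is again in the set -/
theorem wedge_mem {u v w : V} (h : A.vec w = A.vec u + A.vec v) :
    (fun p : Fin D × Fin D => A.vec u p.1 * A.vec v p.2 + A.vec v p.1 * A.vec u p.2) ∈ A.T := by
  have h1 := A.T.add_mem (A.T.add_mem (A.sq_mem w) (A.sq_mem u)) (A.sq_mem v)
  convert h1 using 1
  funext p
  simp only [Pi.add_apply, h]
  have e1 := zmod2_add_self (A.vec u p.1 * A.vec u p.2)
  have e2 := zmod2_add_self (A.vec v p.1 * A.vec v p.2)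
  linear_combination (-1 : ZMod 2) * e1 - e2

open Classical in
/-- leading pairs -/
noncomputable def L2 : Finset (Fin D × Fin D) := univ.filter fun p => p.1 ≠ p.2 ∧
  ∃ M ∈ A.T, M p ≠ 0 ∧ ∀ q : Fin D × Fin D, q.1 ≠ q.2 →
    2 ^ (p.1 : ℕ) + 2 ^ (p.2 : ℕ) < 2 ^ (q.1 : ℕ) + 2 ^ (q.2 : ℕ) → M q = 0

theorem mem_L2 {p : Fin D × Fin D} : p ∈ A.L2 ↔ p.1 ≠ p.2 ∧
  ∃ M ∈ A.T, M p ≠ 0 ∧ ∀ q : Fin D × Fin D, q.1 ≠ q.2 →
    2 ^ (p.1 : ℕ) + 2 ^ (p.2 : ℕ) < 2 ^ (q.1 : ℕ) + 2 ^ (q.2 : ℕ) → M q = 0 := by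
  classical
  simp [L2]

end Data

theorem pow_add_inj {a b c d : ℕ} (hab : a < b) (hcd : c < d) (h : 2 ^ a + 2 ^ b = 2 ^ c + 2 ^ d) :
    a = c ∧ b = d := by
  have key : ∀ {a b c d : ℕ}, a < b → c < d → 2 ^ a + 2 ^ b = 2 ^ c + 2 ^ d → ¬ b < d := by
    intro a b c d hab hcd h hbd
    have h1 : 2 ^ a < 2 ^ b := Nat.pow_lt_pow_right (by norm_num) hab
    have h2 : 2 ^ (b + 1) ≤ 2 ^ d := Nat.pow_le_pow_right (by norm_num) hbd
    have h3 : 2 ^ (b + 1) = 2 ^ b + 2 ^ b := by ring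
    have h4 : 0 < 2 ^ c := by positivity
    omega
  have hbd : b = d := le_antisymm (not_lt.1 (key hcd hab h.symm)) (not_lt.1 (key hab hcd h))
  subst hbd
  exact ⟨Nat.pow_right_injective (le_refl 2) (by simpa using h), rfl⟩

namespace Data

variable {V ι : Type} {D : ℕ} (A : Data V ι D)

theorem symm_T {M : Fin D × Fin D → ZMod 2} (h : M ∈ A.T) (i j : Fin D) : M (i, j) = M (j, i) := by
  induction h using Submodule.span_induction with
  | mem x hx =>
    obtain ⟨u, rfl⟩ := hx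
    simp [mul_comm]
  | zero => rfl
  | add x y _ _ hx hy => simp [hx, hy]
  | smul a x _ hx => simp [hx]

theorem card_L2 [Fintype V] : A.L2.card ≤ 2 * Fintype.card V := by
  classical
  have h1 : (A.L2.filter fun p => p.1 < p.2).card ≤ Fintype.card V := by
    apply card_le_of_lead (fun u : V => fun p : Fin D × Fin D => A.vec u p.1 * A.vec u p.2) _
      (fun p => 2 ^ (p.1 : ℕ) + 2 ^ (p.2 : ℕ))
    · intro p hp q hq h
      simp only [mem_filter] at hp hq
      have := pow_add_inj (Fin.lt_def.1 hp.2) (Fin.lt_def.1 hq.2) h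
      exact Prod.ext (Fin.ext this.1) (Fin.ext this.2)
    · intro p hp
      simp only [mem_filter, mem_L2] at hp
      obtain ⟨⟨_, M, hM, hM1, hM0⟩, _⟩ := hp
      refine ⟨M, hM, hM1, fun q hq hpq => hM0 q ?_ hpq⟩
      simp only [mem_filter] at hq
      exact ne_of_lt hq.2
  have h2 : (A.L2.filter fun p => ¬ p.1 < p.2).card ≤ (A.L2.filter fun p => p.1 < p.2).card := by
    apply Finset.card_le_card_of_injOn Prod.swap
    · intro p hp
      simp only [coe_filter, Set.mem_ofPred_eq, mem_L2] at hp ⊢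
      obtain ⟨⟨hne, M, hM, hM1, hM0⟩, hlt⟩ := hp
      refine ⟨⟨fun h => hne h.symm, M, hM, ?_, ?_⟩, ?_⟩
      · have := A.symm_T hM p.1 p.2
        simpa [Prod.swap, ← this] using hM1
      · intro q hq hlt'
        apply hM0 q hq
        simpa [Prod.swap, add_comm] using hlt'
      · exact lt_of_le_of_ne (not_lt.1 hlt) (fun h => hne h.symm)
    · intro p _ q _ h
      exact Prod.swap_injective h
  have h3 := Finset.card_filter_add_card_filter_not (s := A.L2) (fun p => p.1 < p.2)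
  omega

/-- the alternating trilinear form of a combination of clauses -/
def det (e : ι) (i j k : Fin D) : ZMod 2 :=
  A.vec (A.x e 0) i * (A.vec (A.x e 1) j * A.vec (A.x e 2) k + A.vec (A.x e 2) j * A.vec (A.x e 1) k) +
  A.vec (A.x e 1) i * (A.vec (A.x e 0) j * A.vec (A.x e 2) k + A.vec (A.x e 2) j * A.vec (A.x e 0) k) +
  A.vec (A.x e 2) i * (A.vec (A.x e 0) j * A.vec (A.x e 1) k + A.vec (A.x e 1) j * A.vec (A.x e 0) k)

variable [Fintype ι]

def tri (c : ι → ZMod 2) (i j k : Fin D) : ZMod 2 := ∑ e, c e * A.det e i j k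

theorem tri_swap (c : ι → ZMod 2) (i j k : Fin D) : A.tri c i j k = A.tri c j i k := by
  unfold tri
  refine Finset.sum_congr rfl fun e _ => ?_
  unfold det
  ring

theorem tri_rot (c : ι → ZMod 2) (i j k : Fin D) : A.tri c i j k = A.tri c k i j := by
  unfold tri
  refine Finset.sum_congr rfl fun e _ => ?_
  unfold det
  ring

theorem tri_self (c : ι → ZMod 2) (i k : Fin D) : A.tri c i i k = 0 := by
  unfold tri
  refine Finset.sum_eq_zero fun e _ => ?_
  have : A.det e i i k = 0 := by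
    unfold det
    generalize A.vec (A.x e 0) i = a
    generalize A.vec (A.x e 1) i = b
    generalize A.vec (A.x e 2) i = c
    generalize A.vec (A.x e 0) k = a'
    generalize A.vec (A.x e 1) k = b'
    generalize A.vec (A.x e 2) k = c'
    revert a b c a' b' c'
    decide
  rw [this, mul_zero]

theorem tri_slice (c : ι → ZMod 2) (i : Fin D) :
    (fun p : Fin D × Fin D => A.tri c i p.1 p.2) ∈ A.T := by
  have h1 : (fun p : Fin D × Fin D => A.tri c i p.1 p.2) =
      ∑ e, c e • (A.vec (A.x e 0) i • (fun p : Fin D × Fin D =>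
          A.vec (A.x e 1) p.1 * A.vec (A.x e 2) p.2 + A.vec (A.x e 2) p.1 * A.vec (A.x e 1) p.2) +
        A.vec (A.x e 1) i • (fun p : Fin D × Fin D =>
          A.vec (A.x e 0) p.1 * A.vec (A.x e 2) p.2 + A.vec (A.x e 2) p.1 * A.vec (A.x e 0) p.2) +
        A.vec (A.x e 2) i • (fun p : Fin D × Fin D =>
          A.vec (A.x e 0) p.1 * A.vec (A.x e 1) p.2 + A.vec (A.x e 1) p.1 * A.vec (A.x e 0) p.2)) := by
    funext p
    simp only [tri, det, Finset.sum_apply, Pi.smul_apply, Pi.add_apply, smul_eq_mul]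
  rw [h1]
  refine A.T.sum_mem fun e _ => A.T.smul_mem _ (A.T.add_mem (A.T.add_mem ?_ ?_) ?_)
  · exact A.T.smul_mem _ (A.wedge_mem (A.h4 e))
  · exact A.T.smul_mem _ (A.wedge_mem (A.h5 e))
  · exact A.T.smul_mem _ (A.wedge_mem (A.h3 e))

open Classical in
/-- leading triples -/
noncomputable def L3 : Finset (Fin D × Fin D × Fin D) := univ.filter fun t =>
  ∃ c : ι → ZMod 2, A.tri c t.1 t.2.1 t.2.2 ≠ 0 ∧ ∀ i j k : Fin D,
    2 ^ (t.1 : ℕ) + 2 ^ (t.2.1 : ℕ) + 2 ^ (t.2.2 : ℕ) < 2 ^ (i : ℕ) + 2 ^ (j : ℕ) + 2 ^ (k : ℕ) →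
    A.tri c i j k = 0

theorem mem_L3 {t : Fin D × Fin D × Fin D} : t ∈ A.L3 ↔
  ∃ c : ι → ZMod 2, A.tri c t.1 t.2.1 t.2.2 ≠ 0 ∧ ∀ i j k : Fin D,
    2 ^ (t.1 : ℕ) + 2 ^ (t.2.1 : ℕ) + 2 ^ (t.2.2 : ℕ) < 2 ^ (i : ℕ) + 2 ^ (j : ℕ) + 2 ^ (k : ℕ) →
    A.tri c i j k = 0 := by
  classical
  simp [L3]

theorem L3_proj {i j k : Fin D} (h : (i, j, k) ∈ A.L3) : (j, k) ∈ A.L2 := by
  rw [mem_L3] at h
  obtain ⟨c, h1, h0⟩ := h
  simp only at h1 h0
  rw [mem_L2]
  refine ⟨?_, _, A.tri_slice c i, h1, ?_⟩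
  · intro hjk
    simp only at hjk
    subst hjk
    apply h1
    rw [A.tri_rot, A.tri_rot, A.tri_self]
  · intro q _ hlt
    apply h0
    simp only at hlt
    omega

theorem L3_swap {i j k : Fin D} (h : (i, j, k) ∈ A.L3) : (j, i, k) ∈ A.L3 := by
  rw [mem_L3] at h ⊢
  obtain ⟨c, h1, h0⟩ := h
  simp only at h1 h0 ⊢
  refine ⟨c, ?_, ?_⟩
  · rwa [A.tri_swap]
  · intro i' j' k' hlt
    apply h0
    omega

theorem L3_rot {i j k : Fin D} (h : (i, j, k) ∈ A.L3) : (k, i, j) ∈ A.L3 := by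
  rw [mem_L3] at h ⊢
  obtain ⟨c, h1, h0⟩ := h
  simp only at h1 h0 ⊢
  refine ⟨c, ?_, ?_⟩
  · rwa [← A.tri_rot]
  · intro i' j' k' hlt
    apply h0
    omega

/-- The degrees of the graph of leading pairs. -/
noncomputable def nb (k : Fin D) : Finset (Fin D) := by
  classical exact univ.filter fun i => (i, k) ∈ A.L2

omit [Fintype ι] in
theorem sum_nb : ∑ k, (A.nb k).card = A.L2.card := by
  classical
  rw [Finset.card_eq_sum_card_fiberwise (f := Prod.snd) (t := univ) (fun _ _ => mem_univ _)]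
  refine Finset.sum_congr rfl fun k _ => ?_
  refine Finset.card_bij (fun i _ => (i, k)) ?_ ?_ ?_
  · intro i hi
    simp only [nb, mem_filter, mem_univ, true_and] at hi
    simp [hi]
  · intro i _ j _ h
    exact (Prod.ext_iff.1 h).1
  · rintro ⟨i, k'⟩ h
    simp only [mem_filter] at h
    obtain ⟨h1, rfl⟩ := h
    exact ⟨i, by simp [nb, h1], rfl⟩

/-- Loomis-Whitney for the leading triples. -/
theorem card_L3 : (A.L3.card : ℝ) ≤ A.L2.card * Real.sqrt A.L2.card := by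
  classical
  have h1 : A.L3.card = ∑ k, (A.L3.filter fun t => t.2.2 = k).card :=
    Finset.card_eq_sum_card_fiberwise (f := fun t : Fin D × Fin D × Fin D => t.2.2) (t := univ)
      (fun _ _ => mem_univ _)
  have h2 : ∀ k, (A.L3.filter fun t => t.2.2 = k).card ≤ (A.nb k).card ^ 2 := by
    intro k
    rw [sq, ← Finset.card_product]
    apply Finset.card_le_card_of_injOn (fun t => (t.1, t.2.1))
    · rintro ⟨i, j, k'⟩ h
      simp only [coe_filter, Set.mem_ofPred_eq] at h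
      obtain ⟨h, rfl⟩ := h
      simp only [coe_product, Set.mem_prod, mem_coe, nb, mem_filter, mem_univ, true_and]
      exact ⟨A.L3_proj (A.L3_swap h), A.L3_proj h⟩
    · rintro ⟨i, j, k'⟩ h ⟨i', j', k''⟩ h' heq
      simp only [coe_filter, Set.mem_ofPred_eq] at h h'
      simp only [Prod.mk.injEq] at heq
      obtain ⟨h, rfl⟩ := h
      obtain ⟨h', rfl⟩ := h'
      rw [heq.1, heq.2]
  have h3 : ∀ k, (A.L3.filter fun t => t.2.2 = k).card ≤ A.L2.card := by
    intro k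
    apply Finset.card_le_card_of_injOn (fun t => (t.1, t.2.1))
    · rintro ⟨i, j, k'⟩ h
      simp only [coe_filter, Set.mem_ofPred_eq] at h
      exact A.L3_proj (A.L3_rot h.1)
    · rintro ⟨i, j, k'⟩ h ⟨i', j', k''⟩ h' heq
      simp only [coe_filter, Set.mem_ofPred_eq] at h h'
      simp only [Prod.mk.injEq] at heq
      obtain ⟨h, rfl⟩ := h
      obtain ⟨h', rfl⟩ := h'
      rw [heq.1, heq.2]
  have h4 : ∀ k, ((A.L3.filter fun t => t.2.2 = k).card : ℝ) ≤
      (A.nb k).card * Real.sqrt A.L2.card := by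
    intro k
    have e2 : ((A.L3.filter fun t => t.2.2 = k).card : ℝ) ≤ ((A.nb k).card : ℝ) ^ 2 := by
      exact_mod_cast h2 k
    have e3 : ((A.L3.filter fun t => t.2.2 = k).card : ℝ) ≤ (A.L2.card : ℝ) := by
      exact_mod_cast h3 k
    refine le_of_sq_le_sq ?_ (by positivity)
    rw [mul_pow, Real.sq_sqrt (by positivity), sq]
    exact mul_le_mul e2 e3 (by positivity) (by positivity)
  rw [h1, ← A.sum_nb]
  push_cast
  rw [Finset.sum_mul]
  have h5 : ∑ k, ((A.nb k).card : ℝ) = (A.L2.card : ℝ) := by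
    exact_mod_cast A.sum_nb
  rw [h5]
  exact Finset.sum_le_sum fun k _ => h4 k

end Data

end Pool.Agent.Work.MP_49e1e0_lc
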