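import Mathlib

set_option autoImplicit false
set_option linter.unusedSectionVars false
set_option linter.deprecated false

namespace Pool.Agent.Work.MP_49e1e0_lc

open Finset Module

/-- the real inequality behind the edge-isoperimetric inequality of the cube -/
lemma entropy_step (a b : ℝ) (ha : 0 ≤ a) (hab : a ≤ b) :
    a * Real.logb 2 a + b * Real.logb 2 b + 2 * a ≤ (a + b) * Real.logb 2 (a + b) := by
  rcases eq_or_lt_of_le ha with h0 | h0
  · subst h0; simp
  · have hb : 0 < b := lt_of_lt_of_le h0 hab
    have h1 : Real.logb 2 a + 1 ≤ Real.logb 2 (a + b) := by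
      have : Real.logb 2 a + 1 = Real.logb 2 (a * 2) := by
        rw [Real.logb_mul h0.ne' (by norm_num), Real.logb_self_eq_one (by norm_num)]
      rw [this]
      exact Real.logb_le_logb_of_le (by norm_num) (by positivity) (by linarith)
    have h2 : Real.logb 2 b + a / b ≤ Real.logb 2 (a + b) := by
      have hr0 : 0 ≤ a / b := by positivity
      have hr1 : a / b ≤ 1 := by rw [div_le_one hb]; exact hab
      have h3 : (2 : ℝ) ^ (a / b) ≤ 1 + a / b := by
        have := rpow_one_add_le_one_add_mul_self (s := (1 : ℝ)) (by norm_num) hr0 hr1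
        have h4 : (1 : ℝ) + 1 = 2 := by norm_num
        rw [h4, mul_one] at this
        exact this
      have h5 : a / b ≤ Real.logb 2 (1 + a / b) := by
        rw [Real.le_logb_iff_rpow_le (by norm_num) (by positivity)]
        exact h3
      have h6 : Real.logb 2 (a + b) = Real.logb 2 b + Real.logb 2 (1 + a / b) := by
        rw [← Real.logb_mul hb.ne' (by positivity)]
        congr 1
        field_simp
        ring
      rw [h6]; linarith
    have h7 : b * (a / b) = a := by field_simp
    nlinarith [mul_le_mul_of_nonneg_left h1 h0.le, mul_le_mul_of_nonneg_left h2 hb.le]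

variable {V : Type*} [AddCommGroup V] [Module (ZMod 2) V] [DecidableEq V]

/-- number of partners of `b` in `Z` -/
def ell (Z : Finset V) (b : V) : ℕ := (Z.filter fun y => y + b ∈ Z).card

lemma add_self_eq_zero' (x : V) : x + x = 0 := by
  have : (2 : ZMod 2) • x = 0 := by
    have h : (2 : ZMod 2) = 0 := by decide
    rw [h, zero_smul]
  rw [two_smul] at this
  exact this

lemma add_add_cancel' (x y : V) : x + y + y = x := by
  rw [add_assoc, add_self_eq_zero', add_zero]

/-- Edge-isoperimetric inequality of the cube, for independent directions. -/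
theorem cube (I : Finset V) : LinearIndepOn (ZMod 2) id (I : Set V) → ∀ Z : Finset V,
    (∑ b ∈ I, (ell Z b : ℝ)) ≤ Z.card * Real.logb 2 Z.card := by
  induction I using Finset.induction_on with
  | empty =>
    intro _ Z
    simp only [sum_empty]
    rcases Nat.eq_zero_or_pos Z.card with h | h
    · simp [h]
    · have : (1 : ℝ) ≤ Z.card := by exact_mod_cast h
      exact mul_nonneg (by linarith) (Real.logb_nonneg (by norm_num) this)
  | insert b I hb ih =>
    intro hI Z
    rw [coe_insert] at hI
    have hbI : (b : V) ∉ (I : Set V) := by simpa using hb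
    obtain ⟨hI', hspan⟩ := (linearIndepOn_id_insert hbI).mp hI
    obtain ⟨φ, hφb, hφ⟩ := Submodule.exists_le_ker_of_notMem hspan
    have hφI : ∀ c ∈ I, φ c = 0 := fun c hc =>
      hφ (Submodule.subset_span (mem_coe.mpr hc))
    have hφb1 : φ b = 1 := by
      have : ∀ x : ZMod 2, x ≠ 0 → x = 1 := by decide
      exact this _ hφb
    set Z0 := Z.filter fun y => φ y = 0 with hZ0
    set Z1 := Z.filter fun y => ¬ φ y = 0 with hZ1
    have hcard : Z0.card + Z1.card = Z.card := card_filter_add_card_filter_not _
    have hne1 : ∀ x : ZMod 2, ¬ x = 0 → x = 1 := by decide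
    have hstep : ∀ c ∈ I, ell Z c = ell Z0 c + ell Z1 c := by
      intro c hc
      unfold ell
      have e0 : (Z0.filter fun y => y + c ∈ Z0) = (Z.filter fun y => y + c ∈ Z).filter
          fun y => φ y = 0 := by
        ext y
        simp only [hZ0, mem_filter, map_add, hφI c hc, add_zero]
        tauto
      have e1 : (Z1.filter fun y => y + c ∈ Z1) = (Z.filter fun y => y + c ∈ Z).filter
          fun y => ¬ φ y = 0 := by
        ext y
        simp only [hZ1, mem_filter, map_add, hφI c hc, add_zero]
        tauto
      rw [e0, e1, card_filter_add_card_filter_not]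
    have hbb : ell Z b ≤ 2 * min Z0.card Z1.card := by
      unfold ell
      have e : (Z.filter fun y => y + b ∈ Z).card =
          ((Z.filter fun y => y + b ∈ Z).filter fun y => φ y = 0).card +
          ((Z.filter fun y => y + b ∈ Z).filter fun y => ¬ φ y = 0).card :=
        (card_filter_add_card_filter_not _).symm
      have a0 : ((Z.filter fun y => y + b ∈ Z).filter fun y => φ y = 0).card ≤ Z0.card := by
        apply card_le_card
        intro y hy
        simp only [mem_filter] at hy
        simp only [hZ0, mem_filter]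
        exact ⟨hy.1.1, hy.2⟩
      have a1 : ((Z.filter fun y => y + b ∈ Z).filter fun y => φ y = 0).card ≤ Z1.card := by
        apply card_le_card_of_injOn (fun y => y + b)
        · intro y hy
          simp only [coe_filter, mem_filter, Set.mem_setOf_eq] at hy
          simp only [hZ1, coe_filter, Set.mem_setOf_eq, map_add, hφb1]
          refine ⟨hy.1.2, ?_⟩
          rw [hy.2, zero_add]
          decide
        · intro x _ y _ hxy
          exact add_right_cancel hxy
      have b1 : ((Z.filter fun y => y + b ∈ Z).filter fun y => ¬ φ y = 0).card ≤ Z1.card := by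
        apply card_le_card
        intro y hy
        simp only [mem_filter] at hy
        simp only [hZ1, mem_filter]
        exact ⟨hy.1.1, hy.2⟩
      have b0 : ((Z.filter fun y => y + b ∈ Z).filter fun y => ¬ φ y = 0).card ≤ Z0.card := by
        apply card_le_card_of_injOn (fun y => y + b)
        · intro y hy
          simp only [coe_filter, mem_filter, Set.mem_setOf_eq] at hy
          simp only [hZ0, coe_filter, Set.mem_setOf_eq, map_add, hφb1]
          refine ⟨hy.1.2, ?_⟩
          rw [hne1 _ hy.2]
          decide
        · intro x _ y _ hxy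
          exact add_right_cancel hxy
      omega
    have hsum : ∑ c ∈ I, (ell Z c : ℝ) = ∑ c ∈ I, (ell Z0 c : ℝ) + ∑ c ∈ I, (ell Z1 c : ℝ) := by
      rw [← sum_add_distrib]
      refine sum_congr rfl fun c hc => ?_
      rw [hstep c hc]; push_cast; rfl
    rw [sum_insert hb, hsum]
    have i0 := ih hI' Z0
    have i1 := ih hI' Z1
    have hbb' : (ell Z b : ℝ) ≤ 2 * min (Z0.card : ℝ) (Z1.card : ℝ) := by
      exact_mod_cast hbb
    have hc' : (Z.card : ℝ) = Z0.card + Z1.card := by rw [← hcard]; push_cast; rfl
    rw [hc']
    rcases le_total (Z0.card : ℝ) (Z1.card : ℝ) with hle | hle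
    · rw [min_eq_left hle] at hbb'
      have := entropy_step _ _ (Nat.cast_nonneg Z0.card) hle
      linarith
    · rw [min_eq_right hle] at hbb'
      have := entropy_step _ _ (Nat.cast_nonneg Z1.card) hle
      rw [add_comm (Z1.card : ℝ) (Z0.card : ℝ)] at this
      linarith

/-- The span of the elements with many partners has small dimension. -/
theorem finrank_high (Z H I0 : Finset V) (T : ℝ) (hT : 0 < T)
    (hell : ∀ z ∈ H, T ≤ ell Z z) (hI0H : I0 ⊆ H)
    (hI0 : LinearIndepOn (ZMod 2) id (I0 : Set V)) :
    ∃ I : Finset V, I0 ⊆ I ∧ I ⊆ H ∧ LinearIndepOn (ZMod 2) id (I : Set V) ∧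
      (∀ z ∈ H, z ∈ Submodule.span (ZMod 2) (I : Set V)) ∧
      (I.card : ℝ) ≤ Z.card * Real.logb 2 Z.card / T := by
  obtain ⟨b, hb1, hb2, hb3, hb4⟩ := exists_linearIndepOn_id_extension (K := ZMod 2)
    (s := (I0 : Set V)) (t := (H : Set V)) hI0 (coe_subset.mpr hI0H)
  have hfin : b.Finite := H.finite_toSet.subset hb1
  refine ⟨hfin.toFinset, ?_, ?_, ?_, ?_, ?_⟩
  · intro x hx
    exact hfin.mem_toFinset.mpr (hb2 (mem_coe.mpr hx))
  · intro x hx
    exact mem_coe.mp (hb1 (hfin.mem_toFinset.mp hx))
  · rw [hfin.coe_toFinset]; exact hb4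
  · intro z hz
    rw [hfin.coe_toFinset]
    exact hb3 (mem_coe.mpr hz)
  · rw [le_div_iff₀ hT]
    have hI : LinearIndepOn (ZMod 2) id ((hfin.toFinset : Finset V) : Set V) := by
      rw [hfin.coe_toFinset]; exact hb4
    have h1 := cube hfin.toFinset hI Z
    have h2 : ((hfin.toFinset).card : ℝ) * T ≤ ∑ b ∈ hfin.toFinset, (ell Z b : ℝ) := by
      rw [← nsmul_eq_mul, ← sum_const]
      refine sum_le_sum fun z hz => ?_
      exact hell z (mem_coe.mp (hb1 (hfin.mem_toFinset.mp hz)))
    exact h2.trans h1

end Pool.Agent.Work.MP_49e1e0_lc
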