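import Pool.Agent.Work.MP_49e1e0_lc.Lead

set_option autoImplicit false

namespace Pool.Agent.Work.MP_49e1e0_lc

open Finset Module

section Count

variable {κ : Type*} [Fintype κ] [DecidableEq κ]

/-- the number of triangles of a graph with `N` edges is at most `N^{3/2}` (ordered version) -/
lemma card_triangle (G : Finset (κ × κ)) (S : Finset (κ × κ × κ))
    (h : ∀ x ∈ S, (x.1, x.2.1) ∈ G ∧ (x.1, x.2.2) ∈ G ∧ x.2 ∈ G) :
    (S.card : ℝ) ≤ G.card * Real.sqrt G.card := by
  classical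
  let d : κ → ℕ := fun a => (G.filter fun y => y.1 = a).card
  have hS : S.card = ∑ a : κ, (S.filter fun x => x.1 = a).card :=
    card_eq_sum_card_fiberwise (fun x _ => mem_univ _)
  have hG : G.card = ∑ a : κ, d a :=
    card_eq_sum_card_fiberwise (fun x _ => mem_univ _)
  have hfib : ∀ a : κ, ((S.filter fun x => x.1 = a).card : ℝ) ≤ d a * Real.sqrt G.card := by
    intro a
    have h1 : (S.filter fun x => x.1 = a).card ≤ G.card := by
      apply card_le_card_of_injOn (fun x => x.2)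
      · intro x hx
        exact (h x (mem_filter.mp hx).1).2.2
      · intro x hx y hy hxy
        have hx' := (mem_filter.mp (mem_coe.mp hx)).2
        have hy' := (mem_filter.mp (mem_coe.mp hy)).2
        exact Prod.ext (hx'.trans hy'.symm) hxy
    have h2 : (S.filter fun x => x.1 = a).card ≤ d a * d a := by
      have : (S.filter fun x => x.1 = a).card ≤
          ((G.filter fun y => y.1 = a) ×ˢ (G.filter fun y => y.1 = a)).card := by
        apply card_le_card_of_injOn (fun x => ((x.1, x.2.1), (x.1, x.2.2)))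
        · intro x hx
          have hx1 := (mem_filter.mp (mem_coe.mp hx)).1
          have hx2 := (mem_filter.mp (mem_coe.mp hx)).2
          have := h x hx1
          simp only [coe_product, Set.mem_prod, mem_coe, mem_filter]
          exact ⟨⟨this.1, hx2⟩, ⟨this.2.1, hx2⟩⟩
        · intro x hx y hy hxy
          simp only [Prod.mk.injEq] at hxy
          exact Prod.ext hxy.1.1 (Prod.ext hxy.1.2 hxy.2.2)
      simpa [card_product, d] using this
    have h3 : ((S.filter fun x => x.1 = a).card : ℝ) ^ 2 ≤ (d a : ℝ) ^ 2 * G.card := by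
      have h1' : ((S.filter fun x => x.1 = a).card : ℝ) ≤ G.card := by exact_mod_cast h1
      have h2' : ((S.filter fun x => x.1 = a).card : ℝ) ≤ d a * d a := by exact_mod_cast h2
      have h0 : (0 : ℝ) ≤ ((S.filter fun x => x.1 = a).card : ℝ) := Nat.cast_nonneg _
      calc ((S.filter fun x => x.1 = a).card : ℝ) ^ 2
          = ((S.filter fun x => x.1 = a).card : ℝ) * ((S.filter fun x => x.1 = a).card : ℝ) := by
            ring
        _ ≤ (d a * d a) * G.card := mul_le_mul h2' h1' h0 (by positivity)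
        _ = (d a : ℝ) ^ 2 * G.card := by ring
    calc ((S.filter fun x => x.1 = a).card : ℝ)
        = Real.sqrt (((S.filter fun x => x.1 = a).card : ℝ) ^ 2) := by
          rw [Real.sqrt_sq (Nat.cast_nonneg _)]
      _ ≤ Real.sqrt ((d a : ℝ) ^ 2 * G.card) := Real.sqrt_le_sqrt h3
      _ = d a * Real.sqrt G.card := by
          rw [Real.sqrt_mul (by positivity), Real.sqrt_sq (Nat.cast_nonneg _)]
  calc (S.card : ℝ) = ∑ a : κ, ((S.filter fun x => x.1 = a).card : ℝ) := by
        rw [hS]; push_cast; rfl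
    _ ≤ ∑ a : κ, (d a : ℝ) * Real.sqrt G.card := sum_le_sum fun a _ => hfib a
    _ = (∑ a : κ, (d a : ℝ)) * Real.sqrt G.card := by rw [sum_mul]
    _ = G.card * Real.sqrt G.card := by
        congr 1
        rw [hG]; push_cast; rfl

end Count

section Cubic

variable {κ : Type*} [Fintype κ] [LinearOrder κ]

/-- the symmetric matrix `z z^T` -/
def sq (z : κ → ZMod 2) : κ ×ₗ κ → ZMod 2 := fun x => z (ofLex x).1 * z (ofLex x).2

/-- the cubic part of the product of three linear forms -/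
def tri (h p q : κ → ZMod 2) : κ ×ₗ (κ ×ₗ κ) → ZMod 2 := fun x =>
  h (ofLex x).1 * (p (ofLex (ofLex x).2).1 * q (ofLex (ofLex x).2).2 +
      p (ofLex (ofLex x).2).2 * q (ofLex (ofLex x).2).1) +
  p (ofLex x).1 * (h (ofLex (ofLex x).2).1 * q (ofLex (ofLex x).2).2 +
      h (ofLex (ofLex x).2).2 * q (ofLex (ofLex x).2).1) +
  q (ofLex x).1 * (h (ofLex (ofLex x).2).1 * p (ofLex (ofLex x).2).2 +
      h (ofLex (ofLex x).2).2 * p (ofLex (ofLex x).2).1)

/-- the triple `(a,b,c)` -/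
def mk3 (a b c : κ) : κ ×ₗ (κ ×ₗ κ) := toLex (a, toLex (b, c))

lemma tri_mk3 (h p q : κ → ZMod 2) (a b c : κ) :
    tri h p q (mk3 a b c) = h a * (p b * q c + p c * q b) + p a * (h b * q c + h c * q b) +
      q a * (h b * p c + h c * p b) := rfl

/-- contraction -/
def del (a : κ) : (κ ×ₗ (κ ×ₗ κ) → ZMod 2) →ₗ[ZMod 2] (κ ×ₗ κ → ZMod 2) where
  toFun t := fun x => t (toLex (a, x))
  map_add' := by intro s t; rfl
  map_smul' := by intro s t; rfl

lemma del_apply (a : κ) (t : κ ×ₗ (κ ×ₗ κ) → ZMod 2) (b c : κ) :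
    del a t (toLex (b, c)) = t (mk3 a b c) := rfl

lemma zmod2_add_self (x : ZMod 2) : x + x = 0 := by
  revert x; decide

lemma del_tri (h p q : κ → ZMod 2) (a : κ) :
    del a (tri h p q) = h a • (sq p + sq q + sq (p + q)) + p a • (sq h + sq q + sq (h + q)) +
      q a • (sq h + sq p + sq (h + p)) := by
  funext x
  obtain ⟨⟨b, c⟩, rfl⟩ := toLex.surjective x
  rw [del_apply, tri_mk3]
  simp only [Pi.add_apply, Pi.smul_apply, smul_eq_mul, sq, ofLex_toLex]
  generalize h a = ha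
  generalize p a = pa
  generalize q a = qa
  generalize h b = hb
  generalize p b = pb
  generalize q b = qb
  generalize h c = hc
  generalize p c = pc
  generalize q c = qc
  have h2 : (2 : ZMod 2) = 0 := by decide
  linear_combination (-(ha * (pb * pc + qb * qc)) - pa * (hb * hc + qb * qc) -
    qa * (hb * hc + pb * pc)) * h2

/-- symmetric functions of three arguments -/
def symm3 : Submodule (ZMod 2) (κ ×ₗ (κ ×ₗ κ) → ZMod 2) where
  carrier := {t | (∀ a b c, t (mk3 a b c) = t (mk3 b a c)) ∧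
    ∀ a b c, t (mk3 a b c) = t (mk3 a c b)}
  add_mem' := by
    rintro s t ⟨hs1, hs2⟩ ⟨ht1, ht2⟩
    exact ⟨fun a b c => by simp only [Pi.add_apply, hs1 a b c, ht1 a b c],
      fun a b c => by simp only [Pi.add_apply, hs2 a b c, ht2 a b c]⟩
  zero_mem' := ⟨fun _ _ _ => rfl, fun _ _ _ => rfl⟩
  smul_mem' := by
    rintro r t ⟨ht1, ht2⟩
    exact ⟨fun a b c => by simp only [Pi.smul_apply, ht1 a b c],
      fun a b c => by simp only [Pi.smul_apply, ht2 a b c]⟩

lemma tri_mem_symm3 (h p q : κ → ZMod 2) : tri h p q ∈ (symm3 : Submodule _ _) := by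
  refine ⟨fun a b c => ?_, fun a b c => ?_⟩
  · simp only [tri_mk3]; ring
  · simp only [tri_mk3]; ring

lemma lex2_le {a b c d : κ} : (toLex (a, b) : κ ×ₗ κ) ≤ toLex (c, d) ↔ a < c ∨ a = c ∧ b ≤ d :=
  Prod.Lex.toLex_le_toLex

lemma lead3 {t : κ ×ₗ (κ ×ₗ κ) → ZMod 2} (hs : t ∈ (symm3 : Submodule _ _)) {a b c : κ}
    (hl : IsLead t (mk3 a b c)) :
    IsLead (del a t) (toLex (b, c)) ∧ IsLead (del b t) (toLex (a, c)) ∧
      IsLead (del c t) (toLex (a, b)) := by
  obtain ⟨h1, h2⟩ := hs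
  obtain ⟨hne, hz⟩ := hl
  have hz' : ∀ x y z : κ, t (mk3 x y z) ≠ 0 → x < a ∨ x = a ∧ (y < b ∨ y = b ∧ z ≤ c) := by
    intro x y z hxyz
    have : ¬ mk3 a b c < mk3 x y z := fun hlt => hxyz (hz _ hlt)
    rw [not_lt] at this
    have h3 := Prod.Lex.toLex_le_toLex.mp this
    rcases h3 with h3 | ⟨h3, h4⟩
    · exact Or.inl h3
    · right
      refine ⟨h3, ?_⟩
      exact lex2_le.mp h4
  refine ⟨⟨?_, ?_⟩, ⟨?_, ?_⟩, ⟨?_, ?_⟩⟩
  · rw [del_apply]; exact hne
  · intro y hy
    obtain ⟨⟨y1, y2⟩, rfl⟩ := toLex.surjective y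
    rw [del_apply]
    by_contra hc
    rcases hz' _ _ _ hc with h | ⟨_, h⟩
    · exact lt_irrefl _ h
    · exact absurd hy (not_lt.mpr (lex2_le.mpr h))
  · rw [del_apply, h1]; exact hne
  · intro y hy
    obtain ⟨⟨y1, y2⟩, rfl⟩ := toLex.surjective y
    rw [del_apply, h1]
    by_contra hc
    apply absurd hy (not_lt.mpr (lex2_le.mpr _))
    rcases hz' _ _ _ hc with h | ⟨h, h' | ⟨_, h'⟩⟩
    · exact Or.inl h
    · exact absurd h' (lt_irrefl _)
    · exact Or.inr ⟨h, h'⟩
  · rw [del_apply, h1, h2]; exact hne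
  · intro y hy
    obtain ⟨⟨y1, y2⟩, rfl⟩ := toLex.surjective y
    rw [del_apply, h1, h2]
    by_contra hc
    apply absurd hy (not_lt.mpr (lex2_le.mpr _))
    rcases hz' _ _ _ hc with h | ⟨h, h' | ⟨h', _⟩⟩
    · exact Or.inl h
    · exact Or.inr ⟨h, h'.le⟩
    · exact Or.inr ⟨h, h'.le⟩

/-- Dimension bound for spaces of symmetric cubic tensors all of whose contractions lie in
a space of dimension at most `N`. -/
theorem finrank_cubic (T : Submodule (ZMod 2) (κ ×ₗ (κ ×ₗ κ) → ZMod 2))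
    (A : Submodule (ZMod 2) (κ ×ₗ κ → ZMod 2)) (hT : T ≤ symm3)
    (hTA : ∀ t ∈ T, ∀ a, del a t ∈ A) (N : ℕ) (hA : finrank (ZMod 2) A ≤ N) :
    (finrank (ZMod 2) T : ℝ) ≤ N * Real.sqrt N := by
  classical
  have h1 := finrank_le_card_leads T
  have h2 := (card_leads_le_finrank A).trans hA
  let G : Finset (κ × κ) := (leads A).map ofLex.toEmbedding
  let S : Finset (κ × κ × κ) := (leads T).map
    ⟨fun x => ((ofLex x).1, ofLex (ofLex x).2), by
      intro x y hxy
      have hxy' : ((ofLex x).1, ofLex (ofLex x).2) = ((ofLex y).1, ofLex (ofLex y).2) := hxy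
      rw [Prod.mk.injEq] at hxy'
      apply ofLex.injective
      exact Prod.ext hxy'.1 (ofLex.injective hxy'.2)⟩
  have hG : G.card = (leads A).card := card_map _
  have hS : S.card = (leads T).card := card_map _
  have htri : (S.card : ℝ) ≤ G.card * Real.sqrt G.card := by
    apply card_triangle
    rintro ⟨a, b, c⟩ hx
    obtain ⟨y, hy, hyx⟩ := mem_map.mp hx
    have hy2 : y = mk3 a b c := by
      have hyx' : ((ofLex y).1, ofLex (ofLex y).2) = (a, b, c) := hyx
      rw [Prod.mk.injEq] at hyx'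
      apply ofLex.injective
      exact Prod.ext hyx'.1 (ofLex.injective hyx'.2)
    subst hy2
    obtain ⟨t, ht, hl⟩ := mem_leads.mp hy
    obtain ⟨l1, l2, l3⟩ := lead3 (hT ht) hl
    refine ⟨mem_map.mpr ⟨toLex (a, b), mem_leads.mpr ⟨_, hTA t ht c, l3⟩, rfl⟩,
      mem_map.mpr ⟨toLex (a, c), mem_leads.mpr ⟨_, hTA t ht b, l2⟩, rfl⟩,
      mem_map.mpr ⟨toLex (b, c), mem_leads.mpr ⟨_, hTA t ht a, l1⟩, rfl⟩⟩
  have hGN : (G.card : ℝ) ≤ N := by
    rw [hG]; exact_mod_cast h2
  calc (finrank (ZMod 2) T : ℝ) ≤ (leads T).card := by exact_mod_cast h1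
    _ = S.card := by rw [hS]
    _ ≤ G.card * Real.sqrt G.card := htri
    _ ≤ N * Real.sqrt N := by
        apply mul_le_mul hGN (Real.sqrt_le_sqrt hGN) (Real.sqrt_nonneg _) (Nat.cast_nonneg _)

end Cubic

end Pool.Agent.Work.MP_49e1e0_lc
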