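import Mathlib

/-!
Non-redundancy of Boolean predicates.
-/

namespace Pool.Agent.Work.MP_49e1e0_lc

/-- The assignment `σ` satisfies the clause `C`, a tuple of variables. -/
def Sat {r n : ℕ} (P : Set (Fin r → Bool)) (σ : Fin n → Bool) (C : Fin r → Fin n) : Prop :=
  (fun i => σ (C i)) ∈ P

/-- The instance `I` (a finite set of clauses on `n` variables) is non-redundant: for every clause
some assignment satisfies all other clauses and does not satisfy this one. -/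
def NonRedundant {r n : ℕ} (P : Set (Fin r → Bool)) (I : Finset (Fin r → Fin n)) : Prop :=
  ∀ C ∈ I, ∃ σ : Fin n → Bool, (∀ C' ∈ I, C' ≠ C → Sat P σ C') ∧ ¬ Sat P σ C

/-- The non-redundancy: the largest size of a non-redundant instance on `n` variables. -/
noncomputable def NRD {r : ℕ} (P : Set (Fin r → Bool)) (n : ℕ) : ℕ :=
  sSup {k | ∃ I : Finset (Fin r → Fin n), NonRedundant P I ∧ I.card = k}

/-- `NRD(P, n) = Θ(n^β)`. -/
def IsTheta {r : ℕ} (P : Set (Fin r → Bool)) (β : ℚ) : Prop :=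
  ∃ c C : ℝ, 0 < c ∧ 0 < C ∧ ∃ n₀ : ℕ, ∀ n : ℕ, n₀ ≤ n →
    c * (n : ℝ) ^ (β : ℝ) ≤ (NRD P n : ℝ) ∧ (NRD P n : ℝ) ≤ C * (n : ℝ) ^ (β : ℝ)

/-- The non-zero words of the binary code `(x, y, z, x + y, y + z, x + z)`. -/
def P6 : Set (Fin 6 → Bool) :=
  {c | c 3 = xor (c 0) (c 1) ∧ c 4 = xor (c 1) (c 2) ∧ c 5 = xor (c 0) (c 2) ∧ ∃ i, c i = true}

theorem bddAbove {r : ℕ} (P : Set (Fin r → Bool)) (n : ℕ) :
    BddAbove {k | ∃ I : Finset (Fin r → Fin n), NonRedundant P I ∧ I.card = k} := by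
  refine ⟨Fintype.card (Fin r → Fin n), ?_⟩
  rintro k ⟨I, _, rfl⟩
  exact Finset.card_le_univ I

theorem le_NRD {r n : ℕ} {P : Set (Fin r → Bool)} {I : Finset (Fin r → Fin n)}
    (h : NonRedundant P I) : I.card ≤ NRD P n :=
  le_csSup (bddAbove P n) ⟨I, h, rfl⟩

theorem exists_NRD {r : ℕ} (P : Set (Fin r → Bool)) (n : ℕ) :
    ∃ I : Finset (Fin r → Fin n), NonRedundant P I ∧ I.card = NRD P n := by
  have hne : {k | ∃ I : Finset (Fin r → Fin n), NonRedundant P I ∧ I.card = k}.Nonempty :=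
    ⟨0, ∅, by simp [NonRedundant], rfl⟩
  exact Nat.sSup_mem hne (bddAbove P n)

end Pool.Agent.Work.MP_49e1e0_lc
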