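import Mathlib
import Pool.Agent.Work.MP_49e1e0_lc.Core

/-!
The degrees of the coordinate variables and the dimension bound.
-/

open Finset

namespace Pool.Agent.Work.MP_49e1e0_lc

/-- replace the coordinate `i` by zero -/
def kill {D : ℕ} (i : Fin D) (v : Fin D → ZMod 2) : Fin D → ZMod 2 := Function.update v i 0

theorem kill_self {D : ℕ} (i : Fin D) (v : Fin D → ZMod 2) : kill i v i = 0 := by simp [kill]

theorem kill_ne {D : ℕ} {i j : Fin D} (h : j ≠ i) (v : Fin D → ZMod 2) : kill i v j = v j := by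
  simp [kill, h]

theorem kill_dot {D : ℕ} (i : Fin D) (v τ : Fin D → ZMod 2) (h : τ i = 0) :
    kill i v ⬝ᵥ τ = v ⬝ᵥ τ := by
  unfold dotProduct
  refine Finset.sum_congr rfl fun j _ => ?_
  by_cases hj : j = i
  · subst hj; rw [h, mul_zero, mul_zero]
  · rw [kill_ne hj]

namespace Data

variable {V ι : Type} {D : ℕ} (A : Data V ι D)

/-- the link of the coordinate `i` -/
def R (i : Fin D) : Submodule (ZMod 2) (Fin D → ZMod 2) :=
  Submodule.span (ZMod 2) {v | ∃ t t' : V, A.vec t' = A.vec t + Pi.single i 1 ∧ v = kill i (A.vec t)}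

theorem R_zero {i : Fin D} {v : Fin D → ZMod 2} (h : v ∈ A.R i) : v i = 0 := by
  induction h using Submodule.span_induction with
  | mem x hx =>
    obtain ⟨t, t', _, rfl⟩ := hx
    exact kill_self _ _
  | zero => rfl
  | add x y _ _ hx hy => simp [hx, hy]
  | smul a x _ hx => simp [hx]

/-- the wedge of the unit vector `i` and `v` -/
def wd (i : Fin D) (v : Fin D → ZMod 2) : Fin D × Fin D → ZMod 2 := fun p =>
  (Pi.single i 1 : Fin D → ZMod 2) p.1 * v p.2 + v p.1 * (Pi.single i 1 : Fin D → ZMod 2) p.2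

theorem wd_mem {i : Fin D} {v : Fin D → ZMod 2} (h : v ∈ A.R i) : wd i v ∈ A.T := by
  induction h using Submodule.span_induction with
  | mem x hx =>
    obtain ⟨t, t', ht, rfl⟩ := hx
    have h1 := A.wedge_mem (u := A.b i) (v := t) (w := t') (by rw [ht, A.hb, add_comm])
    convert h1 using 1
    funext p
    simp only [wd, A.hb]
    by_cases h1 : p.1 = i
    · by_cases h2 : p.2 = i
      · have e1 := zmod2_add_self (A.vec t i)
        rw [h1, h2, kill_self, Pi.single_eq_same]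
        simp [e1]
      · rw [h1, kill_self, kill_ne h2, Pi.single_eq_same, Pi.single_eq_of_ne h2]
        simp
    · by_cases h2 : p.2 = i
      · rw [h2, kill_self, kill_ne h1, Pi.single_eq_same, Pi.single_eq_of_ne h1]
        simp
      · rw [kill_ne h1, kill_ne h2]
  | zero =>
    convert A.T.zero_mem using 1
    funext p
    simp [wd]
  | add x y _ _ hx hy =>
    convert A.T.add_mem hx hy using 1
    funext p
    simp only [wd, Pi.add_apply]
    ring
  | smul a x _ hx =>
    convert A.T.smul_mem a hx using 1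
    funext p
    simp only [wd, Pi.smul_apply, smul_eq_mul]
    ring

/-- the leading positions of the link -/
noncomputable def lead (i : Fin D) : Finset (Fin D) := by
  classical exact univ.filter fun j => ∃ v ∈ A.R i, v j ≠ 0 ∧ ∀ k, j < k → v k = 0

theorem mem_lead {i j : Fin D} : j ∈ A.lead i ↔ ∃ v ∈ A.R i, v j ≠ 0 ∧ ∀ k, j < k → v k = 0 := by
  classical
  simp [lead]

theorem finrank_R (i : Fin D) : Module.finrank (ZMod 2) (A.R i) ≤ (A.lead i).card := by
  apply finrank_le_lead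
  intro v hv j hj hk
  exact A.mem_lead.2 ⟨v, hv, hj, hk⟩

theorem lead_L2 {i j : Fin D} (h : j ∈ A.lead i) : (i, j) ∈ A.L2 := by
  obtain ⟨v, hv, hj, hk⟩ := A.mem_lead.1 h
  have hvi := A.R_zero hv
  have hij : i ≠ j := by
    rintro rfl
    exact hj hvi
  rw [mem_L2]
  refine ⟨hij, wd i v, A.wd_mem hv, ?_, ?_⟩
  · simp only [wd, Pi.single_eq_same, one_mul]
    rw [hvi, zero_mul, add_zero]
    exact hj
  · rintro ⟨a, c⟩ hac hlt
    simp only at hac hlt
    simp only [wd]
    have hlt2 : ∀ k : Fin D, 2 ^ (j : ℕ) < 2 ^ (k : ℕ) → v k = 0 := by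
      intro k hk'
      apply hk
      rw [Fin.lt_def]
      exact (Nat.pow_lt_pow_iff_right (by norm_num)).1 hk'
    by_cases ha : a = i
    · subst ha
      rw [hvi, zero_mul, add_zero, hlt2 c (by omega), mul_zero]
    · rw [Pi.single_eq_of_ne ha, zero_mul, zero_add]
      by_cases hc : c = i
      · subst hc
        rw [hlt2 a (by omega), zero_mul]
      · rw [Pi.single_eq_of_ne hc, mul_zero]

theorem sum_lead : ∑ i, (A.lead i).card ≤ A.L2.card := by
  classical
  rw [Finset.card_eq_sum_card_fiberwise (f := fun p : Fin D × Fin D => p.1) (s := A.L2) (t := univ)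
    (fun _ _ => mem_univ _)]
  refine Finset.sum_le_sum fun i _ => ?_
  apply Finset.card_le_card_of_injOn (fun j => (i, j))
  · intro j hj
    simp only [coe_filter, Set.mem_ofPred_eq]
    exact ⟨A.lead_L2 hj, trivial⟩
  · intro j _ j' _ h
    exact (Prod.ext_iff.1 h).2

/-- the combinatorics of the positions -/
theorem link_pos (p : Fin 6) : ∃ q q' : Fin 6, ∃ s s' : Fin 6, ∀ c : Fin 6 → ZMod 2,
    c 3 = c 0 + c 1 → c 4 = c 1 + c 2 → c 5 = c 0 + c 2 →
    c s = c q + c p ∧ c s' = c q' + c p ∧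
    (c p = 0 → ((1 + c q) * (1 + c q') = 1 ↔ ∀ l, c l = 0) ∧
      ((1 + c q) * (1 + c q') = 0 ↔ ¬ ∀ l, c l = 0)) := by
  have key : ∀ (q q' s s' : Fin 6), (∀ a b d : ZMod 2,
      let c : Fin 6 → ZMod 2 := ![a, b, d, a + b, b + d, a + d]
      c s = c q + c p ∧ c s' = c q' + c p ∧
      (c p = 0 → ((1 + c q) * (1 + c q') = 1 ↔ ∀ l, c l = 0) ∧
        ((1 + c q) * (1 + c q') = 0 ↔ ¬ ∀ l, c l = 0))) → 
      ∀ c : Fin 6 → ZMod 2,
      c 3 = c 0 + c 1 → c 4 = c 1 + c 2 → c 5 = c 0 + c 2 →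
      c s = c q + c p ∧ c s' = c q' + c p ∧
      (c p = 0 → ((1 + c q) * (1 + c q') = 1 ↔ ∀ l, c l = 0) ∧
        ((1 + c q) * (1 + c q') = 0 ↔ ¬ ∀ l, c l = 0)) := by
    intro q q' s s' h c h3 h4 h5
    have hc : c = ![c 0, c 1, c 2, c 0 + c 1, c 1 + c 2, c 0 + c 2] := by
      funext l
      fin_cases l <;> simp [h3, h4, h5]
    have := h (c 0) (c 1) (c 2)
    rw [hc]
    exact this
  fin_cases p
  · exact ⟨1, 2, 3, 5, key 1 2 3 5 (by decide)⟩
  · exact ⟨0, 2, 3, 4, key 0 2 3 4 (by decide)⟩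
  · exact ⟨0, 1, 5, 4, key 0 1 5 4 (by decide)⟩
  · exact ⟨0, 5, 1, 4, key 0 5 1 4 (by decide)⟩
  · exact ⟨1, 3, 2, 5, key 1 3 2 5 (by decide)⟩
  · exact ⟨0, 3, 2, 4, key 0 3 2 4 (by decide)⟩

/-- The number of clauses containing the coordinate variable `b i`. -/
theorem card_deg [Fintype ι] [DecidableEq ι] [DecidableEq V] (i : Fin D) :
    (univ.filter fun e : ι => ∃ p, A.x e p = A.b i).card ≤ ((A.lead i).card + 1) ^ 2 := by
  classical
  let J := {e : ι // ∃ p, A.x e p = A.b i}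
  have h1 : ∀ e : J, ∃ y z : A.R i, ∀ e' : J, (1 + y.1 ⬝ᵥ A.τ e'.1) * (1 + z.1 ⬝ᵥ A.τ e'.1) =
      if e = e' then 1 else 0 := by
    rintro ⟨e, p, hp⟩
    obtain ⟨q, q', s, s', h⟩ := link_pos p
    have hvec : A.vec (A.x e s) = A.vec (A.x e q) + A.vec (A.x e p) ∧
        A.vec (A.x e s') = A.vec (A.x e q') + A.vec (A.x e p) := by
      have h2 := fun k => h (fun l => A.vec (A.x e l) k) (congrFun (A.h3 e) k) (congrFun (A.h4 e) k)
        (congrFun (A.h5 e) k)
      exact ⟨funext fun k => (h2 k).1, funext fun k => (h2 k).2.1⟩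
    rw [hp, A.hb] at hvec
    refine ⟨⟨kill i (A.vec (A.x e q)), Submodule.subset_span ⟨_, _, hvec.1, rfl⟩⟩,
      ⟨kill i (A.vec (A.x e q')), Submodule.subset_span ⟨_, _, hvec.2, rfl⟩⟩, ?_⟩
    rintro ⟨e', p', hp'⟩
    have hτ : A.τ e' i = 0 := by
      have h3 := (A.iso e' e').2 rfl p'
      rw [hp', A.hb, single_one_dotProduct] at h3
      exact h3
    simp only
    rw [kill_dot _ _ _ hτ, kill_dot _ _ _ hτ]
    have h4 := h (fun l => A.vec (A.x e l) ⬝ᵥ A.τ e') (by simp only [A.h3, add_dotProduct])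
      (by simp only [A.h4, add_dotProduct]) (by simp only [A.h5, add_dotProduct])
    have h5 := h4.2.2 (by simp only [hp, A.hb, single_one_dotProduct, hτ])
    by_cases hee : e = e'
    · subst hee
      simp only [if_true]
      exact h5.1.2 ((A.iso e e).2 rfl)
    · have : ¬ ((⟨e, p, hp⟩ : J) = ⟨e', p', hp'⟩) := fun h => hee (Subtype.ext_iff.1 h)
      rw [if_neg this]
      exact h5.2.2 fun h => hee ((A.iso e e').1 h)
  choose y z hyz using h1
  have h2 := isolated_products (A.R i) y z (fun e' => A.τ e'.1) hyz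
  have h3 : (univ.filter fun e : ι => ∃ p, A.x e p = A.b i).card = Fintype.card J := by
    rw [Fintype.card_subtype]
  rw [h3]
  exact h2.trans (Nat.pow_le_pow_left (Nat.add_le_add_right (A.finrank_R i) 1) 2)

end Data

end Pool.Agent.Work.MP_49e1e0_lc
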