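import Mathlib
import Pool.Agent.Work.MP_49e1e0_lc.Degree

/-!
The number of clauses is bounded by the number of leading triples and the square of the rank.
-/

open Finset

namespace Pool.Agent.Work.MP_49e1e0_lc

namespace Data

variable {V ι : Type} {D : ℕ} (A : Data V ι D)

/-- the indicator function of the annihilator of a clause -/
def F (e : ι) (τ : Fin D → ZMod 2) : ZMod 2 :=
  (1 + A.vec (A.x e 0) ⬝ᵥ τ) * (1 + A.vec (A.x e 1) ⬝ᵥ τ) * (1 + A.vec (A.x e 2) ⬝ᵥ τ)

theorem F_eq [DecidableEq ι] (e e' : ι) : A.F e (A.τ e') = if e = e' then 1 else 0 := by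
  have key : ∀ a b d : ZMod 2, ((1 + a) * (1 + b) * (1 + d) = if a = 0 ∧ b = 0 ∧ d = 0 then 1 else 0) := by
    decide
  unfold F
  rw [key]
  have h : (A.vec (A.x e 0) ⬝ᵥ A.τ e' = 0 ∧ A.vec (A.x e 1) ⬝ᵥ A.τ e' = 0 ∧
      A.vec (A.x e 2) ⬝ᵥ A.τ e' = 0) ↔ e = e' := by
    rw [← A.iso e e']
    constructor
    · rintro ⟨h0, h1, h2⟩ p
      fin_cases p
      · exact h0
      · exact h1
      · exact h2
      · show A.vec (A.x e 3) ⬝ᵥ A.τ e' = 0
        rw [A.h3, add_dotProduct, h0, h1, add_zero]
      · show A.vec (A.x e 4) ⬝ᵥ A.τ e' = 0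
        rw [A.h4, add_dotProduct, h1, h2, add_zero]
      · show A.vec (A.x e 5) ⬝ᵥ A.τ e' = 0
        rw [A.h5, add_dotProduct, h0, h2, add_zero]
    · intro h
      exact ⟨h 0, h 1, h 2⟩
  by_cases hee : e = e'
  · rw [if_pos (h.2 hee), if_pos hee]
  · rw [if_neg (fun hh => hee (h.1 hh)), if_neg hee]

variable [Fintype ι]

/-- combination of the indicator functions -/
def G (c : ι → ZMod 2) (τ : Fin D → ZMod 2) : ZMod 2 := ∑ e, c e * A.F e τ

theorem G_τ [DecidableEq ι] (c : ι → ZMod 2) (e : ι) : A.G c (A.τ e) = c e := by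
  unfold G
  simp only [F_eq, mul_ite, mul_one, mul_zero, Finset.sum_ite_eq', mem_univ, if_true]

theorem third_aux (xi yi zi xj yj zj xd yd zd : ZMod 2) :
    (1 + (xi + xj + xd)) * (1 + (yi + yj + yd)) * (1 + (zi + zj + zd)) +
    (1 + (xi + xj)) * (1 + (yi + yj)) * (1 + (zi + zj)) +
    (1 + (xj + xd)) * (1 + (yj + yd)) * (1 + (zj + zd)) +
    (1 + (xi + xd)) * (1 + (yi + yd)) * (1 + (zi + zd)) +
    (1 + xi) * (1 + yi) * (1 + zi) + (1 + xj) * (1 + yj) * (1 + zj) +
    (1 + xd) * (1 + yd) * (1 + zd) + 1 =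
    xi * (yj * zd + zj * yd) + yi * (xj * zd + zj * xd) + zi * (xj * yd + yj * xd) := by
  have h2 : (2 : ZMod 2) = 0 := rfl
  linear_combination (4 + 2 * xi + 2 * yi + 2 * zi + 2 * xj + 2 * yj + 2 * zj + 2 * xd + 2 * yd + 2 * zd + xi * yi
    * 2 + xi * yi * zi * 2 + xi * yi * zj + xi * yi * zd + xi * yj + xi * yj * zi + xi * yj * zj
    + xi * yd + xi * yd * zi + xi * yd * zd + xi * zi * 2 + xi * zj + xi * zd + xj * yi + xj *
    yi * zi + xj * yi * zj + xj * yj * 2 + xj * yj * zi + xj * yj * zj * 2 + xj * yj * zd + xj *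
    yd + xj * yd * zj + xj * yd * zd + xj * zi + xj * zj * 2 + xj * zd + xd * yi + xd * yi * zi
    + xd * yi * zd + xd * yj + xd * yj * zj + xd * yj * zd + xd * yd * 2 + xd * yd * zi + xd *
    yd * zj + xd * yd * zd * 2 + xd * zi + xd * zj + xd * zd * 2 + yi * zi * 2 + yi * zj + yi *
    zd + yj * zi + yj * zj * 2 + yj * zd + yd * zi + yd * zj + yd * zd * 2) * h2

theorem G_third (c : ι → ZMod 2) (i j : Fin D) (d : Fin D → ZMod 2) :
    A.G c (Pi.single i 1 + Pi.single j 1 + d) + A.G c (Pi.single i 1 + Pi.single j 1) +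
    A.G c (Pi.single j 1 + d) + A.G c (Pi.single i 1 + d) + A.G c (Pi.single i 1) +
    A.G c (Pi.single j 1) + A.G c d + A.G c 0 = ∑ k, d k * A.tri c i j k := by
  have h1 : ∑ k, d k * A.tri c i j k = ∑ e, c e * ∑ k, d k * A.det e i j k := by
    simp only [tri, Finset.mul_sum]
    rw [Finset.sum_comm]
    refine Finset.sum_congr rfl fun e _ => Finset.sum_congr rfl fun k _ => ?_
    ring
  have h2 : ∀ e, ∑ k, d k * A.det e i j k =
      A.vec (A.x e 0) i * (A.vec (A.x e 1) j * (A.vec (A.x e 2) ⬝ᵥ d) +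
        A.vec (A.x e 2) j * (A.vec (A.x e 1) ⬝ᵥ d)) +
      A.vec (A.x e 1) i * (A.vec (A.x e 0) j * (A.vec (A.x e 2) ⬝ᵥ d) +
        A.vec (A.x e 2) j * (A.vec (A.x e 0) ⬝ᵥ d)) +
      A.vec (A.x e 2) i * (A.vec (A.x e 0) j * (A.vec (A.x e 1) ⬝ᵥ d) +
        A.vec (A.x e 1) j * (A.vec (A.x e 0) ⬝ᵥ d)) := by
    intro e
    simp only [dotProduct, Finset.mul_sum, ← Finset.sum_add_distrib]
    refine Finset.sum_congr rfl fun k _ => ?_
    unfold det
    ring
  rw [h1]
  simp only [h2, G, ← Finset.sum_add_distrib]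
  refine Finset.sum_congr rfl fun e _ => ?_
  rw [← third_aux]
  simp only [F, dotProduct_add, dotProduct_single_one, dotProduct_zero, add_zero, mul_one]
  ring

/-- the indicator vector of a set of coordinates -/
def chi (s : Finset (Fin D)) : Fin D → ZMod 2 := ∑ i ∈ s, Pi.single i 1

omit [Fintype ι] in
theorem exists_chi (τ : Fin D → ZMod 2) : ∃ s : Finset (Fin D), τ = chi s := by
  classical
  refine ⟨univ.filter fun i => τ i ≠ 0, ?_⟩
  funext j
  simp only [chi, Finset.sum_apply, Finset.sum_filter]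
  rw [Finset.sum_eq_single j]
  · by_cases h : τ j ≠ 0
    · rw [if_pos h, Pi.single_eq_same]
      exact zmod2_eq_one h
    · rw [if_neg h]
      simpa using h
  · intro i _ hij
    by_cases h : τ i ≠ 0
    · rw [if_pos h, Pi.single_eq_of_ne (Ne.symm hij)]
    · rw [if_neg h]
  · simp

theorem G_zero (c : ι → ZMod 2) (ht : ∀ i j k, A.tri c i j k = 0) (h0 : A.G c 0 = 0)
    (h1 : ∀ i, A.G c (Pi.single i 1) = 0) (h2 : ∀ i j, A.G c (Pi.single i 1 + Pi.single j 1) = 0)
    (s : Finset (Fin D)) : A.G c (chi s) = 0 := by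
  classical
  induction s using Finset.strongInduction with
  | H s ih =>
    by_cases hs0 : s = ∅
    · subst hs0
      simpa [chi] using h0
    obtain ⟨i, hi⟩ := Finset.nonempty_iff_ne_empty.2 hs0
    by_cases hs1 : s.erase i = ∅
    · have : s = {i} := by
        apply Finset.Subset.antisymm
        · intro k hk
          by_contra hki
          rw [Finset.mem_singleton] at hki
          have : k ∈ s.erase i := Finset.mem_erase.2 ⟨hki, hk⟩
          rw [hs1] at this
          exact absurd this (Finset.notMem_empty _)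
        · simpa using hi
      rw [this]
      simpa [chi] using h1 i
    obtain ⟨j, hj⟩ := Finset.nonempty_iff_ne_empty.2 hs1
    set s' := (s.erase i).erase j with hs'
    have hj' : j ∉ s' := Finset.notMem_erase _ _
    have hi' : i ∉ s' := fun h => Finset.notMem_erase i s (Finset.mem_of_mem_erase h)
    have hij : i ≠ j := by
      rintro rfl
      exact Finset.notMem_erase _ _ hj
    have e1 : s = insert i (insert j s') := by
      rw [hs', Finset.insert_erase hj, Finset.insert_erase hi]
    have c1 : chi s = Pi.single i 1 + Pi.single j 1 + chi s' := by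
      rw [e1]
      unfold chi
      rw [Finset.sum_insert (by simp [hij, hi']), Finset.sum_insert hj', add_assoc]
    have c2 : chi (insert j s') = Pi.single j 1 + chi s' := by
      unfold chi
      rw [Finset.sum_insert hj']
    have c3 : chi (insert i s') = Pi.single i 1 + chi s' := by
      unfold chi
      rw [Finset.sum_insert hi']
    have g1 : A.G c (chi (insert j s')) = 0 := by
      apply ih
      rw [e1]
      exact Finset.ssubset_insert (by simp [hij, hi'])
    have g2 : A.G c (chi (insert i s')) = 0 := by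
      apply ih
      rw [e1, Finset.insert_comm]
      exact Finset.ssubset_insert (by simp [Ne.symm hij, hj'])
    have g3 : A.G c (chi s') = 0 := by
      apply ih
      rw [e1]
      exact (Finset.subset_insert _ _).trans_ssubset (Finset.ssubset_insert (by simp [hij, hi']))
    have hthird := A.G_third c i j (chi s')
    rw [← c1, ← c2, ← c3, g1, g2, g3, h0, h1, h1, h2] at hthird
    simp only [ht, mul_zero, Finset.sum_const_zero, add_zero] at hthird
    exact hthird

/-- unit vectors and zero -/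
def pt : Option (Fin D) → Fin D → ZMod 2
  | none => 0
  | some i => Pi.single i 1

theorem card_le [DecidableEq ι] : Fintype.card ι ≤ A.L3.card + (D + 1) ^ 2 := by
  classical
  let Φ : (ι → ZMod 2) →ₗ[ZMod 2] (A.L3 → ZMod 2) × (Option (Fin D) × Option (Fin D) → ZMod 2) :=
    { toFun := fun c => (fun t => A.tri c t.1.1 t.1.2.1 t.1.2.2, fun o => A.G c (pt o.1 + pt o.2))
      map_add' := fun c c' => by
        refine Prod.ext (funext fun t => ?_) (funext fun o => ?_)
        · simp only [tri, Pi.add_apply, add_mul, Finset.sum_add_distrib, Prod.fst_add]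
        · simp only [G, Pi.add_apply, add_mul, Finset.sum_add_distrib, Prod.snd_add]
      map_smul' := fun a c => by
        refine Prod.ext (funext fun t => ?_) (funext fun o => ?_)
        · simp only [tri, Pi.smul_apply, smul_eq_mul, mul_assoc, Finset.mul_sum, Prod.smul_fst,
            RingHom.id_apply]
        · simp only [G, Pi.smul_apply, smul_eq_mul, mul_assoc, Finset.mul_sum, Prod.smul_snd,
            RingHom.id_apply] }
  have hΦ : Function.Injective Φ := by
    rw [← LinearMap.ker_eq_bot, LinearMap.ker_eq_bot']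
    intro c hc
    have hc1 : ∀ t : A.L3, A.tri c t.1.1 t.1.2.1 t.1.2.2 = 0 := fun t =>
      congrFun (congrArg Prod.fst hc) t
    have hc2 : ∀ o : Option (Fin D) × Option (Fin D), A.G c (pt o.1 + pt o.2) = 0 := fun o =>
      congrFun (congrArg Prod.snd hc) o
    have ht : ∀ i j k, A.tri c i j k = 0 := by
      by_contra hcon
      push Not at hcon
      obtain ⟨i, j, k, hne⟩ := hcon
      obtain ⟨t, ht, hmax⟩ := Finset.exists_max_image
        (univ.filter fun t : Fin D × Fin D × Fin D => A.tri c t.1 t.2.1 t.2.2 ≠ 0)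
        (fun t => 2 ^ (t.1 : ℕ) + 2 ^ (t.2.1 : ℕ) + 2 ^ (t.2.2 : ℕ)) ⟨(i, j, k), by simp [hne]⟩
      simp only [mem_filter, mem_univ, true_and] at ht hmax
      have hmem : t ∈ A.L3 := by
        rw [mem_L3]
        refine ⟨c, ht, ?_⟩
        intro i' j' k' hlt
        by_contra hne'
        exact absurd (hmax (i', j', k') hne') (not_le.2 hlt)
      exact ht (hc1 ⟨t, hmem⟩)
    have h0 : A.G c 0 = 0 := by simpa [pt] using hc2 (none, none)
    have h1 : ∀ i, A.G c (Pi.single i 1) = 0 := fun i => by simpa [pt] using hc2 (none, some i)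
    have h2 : ∀ i j, A.G c (Pi.single i 1 + Pi.single j 1) = 0 := fun i j => by
      simpa [pt] using hc2 (some i, some j)
    funext e
    rw [← A.G_τ c e]
    obtain ⟨s, hs⟩ := exists_chi (A.τ e)
    rw [hs]
    exact A.G_zero c ht h0 h1 h2 s
  have h := LinearMap.finrank_le_finrank_of_injective hΦ
  rw [Module.finrank_prod, Module.finrank_fintype_fun_eq_card, Module.finrank_fintype_fun_eq_card,
    Module.finrank_fintype_fun_eq_card, Fintype.card_prod, Fintype.card_option, Fintype.card_fin,
    Fintype.card_coe] at h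
  rw [sq]
  exact h

end Data

end Pool.Agent.Work.MP_49e1e0_lc
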