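import Pool.Agent.Work.MP_49e1e0_lc.Wrap

set_option autoImplicit false
set_option linter.unusedSectionVars false
set_option linter.deprecated false

namespace Pool.Agent.Work.MP_49e1e0_lc

open Finset Module

variable {Ω : Type*} [Fintype Ω] [DecidableEq Ω]

/-- `E` is a set of clauses (and of rows); clause `f` has four vectors, whose pairwise sums lie
in `Z`; in row `e` the four values of clause `f` agree exactly when `e = f`. -/
structure Good (v : Ω → Fin 4 → Ω → ZMod 2) (E : Finset Ω) (Z : Finset (Ω → ZMod 2)) : Prop where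
  iso : ∀ e ∈ E, ∀ f ∈ E, (∀ i j, v f i e = v f j e) ↔ e = f
  pts : ∀ f ∈ E, ∀ i j, i ≠ j → v f i + v f j ∈ Z

lemma Good.mono {v : Ω → Fin 4 → Ω → ZMod 2} {E E' : Finset Ω} {Z : Finset (Ω → ZMod 2)}
    (h : Good v E Z) (hE : E' ⊆ E) : Good v E' Z :=
  ⟨fun e he f hf => h.iso e (hE he) f (hE hf), fun f hf => h.pts f (hE hf)⟩

lemma others : ∀ i j : Fin 4, i ≠ j → ∃ l m : Fin 4, l ≠ m ∧ l ≠ i ∧ l ≠ j ∧ m ≠ i ∧ m ≠ j ∧
    ∀ x, x = i ∨ x = j ∨ x = l ∨ x = m := by decide

lemma fadd_self (x : Ω → ZMod 2) : x + x = 0 := by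
  funext e; exact zmod2_add_self _

lemma tri_add (a b c : Ω → ZMod 2) : (a + b) + (a + c) = b + c := by
  have := fadd_self a
  calc (a + b) + (a + c) = (a + a) + (b + c) := by abel
    _ = b + c := by rw [this, zero_add]

lemma star_det {v : Ω → Fin 4 → Ω → ZMod 2} {E : Finset Ω} {Z : Finset (Ω → ZMod 2)}
    (hG : Good v E Z) {f f' : Ω} (hf : f ∈ E) (hf' : f' ∈ E) (j : Fin 4)
    (h : ∀ k, k ≠ j → v f j + v f k = v f' j + v f' k) : f = f' := by
  apply (hG.iso f hf f' hf').mp
  have h0 : ∀ k, v f' j f = v f' k f := by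
    intro k
    by_cases hk : k = j
    · rw [hk]
    · have h1 := congrFun (h k hk) f
      simp only [Pi.add_apply] at h1
      rw [((hG.iso f hf f hf).mpr rfl) j k, zmod2_add_self] at h1
      have : ∀ x y : ZMod 2, 0 = x + y → x = y := by decide
      exact this _ _ h1
  intro i k
  rw [← h0 i, ← h0 k]

/-- sign character -/
def sgn (x : ZMod 2) : ℤ := if x = 0 then 1 else -1

lemma sgn_identity : ∀ a b c d : ZMod 2,
    1 + sgn (a + b) + sgn (a + c) + sgn (a + d) + sgn (b + c) + sgn (b + d) + sgn (c + d) +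
      sgn (a + b + c + d) = if a = b ∧ a = c ∧ a = d then 8 else 0 := by decide

/-- the sum of the four vectors -/
def ss (v : Ω → Fin 4 → Ω → ZMod 2) (f : Ω) : Ω → ZMod 2 := v f 0 + v f 1 + v f 2 + v f 3

theorem card_le_ss {v : Ω → Fin 4 → Ω → ZMod 2} {E : Finset Ω} {Z : Finset (Ω → ZMod 2)}
    (hG : Good v E Z) : E.card ≤ 1 + Z.card + (E.image (ss v)).card := by
  classical
  let χ : (Ω → ZMod 2) → (E → ℚ) := fun w e => ((sgn (w e) : ℤ) : ℚ)
  let B : Finset (E → ℚ) := insert (χ 0) ((Z ∪ E.image (ss v)).image χ)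
  have hspan : Submodule.span ℚ (B : Set (E → ℚ)) = ⊤ := by
    rw [eq_top_iff]
    intro g _
    have hmem : ∀ f : E, (Pi.single f (8 : ℚ) : E → ℚ) ∈ Submodule.span ℚ (B : Set (E → ℚ)) := by
      intro f
      have hw : ∀ i j, i ≠ j → χ (v f i + v f j) ∈ Submodule.span ℚ (B : Set (E → ℚ)) := by
        intro i j hij
        apply Submodule.subset_span
        apply mem_coe.mpr
        apply mem_insert_of_mem
        exact mem_image_of_mem _ (mem_union_left _ (hG.pts f f.2 i j hij))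
      have hs : χ (ss v f) ∈ Submodule.span ℚ (B : Set (E → ℚ)) := by
        apply Submodule.subset_span
        apply mem_coe.mpr
        apply mem_insert_of_mem
        exact mem_image_of_mem _ (mem_union_right _ (mem_image_of_mem _ f.2))
      have h0 : χ 0 ∈ Submodule.span ℚ (B : Set (E → ℚ)) :=
        Submodule.subset_span (mem_coe.mpr (mem_insert_self _ _))
      have heq : (Pi.single f (8 : ℚ) : E → ℚ) = χ 0 + χ (v f 0 + v f 1) + χ (v f 0 + v f 2) +
          χ (v f 0 + v f 3) + χ (v f 1 + v f 2) + χ (v f 1 + v f 3) + χ (v f 2 + v f 3) +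
          χ (ss v f) := by
        funext e
        have h1 := sgn_identity (v f 0 e) (v f 1 e) (v f 2 e) (v f 3 e)
        have h2 : (χ 0 + χ (v f 0 + v f 1) + χ (v f 0 + v f 2) +
          χ (v f 0 + v f 3) + χ (v f 1 + v f 2) + χ (v f 1 + v f 3) + χ (v f 2 + v f 3) +
          χ (ss v f)) e = ((if v f 0 e = v f 1 e ∧ v f 0 e = v f 2 e ∧ v f 0 e = v f 3 e
            then 8 else 0 : ℤ) : ℚ) := by
          rw [← h1]
          simp only [Pi.add_apply, χ, ss, Pi.zero_apply]
          push_cast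
          simp [sgn]
        rw [h2]
        by_cases hef : e = f
        · subst hef
          have h3 := (hG.iso e e.2 e e.2).mpr rfl
          rw [if_pos ⟨h3 0 1, h3 0 2, h3 0 3⟩]
          simp
        · have h4 : ¬ (v f 0 e = v f 1 e ∧ v f 0 e = v f 2 e ∧ v f 0 e = v f 3 e) := by
            rintro ⟨a1, a2, a3⟩
            apply hef
            apply Subtype.ext
            apply (hG.iso e e.2 f f.2).mp
            have a : ∀ i, v f i e = v f 0 e := by
              intro i
              fin_cases i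
              · rfl
              · exact a1.symm
              · exact a2.symm
              · exact a3.symm
            intro i j
            rw [a i, a j]
          rw [if_neg h4]
          simp [Pi.single_apply, hef]
      rw [heq]
      have S := Submodule.span ℚ (B : Set (E → ℚ))
      refine Submodule.add_mem _ (Submodule.add_mem _ (Submodule.add_mem _ (Submodule.add_mem _
        (Submodule.add_mem _ (Submodule.add_mem _ (Submodule.add_mem _ h0 ?_) ?_) ?_) ?_) ?_) ?_) hs
      all_goals exact hw _ _ (by decide)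
    have hg : g = ∑ f : E, (g f / 8) • (Pi.single f (8 : ℚ) : E → ℚ) := by
      funext e
      rw [Finset.sum_apply, Finset.sum_eq_single e]
      · simp
      · intro b _ hb
        simp [Pi.single_apply, hb.symm]
      · intro h; exact absurd (mem_univ _) h
    rw [hg]
    exact Submodule.sum_mem _ fun f _ => Submodule.smul_mem _ _ (hmem f)
  have h1 : finrank ℚ (Submodule.span ℚ (B : Set (E → ℚ))) ≤ B.card :=
    finrank_span_finset_le_card B
  rw [hspan, finrank_top, finrank_fintype_fun_eq_card, Fintype.card_coe] at h1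
  have h2 : B.card ≤ (Z.card + (E.image (ss v)).card) + 1 :=
    (card_insert_le _ _).trans (Nat.add_le_add_right
      (card_image_le.trans (card_union_le _ _)) 1)
  omega

/-- number of clauses with a given element in a given position -/
lemma link_count {v : Ω → Fin 4 → Ω → ZMod 2} {E : Finset Ω} {Z : Finset (Ω → ZMod 2)}
    (hG : Good v E Z) (i j : Fin 4) (hij : i ≠ j) (z : Ω → ZMod 2) :
    (E.filter fun f => v f i + v f j = z).card ≤ ell Z z * ell Z z := by
  obtain ⟨l, m, hlm, hli, hlj, hmi, hmj, hall⟩ := others i j hij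
  have : (E.filter fun f => v f i + v f j = z).card ≤
      ((Z.filter fun y => y + z ∈ Z) ×ˢ (Z.filter fun y => y + z ∈ Z)).card := by
    apply card_le_card_of_injOn (fun f => (v f i + v f l, v f i + v f m))
    · intro f hf
      obtain ⟨hfE, hfz⟩ := mem_filter.mp (mem_coe.mp hf)
      apply mem_coe.mpr
      rw [mem_product, mem_filter, mem_filter]
      refine ⟨⟨hG.pts f hfE i l hli.symm, ?_⟩, ⟨hG.pts f hfE i m hmi.symm, ?_⟩⟩
      · rw [← hfz, tri_add]; exact hG.pts f hfE l j hlj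
      · rw [← hfz, tri_add]; exact hG.pts f hfE m j hmj
    · intro f hf f' hf' hff
      obtain ⟨hfE, hfz⟩ := mem_filter.mp (mem_coe.mp hf)
      obtain ⟨hfE', hfz'⟩ := mem_filter.mp (mem_coe.mp hf')
      simp only [Prod.mk.injEq] at hff
      apply star_det hG hfE hfE' i
      intro k hk
      rcases hall k with h | h | h | h
      · exact absurd h hk
      · rw [h, hfz, hfz']
      · rw [h]; exact hff.1
      · rw [h]; exact hff.2
  rwa [card_product] at this

/-- clauses with an element having few partners -/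
theorem small_count {v : Ω → Fin 4 → Ω → ZMod 2} {E : Finset Ω} {Z : Finset (Ω → ZMod 2)}
    (hG : Good v E Z) (L : ℝ) (hL : 0 ≤ L)
    (hE : ∀ f ∈ E, ∃ i j, i ≠ j ∧ (ell Z (v f i + v f j) : ℝ) ≤ L) :
    (E.card : ℝ) ≤ 16 * (Z.card * L ^ 2) := by
  classical
  let P : Finset (Fin 4 × Fin 4) := univ.filter fun x => x.1 ≠ x.2
  have hP : (P.card : ℝ) ≤ 16 := by
    have : P.card ≤ 16 := by decide
    exact_mod_cast this
  have hsub : E ⊆ P.biUnion fun x => (Z.filter fun z => (ell Z z : ℝ) ≤ L).biUnion fun z =>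
      E.filter fun f => v f x.1 + v f x.2 = z := by
    intro f hf
    obtain ⟨i, j, hij, hl⟩ := hE f hf
    rw [mem_biUnion]
    refine ⟨(i, j), by simp [P, hij], ?_⟩
    rw [mem_biUnion]
    exact ⟨v f i + v f j, mem_filter.mpr ⟨hG.pts f hf i j hij, hl⟩, mem_filter.mpr ⟨hf, rfl⟩⟩
  have h1 : E.card ≤ ∑ x ∈ P, ∑ z ∈ Z.filter (fun z => (ell Z z : ℝ) ≤ L),
      (E.filter fun f => v f x.1 + v f x.2 = z).card :=
    (card_le_card hsub).trans (card_biUnion_le.trans (sum_le_sum fun x _ => card_biUnion_le))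
  have h2 : (E.card : ℝ) ≤ ∑ x ∈ P, ∑ z ∈ Z.filter (fun z => (ell Z z : ℝ) ≤ L),
      ((E.filter fun f => v f x.1 + v f x.2 = z).card : ℝ) := by exact_mod_cast h1
  have h3 : ∀ x ∈ P, ∀ z ∈ Z.filter (fun z => (ell Z z : ℝ) ≤ L),
      ((E.filter fun f => v f x.1 + v f x.2 = z).card : ℝ) ≤ L ^ 2 := by
    intro x hx z hz
    have hx' : x.1 ≠ x.2 := by simpa [P] using hx
    have hz' := (mem_filter.mp hz).2
    have h4 := link_count hG x.1 x.2 hx' z
    calc ((E.filter fun f => v f x.1 + v f x.2 = z).card : ℝ) ≤ (ell Z z : ℝ) * ell Z z := by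
          exact_mod_cast h4
      _ ≤ L * L := mul_le_mul hz' hz' (Nat.cast_nonneg _) hL
      _ = L ^ 2 := by ring
  calc (E.card : ℝ) ≤ ∑ x ∈ P, ∑ z ∈ Z.filter (fun z => (ell Z z : ℝ) ≤ L),
      ((E.filter fun f => v f x.1 + v f x.2 = z).card : ℝ) := h2
    _ ≤ ∑ x ∈ P, ∑ z ∈ Z.filter (fun z => (ell Z z : ℝ) ≤ L), L ^ 2 :=
        sum_le_sum fun x hx => sum_le_sum fun z hz => h3 x hx z hz
    _ = P.card * ((Z.filter fun z => (ell Z z : ℝ) ≤ L).card * L ^ 2) := by
        rw [sum_const, sum_const, nsmul_eq_mul, nsmul_eq_mul]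
    _ ≤ 16 * (Z.card * L ^ 2) := by
        have h5 : ((Z.filter fun z => (ell Z z : ℝ) ≤ L).card : ℝ) ≤ Z.card := by
          exact_mod_cast card_filter_le _ _
        have h6 : ((Z.filter fun z => (ell Z z : ℝ) ≤ L).card : ℝ) * L ^ 2 ≤ Z.card * L ^ 2 :=
          mul_le_mul_of_nonneg_right h5 (by positivity)
        exact mul_le_mul hP h6 (by positivity) (by norm_num)

/-- clauses all of whose elements have at least `L` partners and one of whose elements has at
least `T` partners -/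
theorem high_bound {v : Ω → Fin 4 → Ω → ZMod 2} {E : Finset Ω} {Z : Finset (Ω → ZMod 2)}
    (hG : Good v E Z) (L T : ℝ) (hL : 0 < L) (hLT : L ≤ T)
    (hE1 : ∀ f ∈ E, ∀ i j, i ≠ j → L ≤ (ell Z (v f i + v f j) : ℝ))
    (hE2 : ∀ f ∈ E, ∃ i j, i ≠ j ∧ T ≤ (ell Z (v f i + v f j) : ℝ)) :
    (E.card : ℝ) ≤ Z.card * Real.sqrt Z.card + Z.card +
      (Z.card * Real.logb 2 Z.card / L + 1) +
      (Z.card * Real.logb 2 Z.card / T) * (Z.card * Real.logb 2 Z.card / L) := by
  classical
  let Z1 : Finset (Ω → ZMod 2) := Z.filter fun z => L ≤ (ell Z z : ℝ)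
  let H : Finset (Ω → ZMod 2) := Z.filter fun z => T ≤ (ell Z z : ℝ)
  have hT : 0 < T := lt_of_lt_of_le hL hLT
  obtain ⟨Ih, -, hIhH, hIhli, hIhs, hIhc⟩ := finrank_high Z H ∅ T hT
    (fun z hz => (mem_filter.mp hz).2) (empty_subset _) (by simp)
  have hHZ1 : H ⊆ Z1 := by
    intro z hz
    obtain ⟨h1, h2⟩ := mem_filter.mp hz
    exact mem_filter.mpr ⟨h1, hLT.trans h2⟩
  obtain ⟨I, hIhI, hIZ1, hIli, hIs, hIc⟩ := finrank_high Z Z1 Ih L hL
    (fun z hz => (mem_filter.mp hz).2) (hIhH.trans hHZ1) hIhli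
  have hch : ∀ f : Ω, ∃ i j l m : Fin 4, f ∈ E → (i ≠ j ∧ l ≠ m ∧ l ≠ i ∧ l ≠ j ∧ m ≠ i ∧
      m ≠ j ∧ (∀ x, x = i ∨ x = j ∨ x = l ∨ x = m) ∧ T ≤ (ell Z (v f i + v f j) : ℝ)) := by
    intro f
    by_cases hf : f ∈ E
    · obtain ⟨i, j, hij, ht⟩ := hE2 f hf
      obtain ⟨l, m, h1, h2, h3, h4, h5, h6⟩ := others i j hij
      exact ⟨i, j, l, m, fun _ => ⟨hij, h1, h2, h3, h4, h5, h6, ht⟩⟩
    · exact ⟨0, 0, 0, 0, fun h => absurd h hf⟩
  choose i j l m hc using hch
  have hmem : ∀ f ∈ E, ∀ a b, a ≠ b → v f a + v f b ∈ Z1 := fun f hf a b hab =>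
    mem_filter.mpr ⟨hG.pts f hf a b hab, hE1 f hf a b hab⟩
  have key := rank_bound_vec E I Ih Z1 hIhI hIli hIs
    (fun f => v f (i f) + v f (j f)) (fun f => v f (i f) + v f (l f))
    (fun f => v f (i f) + v f (m f))
    (by
      intro f hf
      obtain ⟨h1, _, _, _, _, _, _, h8⟩ := hc f hf
      exact hIhs _ (mem_filter.mpr ⟨hG.pts f hf _ _ h1, h8⟩))
    (by
      intro f hf
      obtain ⟨h1, h2, h3, h4, h5, h6, _, _⟩ := hc f hf
      refine ⟨hmem f hf _ _ h1, hmem f hf _ _ h3.symm, hmem f hf _ _ h5.symm, ?_, ?_, ?_⟩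
      · rw [tri_add]; exact hmem f hf _ _ h4.symm
      · rw [tri_add]; exact hmem f hf _ _ h6.symm
      · rw [tri_add]; exact hmem f hf _ _ h2)
    (by
      intro e he f hf
      obtain ⟨_, _, _, _, _, _, h7, _⟩ := hc f hf
      have hz : ∀ a b c d : ZMod 2, (1 + (a + b)) * (1 + (a + c)) * (1 + (a + d)) =
          if b = a ∧ c = a ∧ d = a then 1 else 0 := by decide
      simp only [Pi.add_apply]
      rw [hz]
      by_cases hef : e = f
      · have h3 := (hG.iso e he f hf).mpr hef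
        rw [if_pos ⟨h3 _ _, h3 _ _, h3 _ _⟩, if_pos hef]
      · rw [if_neg hef, if_neg]
        rintro ⟨a1, a2, a3⟩
        apply hef
        apply (hG.iso e he f hf).mp
        have a : ∀ x, v f x e = v f (i f) e := by
          intro x
          rcases h7 x with h | h | h | h
          · rw [h]
          · rw [h]; exact a1
          · rw [h]; exact a2
          · rw [h]; exact a3
        intro x y
        rw [a x, a y])
  have hZ1c : (Z1.card : ℝ) ≤ Z.card := by exact_mod_cast card_filter_le _ _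
  have h1 : (Z1.card : ℝ) * Real.sqrt Z1.card ≤ Z.card * Real.sqrt Z.card :=
    mul_le_mul hZ1c (Real.sqrt_le_sqrt hZ1c) (Real.sqrt_nonneg _) (Nat.cast_nonneg _)
  have h2 : (Ih.card : ℝ) * I.card ≤
      (Z.card * Real.logb 2 Z.card / T) * (Z.card * Real.logb 2 Z.card / L) := by
    apply mul_le_mul hIhc hIc (Nat.cast_nonneg _)
    exact le_trans (Nat.cast_nonneg _) hIhc
  linarith

end Pool.Agent.Work.MP_49e1e0_lc
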