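import Mathlib

set_option autoImplicit false

namespace Pool.Agent.Work.MP_49e1e0_lc

open Finset Module

section Lead

variable {α : Type*} [Fintype α] [LinearOrder α]

/-- `x` is the leading position of `t`. -/
def IsLead (t : α → ZMod 2) (x : α) : Prop := t x ≠ 0 ∧ ∀ y, x < y → t y = 0

open Classical in
/-- the leading positions of the nonzero elements of a subspace -/
noncomputable def leads (T : Submodule (ZMod 2) (α → ZMod 2)) : Finset α :=
  univ.filter fun x => ∃ t ∈ T, IsLead t x

lemma mem_leads {T : Submodule (ZMod 2) (α → ZMod 2)} {x : α} :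
    x ∈ leads T ↔ ∃ t ∈ T, IsLead t x := by
  classical
  simp [leads]

lemma exists_isLead {t : α → ZMod 2} (ht : t ≠ 0) : ∃ x, IsLead t x := by
  classical
  have hne : (univ.filter fun x => t x ≠ 0).Nonempty := by
    by_contra h
    rw [not_nonempty_iff_eq_empty, filter_eq_empty_iff] at h
    apply ht
    funext x
    have := h (mem_univ x)
    simpa using this
  refine ⟨(univ.filter fun x => t x ≠ 0).max' hne, ?_, ?_⟩
  · have := max'_mem _ hne
    simpa using (mem_filter.mp this).2
  · intro y hy
    by_contra h
    have hy2 : y ∈ univ.filter fun x => t x ≠ 0 := by simp [h]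
    exact absurd hy (not_lt.mpr (le_max' _ y hy2))

lemma finrank_le_card_leads (T : Submodule (ZMod 2) (α → ZMod 2)) :
    finrank (ZMod 2) T ≤ (leads T).card := by
  classical
  let r : T →ₗ[ZMod 2] (leads T → ZMod 2) :=
    { toFun := fun t x => (t : α → ZMod 2) x
      map_add' := by intro a b; rfl
      map_smul' := by intro a b; rfl }
  have hinj : Function.Injective r := by
    rw [← LinearMap.ker_eq_bot, LinearMap.ker_eq_bot']
    intro t ht
    by_contra h
    have h' : (t : α → ZMod 2) ≠ 0 := fun h0 => h (by ext1; exact h0)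
    obtain ⟨x, hx⟩ := exists_isLead h'
    have hx' : x ∈ leads T := mem_leads.mpr ⟨t, t.2, hx⟩
    have := congrFun ht ⟨x, hx'⟩
    exact hx.1 this
  have h1 := LinearMap.finrank_le_finrank_of_injective hinj
  simpa using h1

lemma card_leads_le_finrank (T : Submodule (ZMod 2) (α → ZMod 2)) :
    (leads T).card ≤ finrank (ZMod 2) T := by
  classical
  have hex : ∀ x : leads T, ∃ t ∈ T, IsLead t x := fun x => mem_leads.mp x.2
  choose t htT ht using hex
  let f : leads T → T := fun x => ⟨t x, htT x⟩
  have hli : LinearIndependent (ZMod 2) f := by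
    rw [Fintype.linearIndependent_iff]
    intro g hg
    by_contra hne
    push Not at hne
    obtain ⟨i0, hi0⟩ := hne
    have hs : (univ.filter fun i : leads T => g i ≠ 0).Nonempty := ⟨i0, by simp [hi0]⟩
    set m := (univ.filter fun i : leads T => g i ≠ 0).max' hs with hm
    have hmm : g m ≠ 0 := (mem_filter.mp (max'_mem _ hs)).2
    have hmax : ∀ i, m < i → g i = 0 := by
      intro i hi
      by_contra h
      have hi2 : i ∈ univ.filter fun i : leads T => g i ≠ 0 := by simp [h]
      exact absurd hi (not_lt.mpr (le_max' _ i hi2))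
    have hval : (((∑ i, g i • f i : T) : α → ZMod 2)) (m : α) = 0 := by
      rw [hg]; rfl
    have hsum : (((∑ i, g i • f i : T) : α → ZMod 2)) (m : α) = ∑ i, g i * t i (m : α) := by
      rw [Submodule.coe_sum, Finset.sum_apply]
      rfl
    rw [hsum, Finset.sum_eq_single m] at hval
    · rcases mul_eq_zero.mp hval with h | h
      · exact hmm h
      · exact (ht m).1 h
    · intro b _ hb
      rcases lt_trichotomy b m with h | h | h
      · rw [(ht b).2 m h, mul_zero]
      · exact absurd h hb
      · rw [hmax b h, zero_mul]
    · intro h; exact absurd (mem_univ _) h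
  have := hli.fintype_card_le_finrank
  simpa using this

end Lead

end Pool.Agent.Work.MP_49e1e0_lc
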