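import Mathlib
import Pool.Agent.Work.MP_49e1e0_lc.Dim

/-!
The upper bound for isolated families of code words.
-/

open Finset

namespace Pool.Agent.Work.MP_49e1e0_lc

/-- The parity checks of the code. -/
def Code (c : Fin 6 → ZMod 2) : Prop := c 3 = c 0 + c 1 ∧ c 4 = c 1 + c 2 ∧ c 5 = c 0 + c 2

/-- An isolated family of clauses: all assignments satisfy the parity checks of all clauses and
the assignment `e'` vanishes on the clause `e` exactly when `e = e'`. -/
structure Iso {V ι : Type} (x : ι → Fin 6 → V) (σ : ι → V → ZMod 2) : Prop where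
  code : ∀ e e', Code (fun p => σ e' (x e p))
  iso : ∀ e e', (∀ p, σ e' (x e p) = 0) ↔ e = e'

theorem Iso.exists_data {V ι : Type} [Fintype V] {x : ι → Fin 6 → V}
    {σ : ι → V → ZMod 2} (h : Iso x σ) : ∃ (D : ℕ) (A : Data V ι D), A.x = x := by
  classical
  obtain ⟨D, b, β, hβ, hb, hσ⟩ := exists_coords (Submodule.span (ZMod 2) (Set.range σ))
  have hS : ∀ ρ ∈ Submodule.span (ZMod 2) (Set.range σ), ∀ e, Code (fun p => ρ (x e p)) := by
    intro ρ hρ e
    induction hρ using Submodule.span_induction with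
    | mem y hy =>
      obtain ⟨e', rfl⟩ := hy
      exact h.code e e'
    | zero => simp [Code]
    | add y z _ _ hy hz =>
      obtain ⟨h1, h2, h3⟩ := hy
      obtain ⟨h1', h2', h3'⟩ := hz
      refine ⟨?_, ?_, ?_⟩
      · simp only [Pi.add_apply] at *
        rw [h1, h1']; ring
      · simp only [Pi.add_apply] at *
        rw [h2, h2']; ring
      · simp only [Pi.add_apply] at *
        rw [h3, h3']; ring
    | smul a y _ hy =>
      obtain ⟨h1, h2, h3⟩ := hy
      refine ⟨?_, ?_, ?_⟩
      · simp only [Pi.smul_apply, smul_eq_mul] at *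
        rw [h1]; ring
      · simp only [Pi.smul_apply, smul_eq_mul] at *
        rw [h2]; ring
      · simp only [Pi.smul_apply, smul_eq_mul] at *
        rw [h3]; ring
  have hdot : ∀ e v, σ e v = (fun i => β i v) ⬝ᵥ (fun i => σ e (b i)) := by
    intro e v
    rw [hσ (σ e) (Submodule.subset_span ⟨e, rfl⟩) v]
    unfold dotProduct
    exact Finset.sum_congr rfl fun i _ => mul_comm _ _
  refine ⟨D,
    { vec := fun v i => β i v
      b := b
      hb := ?_
      x := x
      h3 := fun e => funext fun i => (hS (β i) (hβ i) e).1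
      h4 := fun e => funext fun i => (hS (β i) (hβ i) e).2.1
      h5 := fun e => funext fun i => (hS (β i) (hβ i) e).2.2
      τ := fun e i => σ e (b i)
      iso := ?_ }, rfl⟩
  · intro j
    funext i
    rw [hb i j, Pi.single_apply]
  · intro e e'
    rw [← h.iso e e']
    exact forall_congr' fun p => by rw [hdot e' (x e p)]

theorem final_arith {N n D L L3 : ℕ} {l : Fin D → ℕ} (hn : 1 ≤ n) (hL : L ≤ 2 * n)
    (hl : ∑ i, l i ≤ L) (hdeg : ∀ i, 100 * Real.sqrt n < ((l i + 1) ^ 2 : ℕ))
    (hL3 : (L3 : ℝ) ≤ L * Real.sqrt L) (hN : N ≤ L3 + (D + 1) ^ 2) :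
    (N : ℝ) ≤ 100 * (n * Real.sqrt n) := by
  have hn1 : (1 : ℝ) ≤ n := by exact_mod_cast hn
  set s := Real.sqrt n with hs
  have hs1 : 1 ≤ s := by
    rw [hs, Real.one_le_sqrt]
    exact hn1
  have hss : s * s = n := Real.mul_self_sqrt (by positivity)
  have hLR : (L : ℝ) ≤ 2 * n := by exact_mod_cast hL
  -- leading triples
  have h1 : (L3 : ℝ) ≤ 4 * (n * s) := by
    have e1 : Real.sqrt L ≤ 2 * s := by
      rw [Real.sqrt_le_left (by positivity)]
      nlinarith
    calc (L3 : ℝ) ≤ L * Real.sqrt L := hL3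
      _ ≤ (2 * n) * (2 * s) := mul_le_mul hLR e1 (by positivity) (by positivity)
      _ = _ := by ring
  -- the rank
  set t := Real.sqrt s with ht
  have htt : t * t = s := Real.mul_self_sqrt (by positivity)
  have ht1 : 1 ≤ t := by
    rw [ht, Real.one_le_sqrt]
    exact hs1
  have h2 : ∀ i, 9 * t ≤ (l i : ℝ) := by
    intro i
    have h3 := hdeg i
    push_cast at h3
    have h4 : 10 * t < (l i : ℝ) + 1 := by
      by_contra hcon
      push Not at hcon
      have : ((l i : ℝ) + 1) ^ 2 ≤ (10 * t) ^ 2 := pow_le_pow_left₀ (by positivity) hcon 2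
      nlinarith
    linarith
  have h3 : (D : ℝ) * (9 * t) ≤ 2 * n := by
    calc (D : ℝ) * (9 * t) = ∑ _i : Fin D, 9 * t := by simp
      _ ≤ ∑ i : Fin D, (l i : ℝ) := Finset.sum_le_sum fun i _ => h2 i
      _ ≤ L := by exact_mod_cast hl
      _ ≤ 2 * n := hLR
  have h4 : (D : ℝ) ^ 2 ≤ n * s := by
    have h5 : ((D : ℝ) * (9 * t)) ^ 2 ≤ (2 * (n : ℝ)) ^ 2 := pow_le_pow_left₀ (by positivity) h3 2
    have h6 : (D : ℝ) ^ 2 * (81 * s) ≤ 4 * (n * s) * s := by
      calc (D : ℝ) ^ 2 * (81 * s) = ((D : ℝ) * (9 * t)) ^ 2 := by rw [← htt]; ring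
        _ ≤ (2 * (n : ℝ)) ^ 2 := h5
        _ = 4 * (n * s) * s := by
          rw [mul_assoc, mul_assoc, hss]; ring
    have h7 : (D : ℝ) ^ 2 * 81 ≤ 4 * (n * s) := by
      have hs0 : 0 < s := by linarith
      apply le_of_mul_le_mul_right _ hs0
      linarith
    nlinarith [sq_nonneg (D : ℝ)]
  have h5 : (N : ℝ) ≤ L3 + ((D : ℝ) + 1) ^ 2 := by exact_mod_cast hN
  have h6 : (1 : ℝ) ≤ n * s := by nlinarith
  have h7 : ((D : ℝ) + 1) ^ 2 ≤ 2 * (D : ℝ) ^ 2 + 2 := by nlinarith [sq_nonneg ((D : ℝ) - 1)]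
  linarith

theorem upper (n : ℕ) : ∀ (V ι : Type) [Fintype V] [Fintype ι] (x : ι → Fin 6 → V)
    (σ : ι → V → ZMod 2), Iso x σ → Fintype.card V = n →
    (Fintype.card ι : ℝ) ≤ 100 * (n * Real.sqrt n) := by
  classical
  induction n with
  | zero =>
    intro V ι _ _ x σ _ hV
    have hVe : IsEmpty V := Fintype.card_eq_zero_iff.1 hV
    have : IsEmpty ι := ⟨fun e => hVe.false (x e 0)⟩
    rw [Fintype.card_eq_zero]
    simp
  | succ n ih =>
    intro V ι _ _ x σ h hV
    by_cases hlow : ∃ v : V, ((univ.filter fun e : ι => ∃ p, x e p = v).card : ℝ) ≤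
        100 * Real.sqrt (n + 1 : ℕ)
    · obtain ⟨v, hv⟩ := hlow
      let V' := {u : V // u ≠ v}
      let ι' := {e : ι // ∀ p, x e p ≠ v}
      let x' : ι' → Fin 6 → V' := fun e p => ⟨x e.1 p, e.2 p⟩
      let σ' : ι' → V' → ZMod 2 := fun e u => σ e.1 u.1
      have h' : Iso x' σ' := by
        refine ⟨fun e e' => h.code e.1 e'.1, fun e e' => ?_⟩
        rw [Subtype.ext_iff, ← h.iso e.1 e'.1]
      have hV' : Fintype.card V' = n := by
        have : Fintype.card V' = (univ.filter fun u : V => u ≠ v).card := Fintype.card_subtype _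
        rw [this, Finset.filter_ne', Finset.card_erase_of_mem (mem_univ v), Finset.card_univ]
        omega
      have h1 := ih V' ι' x' σ' h' hV'
      have h2 : Fintype.card ι = Fintype.card ι' + (univ.filter fun e : ι => ∃ p, x e p = v).card := by
        have e1 : Fintype.card ι' = (univ.filter fun e : ι => ∀ p, x e p ≠ v).card := by
          rw [Fintype.card_subtype]
        rw [e1]
        have e2 := Finset.card_filter_add_card_filter_not (s := (univ : Finset ι))
          (fun e => ∀ p, x e p ≠ v)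
        rw [Finset.card_univ] at e2
        rw [← e2]
        congr 2
        ext e
        simp
      rw [h2]
      push_cast at hv ⊢
      have h3 : Real.sqrt n ≤ Real.sqrt (n + 1) := Real.sqrt_le_sqrt (by linarith)
      have h4 : (n : ℝ) * Real.sqrt n ≤ n * Real.sqrt (n + 1) :=
        mul_le_mul_of_nonneg_left h3 (by positivity)
      linarith
    · push Not at hlow
      obtain ⟨D, A, hA⟩ := h.exists_data
      subst hA
      have h1 : ∀ i, 100 * Real.sqrt (n + 1 : ℕ) < (((A.lead i).card + 1) ^ 2 : ℕ) := by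
        intro i
        refine (hlow (A.b i)).trans_le ?_
        have := A.card_deg i
        exact_mod_cast this
      have h2 := A.card_L2
      rw [hV] at h2
      exact final_arith (Nat.succ_pos n) h2 A.sum_lead h1 A.card_L3 A.card_le

end Pool.Agent.Work.MP_49e1e0_lc
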