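import Mathlib
import Pool.Agent.Work.MP_49e1e0_lc.Defs
import Pool.Agent.Work.MP_49e1e0_lc.Upper

/-!
The non-redundancy of `P6` is `Θ(n^(3/2))`.
-/

open Finset

namespace Pool.Agent.Work.MP_49e1e0_lc

/-- truth values as elements of the field with two elements -/
def bz (b : Bool) : ZMod 2 := if b then 1 else 0

theorem bz_xor (a b : Bool) : bz (xor a b) = bz a + bz b := by
  revert a b; decide

theorem bz_inj {a b : Bool} : bz a = bz b ↔ a = b := by
  revert a b; decide

theorem bz_zero {a : Bool} : bz a = 0 ↔ a = false := by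
  revert a; decide

/-- the three parity checks -/
def chk (k : Fin 3) : Fin 3 → Fin 6 := ![![3, 0, 1], ![4, 1, 2], ![5, 0, 2]] k

/-- value of a parity check -/
def pc (k : Fin 3) (c : Fin 6 → ZMod 2) : ZMod 2 := c (chk k 0) + c (chk k 1) + c (chk k 2)

theorem code_iff (c : Fin 6 → ZMod 2) : Code c ↔ ∀ k, pc k c = 0 := by
  have key : ∀ a b d : ZMod 2, a = b + d ↔ a + b + d = 0 := by decide
  constructor
  · rintro ⟨h1, h2, h3⟩ k
    fin_cases k
    · exact (key _ _ _).1 h1
    · exact (key _ _ _).1 h2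
    · exact (key _ _ _).1 h3
  · intro h
    exact ⟨(key _ _ _).2 (h 0), (key _ _ _).2 (h 1), (key _ _ _).2 (h 2)⟩

theorem mem_P6 (c : Fin 6 → Bool) : c ∈ P6 ↔ Code (fun p => bz (c p)) ∧ ∃ i, c i = true := by
  unfold P6 Code
  simp only [Set.mem_ofPred_eq, ← bz_xor, bz_inj, and_assoc]

/-- Clauses for which one fixed parity check is violated. -/
theorem card_check {n : ℕ} (k : Fin 3) (J : Finset (Fin 6 → Fin n))
    (σ : (Fin 6 → Fin n) → Fin n → ZMod 2)
    (h : ∀ C ∈ J, ∀ C' ∈ J, pc k (fun p => σ C' (C p)) = if C = C' then 1 else 0) :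
    J.card ≤ n := by
  classical
  let w : J → (Fin n → ZMod 2) := fun C =>
    Pi.single (C.1 (chk k 0)) 1 + Pi.single (C.1 (chk k 1)) 1 + Pi.single (C.1 (chk k 2)) 1
  have hw : ∀ C C' : J, w C ⬝ᵥ σ C'.1 = if C = C' then 1 else 0 := by
    intro C C'
    simp only [w, add_dotProduct, single_one_dotProduct]
    have := h C.1 C.2 C'.1 C'.2
    rw [pc] at this
    rw [this]
    simp only [Subtype.ext_iff]
  have hli : LinearIndependent (ZMod 2) w := by
    rw [Fintype.linearIndependent_iff]
    intro g hg C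
    have h1 := congrArg (fun v => v ⬝ᵥ σ C.1) hg
    simp only [sum_dotProduct, smul_dotProduct, hw, smul_eq_mul, mul_ite, mul_one, mul_zero,
      zero_dotProduct, Finset.sum_ite_eq', mem_univ, if_true] at h1
    exact h1
  have h1 := hli.fintype_card_le_finrank
  rw [Fintype.card_coe, Module.finrank_fintype_fun_eq_card, Fintype.card_fin] at h1
  exact h1

theorem upper_P6 {n : ℕ} (I : Finset (Fin 6 → Fin n)) (h : NonRedundant P6 I) :
    (I.card : ℝ) ≤ 103 * (n * Real.sqrt n) := by
  classical
  choose! s hs hs' using h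
  let σ : (Fin 6 → Fin n) → Fin n → ZMod 2 := fun C v => bz (s C v)
  have hcode : ∀ C ∈ I, ∀ C' ∈ I, C ≠ C' → Code (fun p => σ C' (C p)) := by
    intro C hC C' hC' hne
    exact ((mem_P6 _).1 (hs C' hC' C hC hne)).1
  -- the two kinds of clauses
  have h1 : ∀ k : Fin 3, (I.filter fun C => pc k (fun p => σ C (C p)) ≠ 0).card ≤ n := by
    intro k
    apply card_check k _ σ
    intro C hC C' hC'
    simp only [mem_filter] at hC hC'
    by_cases hCC : C = C'
    · subst hCC
      rw [if_pos rfl]
      exact zmod2_eq_one hC.2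
    · rw [if_neg hCC]
      exact (code_iff _).1 (hcode C hC.1 C' hC'.1 hCC) k
  have h2 : ((I.filter fun C => Code (fun p => σ C (C p))).card : ℝ) ≤ 100 * (n * Real.sqrt n) := by
    let ι := {C : Fin 6 → Fin n // C ∈ I.filter fun C => Code (fun p => σ C (C p))}
    have hmem : ∀ C : ι, C.1 ∈ I ∧ Code (fun p => σ C.1 (C.1 p)) := fun C => by
      simpa only [mem_filter] using C.2
    have hiso : Iso (fun C : ι => C.1) (fun C : ι => σ C.1) := by
      refine ⟨fun C C' => ?_, fun C C' => ?_⟩
      · by_cases hCC : C = C'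
        · subst hCC; exact (hmem C).2
        · exact hcode C.1 (hmem C).1 C'.1 (hmem C').1 fun h => hCC (Subtype.ext h)
      · constructor
        · intro hz
          by_contra hCC
          have h3 := hs C'.1 (hmem C').1 C.1 (hmem C).1 fun h => hCC (Subtype.ext h)
          obtain ⟨_, i, hi⟩ := (mem_P6 _).1 h3
          have h4 := hz i
          simp only [σ, bz_zero] at h4
          rw [h4] at hi
          exact absurd hi (by decide)
        · rintro rfl p
          have h3 := hs' C.1 (hmem C).1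
          unfold Sat at h3
          rw [mem_P6] at h3
          by_contra hp
          apply h3
          refine ⟨(hmem C).2, p, ?_⟩
          by_contra hp'
          apply hp
          simp only [σ, bz_zero]
          simpa using hp'
    have h3 := upper n (Fin n) ι _ _ hiso (Fintype.card_fin n)
    rwa [Fintype.card_coe] at h3
  have h3 : I ⊆ (I.filter fun C => Code (fun p => σ C (C p))) ∪
      (univ.biUnion fun k : Fin 3 => I.filter fun C => pc k (fun p => σ C (C p)) ≠ 0) := by
    intro C hC
    by_cases hcc : Code (fun p => σ C (C p))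
    · exact mem_union_left _ (mem_filter.2 ⟨hC, hcc⟩)
    · rw [code_iff] at hcc
      push Not at hcc
      obtain ⟨k, hk⟩ := hcc
      exact mem_union_right _ (mem_biUnion.2 ⟨k, mem_univ k, mem_filter.2 ⟨hC, hk⟩⟩)
  have h4 : (univ.biUnion fun k : Fin 3 => I.filter fun C => pc k (fun p => σ C (C p)) ≠ 0).card ≤
      3 * n := by
    refine Finset.card_biUnion_le.trans ?_
    refine (Finset.sum_le_sum fun k _ => h1 k).trans ?_
    simp
  have h5 : I.card ≤ (I.filter fun C => Code (fun p => σ C (C p))).card + 3 * n :=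
    (Finset.card_le_card h3).trans ((Finset.card_union_le _ _).trans (Nat.add_le_add_left h4 _))
  have h6 : (I.card : ℝ) ≤ (I.filter fun C => Code (fun p => σ C (C p))).card + 3 * n := by
    exact_mod_cast h5
  have h7 : (n : ℝ) ≤ n * Real.sqrt n := by
    rcases Nat.eq_zero_or_pos n with h0 | h0
    · subst h0; simp
    · have : (1 : ℝ) ≤ Real.sqrt n := by
        rw [Real.one_le_sqrt]
        exact_mod_cast h0
      nlinarith
  linarith

/-- the variables of the lower bound construction -/
abbrev W (m : ℕ) : Type := (Fin 3 × Fin m) ⊕ (Fin 3 × Fin m × Fin m)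

/-- the clauses of the lower bound construction -/
def cl {m : ℕ} (t : Fin m × Fin m × Fin m) : Fin 6 → W m :=
  ![Sum.inl (0, t.1), Sum.inl (1, t.2.1), Sum.inl (2, t.2.2), Sum.inr (0, t.1, t.2.1),
    Sum.inr (1, t.2.1, t.2.2), Sum.inr (2, t.1, t.2.2)]

/-- coordinates of a triple -/
def co {m : ℕ} (t : Fin m × Fin m × Fin m) : Fin 3 → Fin m := ![t.1, t.2.1, t.2.2]

/-- the assignments of the lower bound construction -/
def asg {m : ℕ} (t : Fin m × Fin m × Fin m) : W m → Bool
  | Sum.inl (a, i) => !decide (i = co t a)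
  | Sum.inr (a, i, j) => xor (!decide (i = co t (![0, 1, 0] a))) (!decide (j = co t (![1, 2, 2] a)))

theorem asg_cl {m : ℕ} (t u : Fin m × Fin m × Fin m) :
    (fun p => asg t (cl u p)) ∈ P6 ↔ u ≠ t := by
  obtain ⟨a, b, c⟩ := t
  obtain ⟨a', b', c'⟩ := u
  have e : (fun p => asg (a, b, c) (cl (a', b', c') p)) =
      ![!decide (a' = a), !decide (b' = b), !decide (c' = c),
        xor (!decide (a' = a)) (!decide (b' = b)), xor (!decide (b' = b)) (!decide (c' = c)),
        xor (!decide (a' = a)) (!decide (c' = c))] := by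
    funext p
    fin_cases p <;> rfl
  rw [e]
  unfold P6
  simp only [Set.mem_ofPred_eq]
  constructor
  · rintro ⟨_, _, _, i, hi⟩ heq
    simp only [Prod.mk.injEq] at heq
    obtain ⟨rfl, rfl, rfl⟩ := heq
    revert hi
    fin_cases i <;> simp
  · intro hne
    refine ⟨rfl, rfl, rfl, ?_⟩
    by_cases ha : a' = a
    · by_cases hb : b' = b
      · have hc : c' ≠ c := by
          rintro rfl
          exact hne (by rw [ha, hb])
        exact ⟨2, by simp [hc]⟩
      · exact ⟨1, by simp [hb]⟩
    · exact ⟨0, by simp [ha]⟩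

theorem cl_inj {m : ℕ} : Function.Injective (cl (m := m)) := by
  rintro ⟨a, b, c⟩ ⟨a', b', c'⟩ h
  have h0 := congrFun h 0
  have h1 := congrFun h 1
  have h2 := congrFun h 2
  simp only [cl] at h0 h1 h2
  simp at h0 h1 h2
  rw [h0, h1, h2]

theorem lower_P6 {m n : ℕ} (h : 3 * m + 3 * (m * m) ≤ n) : m ^ 3 ≤ NRD P6 n := by
  classical
  have hcard : Fintype.card (W m) ≤ Fintype.card (Fin n) := by
    simp only [W, Fintype.card_sum, Fintype.card_prod, Fintype.card_fin]
    exact h
  obtain ⟨φ⟩ := Function.Embedding.nonempty_of_card_le hcard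
  let C : Fin m × Fin m × Fin m → Fin 6 → Fin n := fun t p => φ (cl t p)
  have hC : Function.Injective C := by
    intro t u htu
    apply cl_inj
    funext p
    exact φ.injective (congrFun htu p)
  let σ : Fin m × Fin m × Fin m → Fin n → Bool := fun t => Function.extend φ (asg t) fun _ => false
  have hσ : ∀ t u, (fun p => σ t (C u p)) = fun p => asg t (cl u p) := by
    intro t u
    funext p
    exact φ.injective.extend_apply _ _ _
  have hI : NonRedundant P6 (univ.image C) := by
    intro D hD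
    obtain ⟨t, _, rfl⟩ := Finset.mem_image.1 hD
    refine ⟨σ t, ?_, ?_⟩
    · intro D' hD' hne
      obtain ⟨u, _, rfl⟩ := Finset.mem_image.1 hD'
      unfold Sat
      rw [hσ, asg_cl]
      rintro rfl
      exact hne rfl
    · unfold Sat
      rw [hσ, asg_cl]
      simp
  have h1 := le_NRD hI
  rw [Finset.card_image_of_injective _ hC, Finset.card_univ] at h1
  simp only [Fintype.card_prod, Fintype.card_fin] at h1
  calc m ^ 3 = m * (m * m) := by ring
    _ ≤ _ := h1

theorem rpow_eq (n : ℕ) : (n : ℝ) ^ (((3 / 2 : ℚ)) : ℝ) = n * Real.sqrt n := by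
  have h0 : (0 : ℝ) ≤ n := by positivity
  rcases eq_or_lt_of_le h0 with h | h
  · rw [← h]
    push_cast
    rw [Real.zero_rpow (by norm_num), zero_mul]
  · rw [Real.sqrt_eq_rpow, ← Real.rpow_one_add' h0 (by norm_num)]
    norm_num

theorem theta : IsTheta P6 (3 / 2) := by
  refine ⟨1 / 1000, 103, by norm_num, by norm_num, 6, fun n hn => ⟨?_, ?_⟩⟩
  · rw [rpow_eq]
    set s := Real.sqrt n with hs
    have hn' : (6 : ℝ) ≤ n := by exact_mod_cast hn
    have hss : s * s = n := Real.mul_self_sqrt (by positivity)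
    have hs0 : 0 ≤ s := Real.sqrt_nonneg _
    have hs2 : 2 ≤ s := by nlinarith
    set m := ⌊s / 3⌋₊ with hm
    by_cases hs6 : s < 6
    · have h1 := lower_P6 (m := 1) (n := n) (by omega)
      have h2 : (1 : ℝ) ≤ NRD P6 n := by
        have : 1 ≤ NRD P6 n := by simpa using h1
        exact_mod_cast this
      nlinarith
    · push Not at hs6
      have hm1 : (m : ℝ) ≤ s / 3 := Nat.floor_le (by positivity)
      have hm2 : s / 3 - 1 < m := Nat.sub_one_lt_floor _
      have hm3 : s / 6 ≤ m := by linarith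
      have h1 : 3 * m + 3 * (m * m) ≤ n := by
        have : (3 * m + 3 * (m * m) : ℝ) ≤ n := by nlinarith
        exact_mod_cast this
      have h2 : (m : ℝ) ^ 3 ≤ NRD P6 n := by exact_mod_cast lower_P6 h1
      have h3 : (s / 6) ^ 3 ≤ (m : ℝ) ^ 3 := pow_le_pow_left₀ (by positivity) hm3 3
      calc 1 / 1000 * (n * s) = 1 / 1000 * s ^ 3 := by rw [← hss]; ring
        _ ≤ (s / 6) ^ 3 := by
          have : 0 ≤ s ^ 3 := by positivity
          nlinarith
        _ ≤ _ := h3.trans h2
  · rw [rpow_eq]
    obtain ⟨I, hI, hc⟩ := exists_NRD P6 n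
    rw [← hc]
    exact upper_P6 I hI

theorem main : IsTheta P6 (3 / 2) ∧
    ∃ (r : ℕ) (P : Set (Fin r → Bool)) (β : ℚ), 4 ≤ r ∧ (∀ k : ℕ, β ≠ k) ∧ IsTheta P β := by
  refine ⟨theta, 6, P6, 3 / 2, by norm_num, ?_, theta⟩
  intro k h
  have h1 : (3 : ℚ) = 2 * k := by linarith
  have h2 : (3 : ℤ) = 2 * k := by exact_mod_cast h1
  omega

end Pool.Agent.Work.MP_49e1e0_lc
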