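import Pool.Agent.Work.MP_49e1e0_lc.Inst

set_option autoImplicit false
set_option linter.unusedSectionVars false
set_option linter.deprecated false

namespace Pool.Agent.Work.MP_49e1e0_lc

open Finset Module

variable {Ω : Type*} [Fintype Ω] [DecidableEq Ω]

/-- the three indices other than `k` -/
def oth : Fin 4 → Fin 4 × Fin 4 × Fin 4 := ![(1, 2, 3), (0, 2, 3), (0, 1, 3), (0, 1, 2)]

lemma oth_spec : ∀ k : Fin 4, (oth k).1 ≠ k ∧ (oth k).2.1 ≠ k ∧ (oth k).2.2 ≠ k ∧
    (oth k).1 ≠ (oth k).2.1 ∧ (oth k).1 ≠ (oth k).2.2 ∧ (oth k).2.1 ≠ (oth k).2.2 ∧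
    ∀ x, x ≠ k → x = (oth k).1 ∨ x = (oth k).2.1 ∨ x = (oth k).2.2 := by decide

/-- the triangle opposite to `k` -/
def lam (v : Ω → Fin 4 → Ω → ZMod 2) (k : Fin 4) (f : Ω) : (Ω → ZMod 2) × (Ω → ZMod 2) :=
  (v f (oth k).1 + v f (oth k).2.1, v f (oth k).1 + v f (oth k).2.2)

lemma lam_eq {v : Ω → Fin 4 → Ω → ZMod 2} {k : Fin 4} {f f' : Ω} (h : lam v k f = lam v k f')
    {i j : Fin 4} (hi : i ≠ k) (hj : j ≠ k) : v f i + v f j = v f' i + v f' j := by
  have h1 : ∀ x, x ≠ k → v f (oth k).1 + v f x = v f' (oth k).1 + v f' x := by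
    intro x hx
    simp only [lam, Prod.mk.injEq] at h
    rcases (oth_spec k).2.2.2.2.2.2 x hx with hx | hx | hx
    · rw [hx, fadd_self, fadd_self]
    · rw [hx]; exact h.1
    · rw [hx]; exact h.2
  calc v f i + v f j = (v f (oth k).1 + v f i) + (v f (oth k).1 + v f j) := (tri_add _ _ _).symm
    _ = (v f' (oth k).1 + v f' i) + (v f' (oth k).1 + v f' j) := by rw [h1 i hi, h1 j hj]
    _ = _ := tri_add _ _ _

section

variable (v : Ω → Fin 4 → Ω → ZMod 2) (E : Finset Ω) (Z : Finset (Ω → ZMod 2)) (T : ℝ)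

/-- elements with few partners -/
noncomputable def Zl : Finset (Ω → ZMod 2) := Z.filter fun z => (ell Z z : ℝ) ≤ T

/-- number of common partners -/
noncomputable def com (w w' : Ω → ZMod 2) : ℕ :=
  ((Zl Z T).filter fun b => b + w ∈ Z ∧ b + w' ∈ Z).card

end

variable {v : Ω → Fin 4 → Ω → ZMod 2} {E : Finset Ω} {Z : Finset (Ω → ZMod 2)} {T : ℝ}

lemma sum_ell_le (hT : 0 ≤ T) : (∑ z ∈ Zl Z T, (ell Z z : ℝ)) ≤ Z.card * T := by
  calc (∑ z ∈ Zl Z T, (ell Z z : ℝ)) ≤ ∑ z ∈ Zl Z T, T :=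
        sum_le_sum fun z hz => (mem_filter.mp hz).2
    _ = (Zl Z T).card * T := by rw [sum_const, nsmul_eq_mul]
    _ ≤ Z.card * T := by
        apply mul_le_mul_of_nonneg_right _ hT
        exact_mod_cast card_filter_le _ _

lemma card_lam_le (hG : Good v E Z) (hT : 0 ≤ T)
    (hlow : ∀ f ∈ E, ∀ i j, i ≠ j → (ell Z (v f i + v f j) : ℝ) ≤ T) (k : Fin 4) :
    ((E.image (lam v k)).card : ℝ) ≤ Z.card * T := by
  classical
  obtain ⟨_, _, _, h4, h5, h6, _⟩ := oth_spec k
  have hsub : E.image (lam v k) ⊆ (Zl Z T).biUnion fun z =>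
      (Z.filter fun y => y + z ∈ Z).image fun y => (z, y) := by
    intro x hx
    obtain ⟨f, hf, rfl⟩ := mem_image.mp hx
    rw [mem_biUnion]
    refine ⟨v f (oth k).1 + v f (oth k).2.1, mem_filter.mpr ⟨hG.pts f hf _ _ h4,
      hlow f hf _ _ h4⟩, ?_⟩
    rw [mem_image]
    refine ⟨v f (oth k).1 + v f (oth k).2.2, mem_filter.mpr ⟨hG.pts f hf _ _ h5, ?_⟩, rfl⟩
    rw [tri_add]
    exact hG.pts f hf _ _ h6.symm
  have h1 : (E.image (lam v k)).card ≤ ∑ z ∈ Zl Z T, ell Z z :=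
    (card_le_card hsub).trans (card_biUnion_le.trans (sum_le_sum fun z _ => card_image_le))
  calc ((E.image (lam v k)).card : ℝ) ≤ ((∑ z ∈ Zl Z T, ell Z z : ℕ) : ℝ) := by
        exact_mod_cast h1
    _ = ∑ z ∈ Zl Z T, (ell Z z : ℝ) := by push_cast; rfl
    _ ≤ Z.card * T := sum_ell_le hT

/-- bad pairs -/
noncomputable def badP (v : Ω → Fin 4 → Ω → ZMod 2) (E : Finset Ω) (Z : Finset (Ω → ZMod 2))
    (T τ : ℝ) (k j : Fin 4) : Finset (Ω × Ω) := by
  classical
  exact (E ×ˢ E).filter fun x => lam v k x.1 = lam v k x.2 ∧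
    (com Z T (v x.1 k + v x.1 j) (v x.2 k + v x.2 j) : ℝ) < τ

lemma card_badP (hG : Good v E Z) (hT : 0 ≤ T) {τ : ℝ} (hτ : 0 ≤ τ)
    (hlow : ∀ f ∈ E, ∀ i j, i ≠ j → (ell Z (v f i + v f j) : ℝ) ≤ T) (k j : Fin 4)
    (hkj : k ≠ j) : ((badP v E Z T τ k j).card : ℝ) ≤ Z.card * T ^ 2 * τ := by
  classical
  obtain ⟨l, m, hlm, hlk, hlj, hmk, hmj, hall⟩ := others k j hkj
  let X : Finset ((Ω → ZMod 2) × (Ω → ZMod 2) × (Ω → ZMod 2)) := (Zl Z T).biUnion fun b =>
    ((Z.filter fun y => y + b ∈ Z) ×ˢ (Z.filter fun y => y + b ∈ Z)).image fun y => (b, y)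
  let g : Ω × Ω → (Ω → ZMod 2) × (Ω → ZMod 2) × (Ω → ZMod 2) := fun x =>
    (v x.1 j + v x.1 m, (v x.1 k + v x.1 j, v x.2 k + v x.2 j))
  have hX : (X.card : ℝ) ≤ Z.card * T ^ 2 := by
    have h1 : X.card ≤ ∑ z ∈ Zl Z T, ell Z z * ell Z z := by
      refine card_biUnion_le.trans (sum_le_sum fun z _ => card_image_le.trans ?_)
      rw [card_product]
      exact le_refl _
    calc (X.card : ℝ) ≤ ((∑ z ∈ Zl Z T, ell Z z * ell Z z : ℕ) : ℝ) := by exact_mod_cast h1
      _ = ∑ z ∈ Zl Z T, (ell Z z : ℝ) * ell Z z := by push_cast; rfl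
      _ ≤ ∑ z ∈ Zl Z T, T ^ 2 := by
          refine sum_le_sum fun z hz => ?_
          have h2 := (mem_filter.mp hz).2
          calc (ell Z z : ℝ) * ell Z z ≤ T * T :=
                mul_le_mul h2 h2 (Nat.cast_nonneg _) hT
            _ = T ^ 2 := by ring
      _ = (Zl Z T).card * T ^ 2 := by rw [sum_const, nsmul_eq_mul]
      _ ≤ Z.card * T ^ 2 := by
          apply mul_le_mul_of_nonneg_right _ (by positivity)
          exact_mod_cast card_filter_le _ _
  have hmaps : ∀ x ∈ badP v E Z T τ k j, g x ∈ X := by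
    intro x hx
    simp only [badP, mem_filter, mem_product] at hx
    obtain ⟨⟨h1, h2⟩, h3, h4⟩ := hx
    have hb : v x.1 j + v x.1 m = v x.2 j + v x.2 m := lam_eq h3 hkj.symm hmk
    rw [mem_biUnion]
    refine ⟨v x.1 j + v x.1 m, mem_filter.mpr ⟨hG.pts _ h1 _ _ hmj.symm,
      hlow _ h1 _ _ hmj.symm⟩, ?_⟩
    rw [mem_image]
    refine ⟨(v x.1 k + v x.1 j, v x.2 k + v x.2 j), ?_, rfl⟩
    rw [mem_product, mem_filter, mem_filter]
    refine ⟨⟨hG.pts _ h1 _ _ hkj, ?_⟩, ⟨hG.pts _ h2 _ _ hkj, ?_⟩⟩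
    · rw [add_comm (v x.1 k), tri_add]
      exact hG.pts _ h1 _ _ hmk.symm
    · rw [hb, add_comm (v x.2 k), tri_add]
      exact hG.pts _ h2 _ _ hmk.symm
  have hfib : ∀ y ∈ X, (((badP v E Z T τ k j).filter fun x => g x = y).card : ℝ) ≤ τ := by
    intro y _
    rcases ((badP v E Z T τ k j).filter fun x => g x = y).eq_empty_or_nonempty with h0 | ⟨x0, hx0⟩
    · rw [h0]; simpa using hτ
    · obtain ⟨hx0b, hx0g⟩ := mem_filter.mp hx0
      have hlt : (com Z T y.2.1 y.2.2 : ℝ) < τ := by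
        simp only [badP, mem_filter, mem_product] at hx0b
        rw [← hx0g]
        exact hx0b.2.2
      refine le_trans ?_ hlt.le
      have : ((badP v E Z T τ k j).filter fun x => g x = y).card ≤ com Z T y.2.1 y.2.2 := by
        apply card_le_card_of_injOn (fun x => v x.1 j + v x.1 l)
        · intro x hx
          obtain ⟨hxb, hxg⟩ := mem_filter.mp (mem_coe.mp hx)
          simp only [badP, mem_filter, mem_product] at hxb
          obtain ⟨⟨h1, h2⟩, h3, h4⟩ := hxb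
          have hb : v x.1 j + v x.1 l = v x.2 j + v x.2 l := lam_eq h3 hkj.symm hlk
          apply mem_coe.mpr
          rw [mem_filter]
          refine ⟨mem_filter.mpr ⟨hG.pts _ h1 _ _ hlj.symm, hlow _ h1 _ _ hlj.symm⟩, ?_, ?_⟩
          · rw [← hxg]
            show (v x.1 j + v x.1 l) + (v x.1 k + v x.1 j) ∈ Z
            rw [add_comm (v x.1 k), tri_add]
            exact hG.pts _ h1 _ _ hlk
          · rw [← hxg]
            show (v x.1 j + v x.1 l) + (v x.2 k + v x.2 j) ∈ Z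
            rw [hb, add_comm (v x.2 k), tri_add]
            exact hG.pts _ h2 _ _ hlk
        · intro x hx x' hx' hxx
          obtain ⟨hxb, hxg⟩ := mem_filter.mp (mem_coe.mp hx)
          obtain ⟨hxb', hxg'⟩ := mem_filter.mp (mem_coe.mp hx')
          simp only [badP, mem_filter, mem_product] at hxb hxb'
          obtain ⟨⟨h1, h2⟩, h3, h4⟩ := hxb
          obtain ⟨⟨h1', h2'⟩, h3', h4'⟩ := hxb'
          have hgg : g x = g x' := hxg.trans hxg'.symm
          simp only [g, Prod.mk.injEq] at hgg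
          obtain ⟨g1, g2, g3⟩ := hgg
          have hxx2 : v x.1 j + v x.1 l = v x'.1 j + v x'.1 l := hxx
          apply Prod.ext
          · apply star_det hG h1 h1' j
            intro a ha
            rcases hall a with h | h | h | h
            · rw [h, add_comm (v x.1 j), add_comm (v x'.1 j)]; exact g2
            · exact absurd h ha
            · rw [h]; exact hxx2
            · rw [h]; exact g1
          · apply star_det hG h2 h2' j
            intro a ha
            rcases hall a with h | h | h | h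
            · rw [h, add_comm (v x.2 j), add_comm (v x'.2 j)]; exact g3
            · exact absurd h ha
            · rw [h, ← lam_eq h3 hkj.symm hlk, ← lam_eq h3' hkj.symm hlk]; exact hxx2
            · rw [h, ← lam_eq h3 hkj.symm hmk, ← lam_eq h3' hkj.symm hmk]; exact g1
      exact_mod_cast this
  have hc : (badP v E Z T τ k j).card = ∑ y ∈ X, ((badP v E Z T τ k j).filter
      fun x => g x = y).card := card_eq_sum_card_fiberwise hmaps
  calc ((badP v E Z T τ k j).card : ℝ) = ∑ y ∈ X, (((badP v E Z T τ k j).filter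
      fun x => g x = y).card : ℝ) := by rw [hc]; push_cast; rfl
    _ ≤ ∑ y ∈ X, τ := sum_le_sum hfib
    _ = X.card * τ := by rw [sum_const, nsmul_eq_mul]
    _ ≤ Z.card * T ^ 2 * τ := mul_le_mul_of_nonneg_right hX hτ

end Pool.Agent.Work.MP_49e1e0_lc
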