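import Pool.Agent.Work.MP_49e1e0_lc.Path

set_option autoImplicit false
set_option linter.unusedSectionVars false
set_option linter.deprecated false

namespace Pool.Agent.Work.MP_49e1e0_lc

open Finset Module

variable {Ω : Type*} [Fintype Ω] [DecidableEq Ω]

variable {v : Ω → Fin 4 → Ω → ZMod 2} {E : Finset Ω} {Z : Finset (Ω → ZMod 2)} {T : ℝ}

/-- disjoint growth -/
lemma grow (A : Finset Ω) (N : Ω → Finset Ω) (m : ℝ) (hN : ∀ a ∈ A, m ≤ ((N a).card : ℝ))
    (hd : ∀ a ∈ A, ∀ a' ∈ A, ∀ b, b ∈ N a → b ∈ N a' → a = a') :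
    (A.card : ℝ) * m ≤ ((A.biUnion N).card : ℝ) := by
  have h1 : (A.biUnion N).card = ∑ a ∈ A, (N a).card := by
    apply card_biUnion
    intro a ha a' ha' hne
    rw [Function.onFun, disjoint_left]
    intro b hb hb'
    exact hne (hd a ha a' ha' b hb hb')
  rw [h1]
  push_cast
  calc (A.card : ℝ) * m = ∑ a ∈ A, m := by rw [sum_const, nsmul_eq_mul]
    _ ≤ _ := sum_le_sum hN

/-- pruning -/
lemma prune {K : Type*} [DecidableEq K] (lm : Fin 4 → Ω → K) (A : Finset Ω) (θ : ℝ)
    (hθ : 0 ≤ θ)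
    (hA : θ * ∑ k : Fin 4, ((A.image (lm k)).card : ℝ) < A.card) :
    ∃ G ⊆ A, G.Nonempty ∧ ∀ f ∈ G, ∀ k, θ ≤ ((G.filter fun g => lm k f = lm k g).card : ℝ) := by
  classical
  let Φ : Finset Ω → ℝ := fun G => (G.card : ℝ) - θ * ∑ k : Fin 4, ((G.image (lm k)).card : ℝ)
  obtain ⟨G, hGA, hmax⟩ := exists_max_image A.powerset Φ ⟨A, mem_powerset_self A⟩
  rw [mem_powerset] at hGA
  have hpos : 0 < Φ G := by
    have h1 := hmax A (mem_powerset_self A)
    have h2 : 0 < Φ A := by simp only [Φ]; linarith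
    linarith
  refine ⟨G, hGA, ?_, ?_⟩
  · rw [nonempty_iff_ne_empty]
    intro h0
    rw [h0] at hpos
    simp [Φ] at hpos
  · intro f hf k
    by_contra hlt
    rw [not_le] at hlt
    let C := G.filter fun g => lm k f = lm k g
    have hG' := hmax (G \ C) (mem_powerset.mpr (sdiff_subset.trans hGA))
    have hcard : ((G \ C).card : ℝ) = G.card - C.card := by
      rw [card_sdiff_of_subset (filter_subset _ _)]
      rw [Nat.cast_sub (card_le_card (filter_subset _ _))]
    have himg : ∀ j, (((G \ C).image (lm j)).card : ℝ) ≤ ((G.image (lm j)).card : ℝ) := by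
      intro j
      exact_mod_cast card_le_card (image_subset_image sdiff_subset)
    have himgk : (((G \ C).image (lm k)).card : ℝ) + 1 ≤ ((G.image (lm k)).card : ℝ) := by
      have h1 : ((G \ C).image (lm k)) ⊆ (G.image (lm k)).erase (lm k f) := by
        intro x hx
        obtain ⟨g, hg, rfl⟩ := mem_image.mp hx
        obtain ⟨hg1, hg2⟩ := mem_sdiff.mp hg
        rw [mem_erase]
        refine ⟨?_, mem_image_of_mem _ hg1⟩
        intro h
        exact hg2 (mem_filter.mpr ⟨hg1, h.symm⟩)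
      have h2 := card_le_card h1
      rw [card_erase_of_mem (mem_image_of_mem _ hf)] at h2
      have h3 : 0 < (G.image (lm k)).card := card_pos.mpr ⟨_, mem_image_of_mem _ hf⟩
      have h4 : ((G \ C).image (lm k)).card + 1 ≤ (G.image (lm k)).card := by omega
      exact_mod_cast h4
    have hsum : ∑ j : Fin 4, (((G \ C).image (lm j)).card : ℝ) + 1 ≤
        ∑ j : Fin 4, ((G.image (lm j)).card : ℝ) := by
      rw [← add_sum_erase univ _ (mem_univ k), ← add_sum_erase univ _ (mem_univ k)]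
      have h5 : ∑ j ∈ univ.erase k, (((G \ C).image (lm j)).card : ℝ) ≤
          ∑ j ∈ univ.erase k, ((G.image (lm j)).card : ℝ) := sum_le_sum fun j _ => himg j
      linarith
    have h6 : θ * (∑ j : Fin 4, (((G \ C).image (lm j)).card : ℝ) + 1) ≤
        θ * ∑ j : Fin 4, ((G.image (lm j)).card : ℝ) := mul_le_mul_of_nonneg_left hsum hθ
    simp only [Φ] at hG'
    rw [hcard] at hG'
    have h7 : (C.card : ℝ) < θ := hlt
    linarith

/-- elements with many common partners -/
noncomputable def cl (Z : Finset (Ω → ZMod 2)) (T τ : ℝ) (w : Ω → ZMod 2) :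
    Finset (Ω → ZMod 2) := (Zl Z T).filter fun w' => τ ≤ (com Z T w w' : ℝ)

lemma card_cl {τ : ℝ} (hτ : 0 < τ) (hT : 0 ≤ T) {w : Ω → ZMod 2} (hw : w ∈ Zl Z T) :
    ((cl Z T τ w).card : ℝ) ≤ T ^ 2 / τ := by
  classical
  rw [le_div_iff₀ hτ]
  have h1 : ((cl Z T τ w).card : ℝ) * τ ≤ ∑ w' ∈ Zl Z T, (com Z T w w' : ℝ) := by
    calc ((cl Z T τ w).card : ℝ) * τ = ∑ w' ∈ cl Z T τ w, τ := by
          rw [sum_const, nsmul_eq_mul]
      _ ≤ ∑ w' ∈ cl Z T τ w, (com Z T w w' : ℝ) := sum_le_sum fun w' hw' =>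
          (mem_filter.mp hw').2
      _ ≤ ∑ w' ∈ Zl Z T, (com Z T w w' : ℝ) :=
          sum_le_sum_of_subset_of_nonneg (filter_subset _ _) fun _ _ _ => Nat.cast_nonneg _
  have h2 : ∑ w' ∈ Zl Z T, com Z T w w' =
      ∑ b ∈ (Zl Z T).filter (fun b => b + w ∈ Z), ((Zl Z T).filter fun w' => b + w' ∈ Z).card := by
    have : ∀ w', com Z T w w' =
        ∑ b ∈ (Zl Z T).filter (fun b => b + w ∈ Z), if b + w' ∈ Z then 1 else 0 := by
      intro w'
      rw [← card_filter, filter_filter]
      rfl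
    simp only [this]
    rw [sum_comm]
    apply sum_congr rfl
    intro b _
    rw [card_filter]
  have h3 : ∑ b ∈ (Zl Z T).filter (fun b => b + w ∈ Z),
      (((Zl Z T).filter fun w' => b + w' ∈ Z).card : ℝ) ≤ T ^ 2 := by
    have h4 : ∀ b ∈ (Zl Z T).filter (fun b => b + w ∈ Z),
        (((Zl Z T).filter fun w' => b + w' ∈ Z).card : ℝ) ≤ T := by
      intro b hb
      have hb1 := (mem_filter.mp (mem_filter.mp hb).1).2
      refine le_trans ?_ hb1
      have : ((Zl Z T).filter fun w' => b + w' ∈ Z).card ≤ ell Z b := by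
        apply card_le_card
        intro y hy
        obtain ⟨hy1, hy2⟩ := mem_filter.mp hy
        rw [mem_filter]
        exact ⟨(mem_filter.mp hy1).1, by rw [add_comm]; exact hy2⟩
      exact_mod_cast this
    have h5 : (((Zl Z T).filter (fun b => b + w ∈ Z)).card : ℝ) ≤ T := by
      refine le_trans ?_ (mem_filter.mp hw).2
      have : ((Zl Z T).filter (fun b => b + w ∈ Z)).card ≤ ell Z w := by
        apply card_le_card
        intro y hy
        obtain ⟨hy1, hy2⟩ := mem_filter.mp hy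
        rw [mem_filter]
        exact ⟨(mem_filter.mp hy1).1, hy2⟩
      exact_mod_cast this
    calc _ ≤ ∑ b ∈ (Zl Z T).filter (fun b => b + w ∈ Z), T := sum_le_sum h4
      _ = ((Zl Z T).filter (fun b => b + w ∈ Z)).card * T := by rw [sum_const, nsmul_eq_mul]
      _ ≤ T * T := mul_le_mul_of_nonneg_right h5 hT
      _ = T ^ 2 := by ring
  have h6 : (∑ w' ∈ Zl Z T, (com Z T w w' : ℝ)) = ∑ b ∈ (Zl Z T).filter (fun b => b + w ∈ Z),
      (((Zl Z T).filter fun w' => b + w' ∈ Z).card : ℝ) := by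
    have := congrArg (Nat.cast : ℕ → ℝ) h2
    push_cast at this
    exact this
  linarith

/-- bad neighbours -/
noncomputable def bn (v : Ω → Fin 4 → Ω → ZMod 2) (E : Finset Ω) (Z : Finset (Ω → ZMod 2))
    (T τ : ℝ) (k : Fin 4) (f : Ω) : Finset Ω := by
  classical
  exact E.filter fun g => lam v k f = lam v k g ∧ ∃ j, j ≠ k ∧
    (com Z T (v f k + v f j) (v g k + v g j) : ℝ) < τ

/-- good neighbours -/
noncomputable def gn (v : Ω → Fin 4 → Ω → ZMod 2) (E : Finset Ω) (Z : Finset (Ω → ZMod 2))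
    (T τ : ℝ) (k : Fin 4) (f : Ω) : Finset Ω := by
  classical
  exact E.filter fun g => lam v k f = lam v k g ∧ ∀ j, j ≠ k →
    τ ≤ (com Z T (v f k + v f j) (v g k + v g j) : ℝ)

lemma sum_bn (hG : Good v E Z) (hT : 0 ≤ T) {τ : ℝ} (hτ : 0 ≤ τ)
    (hlow : ∀ f ∈ E, ∀ i j, i ≠ j → (ell Z (v f i + v f j) : ℝ) ≤ T) (k : Fin 4) :
    ∑ f ∈ E, ((bn v E Z T τ k f).card : ℝ) ≤ 4 * (Z.card * T ^ 2 * τ) := by
  classical
  have h1 : ∑ f ∈ E, (bn v E Z T τ k f).card ≤
      ∑ j ∈ univ.filter (fun j => j ≠ k), (badP v E Z T τ k j).card := by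
    calc ∑ f ∈ E, (bn v E Z T τ k f).card
        = (E.sigma fun f => bn v E Z T τ k f).card := by rw [card_sigma]
      _ ≤ ((univ.filter (fun j => j ≠ k)).biUnion fun j => badP v E Z T τ k j).card := by
          apply card_le_card_of_injOn (fun x => (x.1, x.2))
          · intro x hx
            have hx' := mem_sigma.mp (mem_coe.mp hx)
            obtain ⟨hx1, hx2⟩ := hx'
            simp only [bn, mem_filter] at hx2
            obtain ⟨hx2, hx3, j, hj, hx4⟩ := hx2
            apply mem_coe.mpr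
            rw [mem_biUnion]
            refine ⟨j, by simp [hj], ?_⟩
            simp only [badP, mem_filter, mem_product]
            exact ⟨⟨hx1, hx2⟩, hx3, hx4⟩
          · intro x _ y _ hxy
            simp only [Prod.mk.injEq] at hxy
            obtain ⟨x1, x2⟩ := x
            obtain ⟨y1, y2⟩ := y
            simp only at hxy
            rw [hxy.1, hxy.2]
      _ ≤ _ := card_biUnion_le
  calc ∑ f ∈ E, ((bn v E Z T τ k f).card : ℝ)
      = ((∑ f ∈ E, (bn v E Z T τ k f).card : ℕ) : ℝ) := by push_cast; rfl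
    _ ≤ ((∑ j ∈ univ.filter (fun j => j ≠ k), (badP v E Z T τ k j).card : ℕ) : ℝ) := by
        exact_mod_cast h1
    _ = ∑ j ∈ univ.filter (fun j => j ≠ k), ((badP v E Z T τ k j).card : ℝ) := by
        push_cast; rfl
    _ ≤ ∑ j ∈ univ.filter (fun j => j ≠ k), (Z.card * T ^ 2 * τ) := by
        refine sum_le_sum fun j hj => ?_
        have hj' : j ≠ k := by simpa using hj
        exact card_badP hG hT hτ hlow k j hj'.symm
    _ = (univ.filter (fun j => j ≠ k)).card * (Z.card * T ^ 2 * τ) := by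
        rw [sum_const, nsmul_eq_mul]
    _ ≤ 4 * (Z.card * T ^ 2 * τ) := by
        apply mul_le_mul_of_nonneg_right _ (by positivity)
        have : (univ.filter (fun j : Fin 4 => j ≠ k)).card ≤ 4 :=
          (card_filter_le _ _).trans (by simp)
        exact_mod_cast this

end Pool.Agent.Work.MP_49e1e0_lc
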