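import Pool.Agent.Work.MP_49e1e0_lc.PathB

set_option autoImplicit false
set_option linter.unusedSectionVars false
set_option linter.deprecated false

namespace Pool.Agent.Work.MP_49e1e0_lc

open Finset Module

variable {Ω : Type*} [Fintype Ω] [DecidableEq Ω]

variable {v : Ω → Fin 4 → Ω → ZMod 2} {E : Finset Ω} {Z : Finset (Ω → ZMod 2)} {T : ℝ}

lemma mem_gn {G : Finset Ω} {τ : ℝ} {k : Fin 4} {f g : Ω} :
    g ∈ gn v G Z T τ k f ↔ g ∈ G ∧ lam v k f = lam v k g ∧ ∀ j, j ≠ k →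
    τ ≤ (com Z T (v f k + v f j) (v g k + v g j) : ℝ) := by
  classical
  simp only [gn, mem_filter]

/-- a good step keeps `w_ij` for `i,j ≠ k` -/
lemma gn_same {G : Finset Ω} {τ : ℝ} {k : Fin 4} {f g : Ω} (h : g ∈ gn v G Z T τ k f)
    {i j : Fin 4} (hi : i ≠ k) (hj : j ≠ k) : v g i + v g j = v f i + v f j :=
  (lam_eq (mem_gn.mp h).2.1 hi hj).symm

/-- and moves `w_kj` inside its cluster -/
lemma gn_clus {G : Finset Ω} {τ : ℝ} {k : Fin 4} {f g : Ω} (h : g ∈ gn v G Z T τ k f)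
    (hZ : ∀ f ∈ G, ∀ i j, i ≠ j → v f i + v f j ∈ Zl Z T)
    {j : Fin 4} (hj : j ≠ k) : v g k + v g j ∈ cl Z T τ (v f k + v f j) := by
  obtain ⟨h1, _, h3⟩ := mem_gn.mp h
  exact mem_filter.mpr ⟨hZ g h1 k j hj.symm, h3 j hj⟩

/-- the fourfold path argument -/
theorem path_walk (G : Finset Ω) (hG : Good v G Z) (hinj : Set.InjOn (ss v) (G : Set Ω))
    (hlow : ∀ f ∈ G, ∀ i j, i ≠ j → (ell Z (v f i + v f j) : ℝ) ≤ T)
    (m τ : ℝ) (hm : 0 ≤ m) (hgn : ∀ f ∈ G, ∀ k, m ≤ ((gn v G Z T τ k f).card : ℝ))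
    (f0 : Ω) (hf0 : f0 ∈ G) :
    ∃ E4 ⊆ G, m ^ 4 ≤ (E4.card : ℝ) ∧ ∀ f ∈ E4, ∀ i j, i ≠ j →
      v f i + v f j ∈ (cl Z T τ (v f0 i + v f0 j)).biUnion (cl Z T τ) := by
  classical
  have hZl : ∀ f ∈ G, ∀ i j, i ≠ j → v f i + v f j ∈ Zl Z T := fun f hf i j hij =>
    mem_filter.mpr ⟨hG.pts f hf i j hij, hlow f hf i j hij⟩
  let g2 := gn v G Z T τ 2
  let g3 := gn v G Z T τ 3
  let g0 := gn v G Z T τ 0
  let g1 := gn v G Z T τ 1
  have hsub : ∀ k f, gn v G Z T τ k f ⊆ G := fun k f g hg => (mem_gn.mp hg).1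
  let E1 := g2 f0
  let E2 := E1.biUnion g3
  let E3 := E2.biUnion g0
  let E4 := E3.biUnion g1
  have hE1G : E1 ⊆ G := hsub 2 f0
  have hbG : ∀ (A : Finset Ω) k, (A.biUnion (gn v G Z T τ k)) ⊆ G := by
    intro A k g hg
    obtain ⟨a, _, ha⟩ := mem_biUnion.mp hg
    exact hsub k a ha
  have hE2G : E2 ⊆ G := hbG _ _
  have hE3G : E3 ⊆ G := hbG _ _
  have hE4G : E4 ⊆ G := hbG _ _
  have ssf : ∀ f, ss v f = (v f 0 + v f 1) + (v f 2 + v f 3) := by
    intro f; simp only [ss]; abel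
  have com2 : ∀ (a b c d : Ω → ZMod 2), a + b = c + d → b + a = d + c := by
    intro a b c d h; rw [add_comm b, add_comm d]; exact h
  -- E1
  have hE1 : ∀ f ∈ E1, v f 0 + v f 1 = v f0 0 + v f0 1 ∧ v f 0 + v f 3 = v f0 0 + v f0 3 := by
    intro f hf
    exact ⟨gn_same hf (by decide) (by decide), gn_same hf (by decide) (by decide)⟩
  have hc1 : m ≤ (E1.card : ℝ) := hgn f0 hf0 2
  -- E2
  have hd2 : ∀ a ∈ E1, ∀ a' ∈ E1, ∀ b, b ∈ g3 a → b ∈ g3 a' → a = a' := by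
    intro a ha a' ha' b hb hb'
    have e1 := hE1 a ha
    have e2 := hE1 a' ha'
    have e3 : v b 0 + v b 2 = v a 0 + v a 2 := gn_same hb (by decide) (by decide)
    have e4 : v b 0 + v b 2 = v a' 0 + v a' 2 := gn_same hb' (by decide) (by decide)
    apply star_det hG (hE1G ha) (hE1G ha') 0
    intro k hk
    have hk' : k = 1 ∨ k = 2 ∨ k = 3 := by revert k; decide
    rcases hk' with h | h | h
    · rw [h, e1.1, e2.1]
    · rw [h, ← e3, ← e4]
    · rw [h, e1.2, e2.2]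
  have hc2 : m ^ 2 ≤ (E2.card : ℝ) := by
    have h1 := grow E1 g3 m (fun a ha => hgn a (hE1G ha) 3) hd2
    have h2 : m * m ≤ E1.card * m := mul_le_mul_of_nonneg_right hc1 hm
    calc m ^ 2 = m * m := by ring
      _ ≤ _ := h2.trans h1
  have hE2 : ∀ f ∈ E2, v f 0 + v f 1 = v f0 0 + v f0 1 := by
    intro f hf
    obtain ⟨a, ha, hfa⟩ := mem_biUnion.mp hf
    have : v f 0 + v f 1 = v a 0 + v a 1 := gn_same hfa (by decide) (by decide)
    rw [this, (hE1 a ha).1]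
  have hss2 : ∀ a ∈ E2, ∀ a' ∈ E2, v a 2 + v a 3 = v a' 2 + v a' 3 → a = a' := by
    intro a ha a' ha' h
    apply hinj (mem_coe.mpr (hE2G ha)) (mem_coe.mpr (hE2G ha'))
    rw [ssf, ssf, hE2 a ha, hE2 a' ha', h]
  -- E3
  have hd3 : ∀ a ∈ E2, ∀ a' ∈ E2, ∀ b, b ∈ g0 a → b ∈ g0 a' → a = a' := by
    intro a ha a' ha' b hb hb'
    apply hss2 a ha a' ha'
    have e3 : v b 2 + v b 3 = v a 2 + v a 3 := gn_same hb (by decide) (by decide)
    have e4 : v b 2 + v b 3 = v a' 2 + v a' 3 := gn_same hb' (by decide) (by decide)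
    rw [← e3, ← e4]
  have hc3 : m ^ 3 ≤ (E3.card : ℝ) := by
    have h1 := grow E2 g0 m (fun a ha => hgn a (hE2G ha) 0) hd3
    have h2 : m ^ 2 * m ≤ E2.card * m := mul_le_mul_of_nonneg_right hc2 hm
    calc m ^ 3 = m ^ 2 * m := by ring
      _ ≤ _ := h2.trans h1
  -- E4
  have hd4 : ∀ a ∈ E3, ∀ a' ∈ E3, ∀ b, b ∈ g1 a → b ∈ g1 a' → a = a' := by
    intro a ha a' ha' b hb hb'
    obtain ⟨c, hc, hac⟩ := mem_biUnion.mp ha
    obtain ⟨c', hc', hac'⟩ := mem_biUnion.mp ha'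
    have e3 : v b 2 + v b 3 = v a 2 + v a 3 := gn_same hb (by decide) (by decide)
    have e4 : v b 2 + v b 3 = v a' 2 + v a' 3 := gn_same hb' (by decide) (by decide)
    have e5 : v a 2 + v a 3 = v c 2 + v c 3 := gn_same hac (by decide) (by decide)
    have e6 : v a' 2 + v a' 3 = v c' 2 + v c' 3 := gn_same hac' (by decide) (by decide)
    have hcc : c = c' := hss2 c hc c' hc' (by rw [← e5, ← e6, ← e3, ← e4])
    subst hcc
    have e7 : v b 2 + v b 0 = v a 2 + v a 0 := gn_same hb (by decide) (by decide)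
    have e8 : v b 2 + v b 0 = v a' 2 + v a' 0 := gn_same hb' (by decide) (by decide)
    have e9 : v a 2 + v a 1 = v c 2 + v c 1 := gn_same hac (by decide) (by decide)
    have e10 : v a' 2 + v a' 1 = v c 2 + v c 1 := gn_same hac' (by decide) (by decide)
    apply star_det hG (hE3G ha) (hE3G ha') 2
    intro k hk
    have hk' : k = 0 ∨ k = 1 ∨ k = 3 := by revert k; decide
    rcases hk' with h | h | h
    · rw [h, ← e7, ← e8]
    · rw [h, e9, e10]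
    · rw [h, ← e3, ← e4]
  have hc4 : m ^ 4 ≤ (E4.card : ℝ) := by
    have h1 := grow E3 g1 m (fun a ha => hgn a (hE3G ha) 1) hd4
    have h2 : m ^ 3 * m ≤ E3.card * m := mul_le_mul_of_nonneg_right hc3 hm
    calc m ^ 4 = m ^ 3 * m := by ring
      _ ≤ _ := h2.trans h1
  refine ⟨E4, hE4G, hc4, ?_⟩
  intro f hf
  obtain ⟨f3, hf3, h4⟩ := mem_biUnion.mp hf
  obtain ⟨f2, hf2, h3⟩ := mem_biUnion.mp hf3
  obtain ⟨f1, hf1, h2⟩ := mem_biUnion.mp hf2
  have h1 : f1 ∈ gn v G Z T τ 2 f0 := hf1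
  have S1 : ∀ i j, i ≠ 2 → j ≠ 2 → v f1 i + v f1 j = v f0 i + v f0 j :=
    fun i j hi hj => gn_same h1 hi hj
  have S2 : ∀ i j, i ≠ 3 → j ≠ 3 → v f2 i + v f2 j = v f1 i + v f1 j :=
    fun i j hi hj => gn_same h2 hi hj
  have S3 : ∀ i j, i ≠ 0 → j ≠ 0 → v f3 i + v f3 j = v f2 i + v f2 j :=
    fun i j hi hj => gn_same h3 hi hj
  have S4 : ∀ i j, i ≠ 1 → j ≠ 1 → v f i + v f j = v f3 i + v f3 j :=
    fun i j hi hj => gn_same h4 hi hj
  have K1 : ∀ j, j ≠ 2 → v f1 2 + v f1 j ∈ cl Z T τ (v f0 2 + v f0 j) :=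
    fun j hj => gn_clus h1 hZl hj
  have K2 : ∀ j, j ≠ 3 → v f2 3 + v f2 j ∈ cl Z T τ (v f1 3 + v f1 j) :=
    fun j hj => gn_clus h2 hZl hj
  have K3 : ∀ j, j ≠ 0 → v f3 0 + v f3 j ∈ cl Z T τ (v f2 0 + v f2 j) :=
    fun j hj => gn_clus h3 hZl hj
  have K4 : ∀ j, j ≠ 1 → v f 1 + v f j ∈ cl Z T τ (v f3 1 + v f3 j) :=
    fun j hj => gn_clus h4 hZl hj
  have r01 : v f 0 + v f 1 ∈ (cl Z T τ (v f0 0 + v f0 1)).biUnion (cl Z T τ) := by
    -- S S C C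
    rw [mem_biUnion]
    refine ⟨v f3 0 + v f3 1, ?_, ?_⟩
    · have := K3 1 (by decide)
      rwa [S2 0 1 (by decide) (by decide), S1 0 1 (by decide) (by decide)] at this
    · have := K4 0 (by decide)
      rwa [add_comm (v f 1), add_comm (v f3 1)] at this
  have r02 : v f 0 + v f 2 ∈ (cl Z T τ (v f0 0 + v f0 2)).biUnion (cl Z T τ) := by
    -- C S C S
    rw [mem_biUnion]
    refine ⟨v f1 0 + v f1 2, ?_, ?_⟩
    · have := K1 0 (by decide)
      rwa [add_comm (v f1 2), add_comm (v f0 2)] at this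
    · have := K3 2 (by decide)
      rwa [S2 0 2 (by decide) (by decide), ← S4 0 2 (by decide) (by decide)] at this
  have r03 : v f 0 + v f 3 ∈ (cl Z T τ (v f0 0 + v f0 3)).biUnion (cl Z T τ) := by
    -- S C C S
    rw [mem_biUnion]
    refine ⟨v f2 0 + v f2 3, ?_, ?_⟩
    · have := K2 0 (by decide)
      rwa [add_comm (v f2 3), add_comm (v f1 3), S1 0 3 (by decide) (by decide)] at this
    · have := K3 3 (by decide)
      rwa [← S4 0 3 (by decide) (by decide)] at this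
  have r12 : v f 1 + v f 2 ∈ (cl Z T τ (v f0 1 + v f0 2)).biUnion (cl Z T τ) := by
    -- C S S C
    rw [mem_biUnion]
    refine ⟨v f1 1 + v f1 2, ?_, ?_⟩
    · have := K1 1 (by decide)
      rwa [add_comm (v f1 2), add_comm (v f0 2)] at this
    · have := K4 2 (by decide)
      rwa [S3 1 2 (by decide) (by decide), S2 1 2 (by decide) (by decide)] at this
  have r13 : v f 1 + v f 3 ∈ (cl Z T τ (v f0 1 + v f0 3)).biUnion (cl Z T τ) := by
    -- S C S C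
    rw [mem_biUnion]
    refine ⟨v f2 1 + v f2 3, ?_, ?_⟩
    · have := K2 1 (by decide)
      rwa [add_comm (v f2 3), add_comm (v f1 3), S1 1 3 (by decide) (by decide)] at this
    · have := K4 3 (by decide)
      rwa [S3 1 3 (by decide) (by decide)] at this
  have r23 : v f 2 + v f 3 ∈ (cl Z T τ (v f0 2 + v f0 3)).biUnion (cl Z T τ) := by
    -- C C S S
    rw [mem_biUnion]
    refine ⟨v f1 2 + v f1 3, K1 3 (by decide), ?_⟩
    have := K2 2 (by decide)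
    rwa [add_comm (v f2 3), add_comm (v f1 3), ← S3 2 3 (by decide) (by decide),
      ← S4 2 3 (by decide) (by decide)] at this
  intro i j hij
  have sw : ∀ a b : Fin 4, v f a + v f b ∈ (cl Z T τ (v f0 a + v f0 b)).biUnion (cl Z T τ) →
      v f b + v f a ∈ (cl Z T τ (v f0 b + v f0 a)).biUnion (cl Z T τ) := by
    intro a b h
    rwa [add_comm (v f b), add_comm (v f0 b)]
  have hcase : (i = 0 ∧ j = 1) ∨ (i = 0 ∧ j = 2) ∨ (i = 0 ∧ j = 3) ∨ (i = 1 ∧ j = 2) ∨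
      (i = 1 ∧ j = 3) ∨ (i = 2 ∧ j = 3) ∨ (j = 0 ∧ i = 1) ∨ (j = 0 ∧ i = 2) ∨ (j = 0 ∧ i = 3) ∨
      (j = 1 ∧ i = 2) ∨ (j = 1 ∧ i = 3) ∨ (j = 2 ∧ i = 3) := by
    revert i j; decide
  rcases hcase with ⟨h, h'⟩ | ⟨h, h'⟩ | ⟨h, h'⟩ | ⟨h, h'⟩ | ⟨h, h'⟩ | ⟨h, h'⟩ | ⟨h, h'⟩ |
    ⟨h, h'⟩ | ⟨h, h'⟩ | ⟨h, h'⟩ | ⟨h, h'⟩ | ⟨h, h'⟩ <;> rw [h, h']
  · exact r01
  · exact r02
  · exact r03
  · exact r12
  · exact r13
  · exact r23
  · exact sw _ _ r01
  · exact sw _ _ r02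
  · exact sw _ _ r03
  · exact sw _ _ r12
  · exact sw _ _ r13
  · exact sw _ _ r23

/-- many low clauses yield a dense small subfamily -/
theorem path_main (hG : Good v E Z) (hinj : Set.InjOn (ss v) (E : Set Ω)) (hT : 0 ≤ T)
    (hlow : ∀ f ∈ E, ∀ i j, i ≠ j → (ell Z (v f i + v f j) : ℝ) ≤ T)
    (θ τ : ℝ) (hθ : 0 < θ) (hτ : 0 < τ)
    (hbig : 4 * θ * (Z.card * T) + 32 * (Z.card * T ^ 2 * τ) / θ < E.card) :
    ∃ E' ⊆ E, ∃ R : Finset (Ω → ZMod 2), R ⊆ Z ∧ Good v E' R ∧ (θ / 2) ^ 4 ≤ (E'.card : ℝ) ∧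
      (R.card : ℝ) ≤ 16 * (T ^ 2 / τ) ^ 2 := by
  classical
  let B : Finset Ω := E.filter fun f => ∃ k, θ / 2 ≤ ((bn v E Z T τ k f).card : ℝ)
  have hB : (B.card : ℝ) * (θ / 2) ≤ 16 * (Z.card * T ^ 2 * τ) := by
    calc (B.card : ℝ) * (θ / 2) = ∑ f ∈ B, θ / 2 := by rw [sum_const, nsmul_eq_mul]
      _ ≤ ∑ f ∈ B, ∑ k : Fin 4, ((bn v E Z T τ k f).card : ℝ) := by
          refine sum_le_sum fun f hf => ?_
          obtain ⟨k, hk⟩ := (mem_filter.mp hf).2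
          exact hk.trans (single_le_sum (f := fun k => ((bn v E Z T τ k f).card : ℝ))
            (fun _ _ => Nat.cast_nonneg _) (mem_univ k))
      _ ≤ ∑ f ∈ E, ∑ k : Fin 4, ((bn v E Z T τ k f).card : ℝ) :=
          sum_le_sum_of_subset_of_nonneg (filter_subset _ _)
            fun _ _ _ => sum_nonneg fun _ _ => Nat.cast_nonneg _
      _ = ∑ k : Fin 4, ∑ f ∈ E, ((bn v E Z T τ k f).card : ℝ) := sum_comm
      _ ≤ ∑ k : Fin 4, 4 * (Z.card * T ^ 2 * τ) :=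
          sum_le_sum fun k _ => sum_bn hG hT hτ.le hlow k
      _ = 16 * (Z.card * T ^ 2 * τ) := by
          rw [sum_const, nsmul_eq_mul]; simp; ring
  have hBc : (B.card : ℝ) ≤ 32 * (Z.card * T ^ 2 * τ) / θ := by
    rw [le_div_iff₀ hθ]; linarith
  have hAc : ((E \ B).card : ℝ) = E.card - B.card := by
    rw [card_sdiff_of_subset (filter_subset _ _), Nat.cast_sub (card_le_card (filter_subset _ _))]
  obtain ⟨G, hGA, hne, hcls⟩ := prune (lam v) (E \ B) θ hθ.le (by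
    have h1 : ∀ k : Fin 4, (((E \ B).image (lam v k)).card : ℝ) ≤ Z.card * T := by
      intro k
      exact card_lam_le (hG.mono sdiff_subset) hT
        (fun f hf => hlow f (sdiff_subset hf)) k
    have h2 : ∑ k : Fin 4, (((E \ B).image (lam v k)).card : ℝ) ≤ ∑ k : Fin 4, Z.card * T :=
      sum_le_sum fun k _ => h1 k
    rw [sum_const, nsmul_eq_mul] at h2
    have h3 := mul_le_mul_of_nonneg_left h2 hθ.le
    simp only [card_univ, Fintype.card_fin] at h3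
    push_cast at h3
    rw [hAc]
    linarith)
  have hGE : G ⊆ E := hGA.trans sdiff_subset
  have hgn : ∀ f ∈ G, ∀ k, θ / 2 ≤ ((gn v G Z T τ k f).card : ℝ) := by
    intro f hf k
    have h1 := hcls f hf k
    have h2 : (G.filter fun g => lam v k f = lam v k g) ⊆ gn v G Z T τ k f ∪ bn v E Z T τ k f := by
      intro g hg
      obtain ⟨hg1, hg2⟩ := mem_filter.mp hg
      rw [mem_union]
      by_cases hb : ∀ j, j ≠ k → τ ≤ (com Z T (v f k + v f j) (v g k + v g j) : ℝ)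
      · left; exact mem_gn.mpr ⟨hg1, hg2, hb⟩
      · right
        push Not at hb
        obtain ⟨j, hj, hj2⟩ := hb
        simp only [bn, mem_filter]
        exact ⟨hGE hg1, hg2, j, hj, hj2⟩
    have h3 : ((G.filter fun g => lam v k f = lam v k g).card : ℝ) ≤
        (gn v G Z T τ k f).card + (bn v E Z T τ k f).card := by
      exact_mod_cast (card_le_card h2).trans (card_union_le _ _)
    have h4 : ((bn v E Z T τ k f).card : ℝ) < θ / 2 := by
      by_contra h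
      rw [not_lt] at h
      obtain ⟨hfE, hfB⟩ := mem_sdiff.mp (hGA hf)
      exact hfB (mem_filter.mpr ⟨hfE, k, h⟩)
    linarith
  obtain ⟨f0, hf0⟩ := hne
  obtain ⟨E4, hE4, hc4, hR⟩ := path_walk G (hG.mono hGE)
    (hinj.mono (coe_subset.mpr hGE)) (fun f hf => hlow f (hGE hf)) (θ / 2) τ (by positivity)
    hgn f0 hf0
  let R : Finset (Ω → ZMod 2) := (univ.filter fun x : Fin 4 × Fin 4 => x.1 ≠ x.2).biUnion fun x =>
    (cl Z T τ (v f0 x.1 + v f0 x.2)).biUnion (cl Z T τ)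
  have hRZ : R ⊆ Z := by
    intro z hz
    obtain ⟨_, _, h2⟩ := mem_biUnion.mp hz
    obtain ⟨_, _, h3⟩ := mem_biUnion.mp h2
    exact (mem_filter.mp (mem_filter.mp h3).1).1
  refine ⟨E4, hE4.trans hGE, R, hRZ, ⟨?_, ?_⟩, hc4, ?_⟩
  · exact (hG.mono (hE4.trans hGE)).iso
  · intro f hf i j hij
    rw [mem_biUnion]
    exact ⟨(i, j), by simp [hij], hR f hf i j hij⟩
  · have hc : ∀ w ∈ Zl Z T, (((cl Z T τ w).biUnion (cl Z T τ)).card : ℝ) ≤ (T ^ 2 / τ) ^ 2 := by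
      intro w hw
      have h1 : ((cl Z T τ w).biUnion (cl Z T τ)).card ≤ ∑ w' ∈ cl Z T τ w, (cl Z T τ w').card :=
        card_biUnion_le
      calc (((cl Z T τ w).biUnion (cl Z T τ)).card : ℝ)
          ≤ ((∑ w' ∈ cl Z T τ w, (cl Z T τ w').card : ℕ) : ℝ) := by exact_mod_cast h1
        _ = ∑ w' ∈ cl Z T τ w, ((cl Z T τ w').card : ℝ) := by push_cast; rfl
        _ ≤ ∑ w' ∈ cl Z T τ w, (T ^ 2 / τ) :=
            sum_le_sum fun w' hw' => card_cl hτ hT (mem_filter.mp hw').1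
        _ = (cl Z T τ w).card * (T ^ 2 / τ) := by rw [sum_const, nsmul_eq_mul]
        _ ≤ (T ^ 2 / τ) * (T ^ 2 / τ) :=
            mul_le_mul_of_nonneg_right (card_cl hτ hT hw) (by positivity)
        _ = _ := by ring
    have h1 : (R.card : ℝ) ≤ ∑ x ∈ (univ.filter fun x : Fin 4 × Fin 4 => x.1 ≠ x.2),
        (((cl Z T τ (v f0 x.1 + v f0 x.2)).biUnion (cl Z T τ)).card : ℝ) := by
      have : R.card ≤ ∑ x ∈ (univ.filter fun x : Fin 4 × Fin 4 => x.1 ≠ x.2),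
        ((cl Z T τ (v f0 x.1 + v f0 x.2)).biUnion (cl Z T τ)).card := card_biUnion_le
      exact_mod_cast this
    have h2 : ∑ x ∈ (univ.filter fun x : Fin 4 × Fin 4 => x.1 ≠ x.2),
        (((cl Z T τ (v f0 x.1 + v f0 x.2)).biUnion (cl Z T τ)).card : ℝ) ≤
        ∑ x ∈ (univ.filter fun x : Fin 4 × Fin 4 => x.1 ≠ x.2), (T ^ 2 / τ) ^ 2 := by
      refine sum_le_sum fun x hx => ?_
      have hx' : x.1 ≠ x.2 := by simpa using hx
      exact hc _ (mem_filter.mpr ⟨hG.pts f0 (hGE hf0) _ _ hx', hlow f0 (hGE hf0) _ _ hx'⟩)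
    rw [sum_const, nsmul_eq_mul] at h2
    have h3 : ((univ.filter fun x : Fin 4 × Fin 4 => x.1 ≠ x.2).card : ℝ) ≤ 16 := by
      have : (univ.filter fun x : Fin 4 × Fin 4 => x.1 ≠ x.2).card ≤ 16 := by decide
      exact_mod_cast this
    have h4 : ((univ.filter fun x : Fin 4 × Fin 4 => x.1 ≠ x.2).card : ℝ) * (T ^ 2 / τ) ^ 2 ≤
        16 * (T ^ 2 / τ) ^ 2 := mul_le_mul_of_nonneg_right h3 (by positivity)
    linarith

end Pool.Agent.Work.MP_49e1e0_lc
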