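import Pool.Agent.Work.MP_49e1e0_lc.Cubic

set_option autoImplicit false
set_option linter.unusedSectionVars false

namespace Pool.Agent.Work.MP_49e1e0_lc

open Finset Module

section Sums

variable {κ : Type*} [Fintype κ] [LinearOrder κ]

lemma sum_distinct2 (G : κ → κ → ZMod 2) :
    (∑ i, ∑ j, if i ≠ j then G i j else 0) = ∑ a, ∑ b, if a < b then G a b + G b a else 0 := by
  have e1 : (∑ a, ∑ b, if a < b then G b a else 0) = ∑ i, ∑ j, if j < i then G i j else 0 :=
    sum_comm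
  have e2 : (∑ a, ∑ b, if a < b then G a b + G b a else 0) =
      (∑ a, ∑ b, if a < b then G a b else 0) + ∑ a, ∑ b, if a < b then G b a else 0 := by
    rw [← sum_add_distrib]
    refine sum_congr rfl fun a _ => ?_
    rw [← sum_add_distrib]
    refine sum_congr rfl fun b _ => ?_
    split_ifs <;> simp
  rw [e2, e1, ← sum_add_distrib]
  refine sum_congr rfl fun i _ => ?_
  rw [← sum_add_distrib]
  refine sum_congr rfl fun j _ => ?_
  rcases lt_trichotomy i j with h | h | h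
  · simp [h, h.ne, h.le]
  · simp [h]
  · simp [h, h.ne', h.le]

lemma sum_distinct3 (G : κ → κ → κ → ZMod 2) :
    (∑ i, ∑ j, ∑ l, if i ≠ j ∧ j ≠ l ∧ i ≠ l then G i j l else 0) =
      ∑ a, ∑ b, ∑ c, if a < b ∧ b < c then
        G a b c + G a c b + G b a c + G b c a + G c a b + G c b a else 0 := by
  have e1 : (∑ a, ∑ b, ∑ c, if a < b ∧ b < c then G a c b else 0) =
      ∑ i, ∑ j, ∑ l, if i < l ∧ l < j then G i j l else 0 :=
    sum_congr rfl fun a _ => sum_comm
  have e2 : (∑ a, ∑ b, ∑ c, if a < b ∧ b < c then G b a c else 0) =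
      ∑ i, ∑ j, ∑ l, if j < i ∧ i < l then G i j l else 0 := sum_comm
  have e3 : (∑ a, ∑ b, ∑ c, if a < b ∧ b < c then G b c a else 0) =
      ∑ i, ∑ j, ∑ l, if l < i ∧ i < j then G i j l else 0 := by
    rw [sum_comm]
    exact sum_congr rfl fun b _ => sum_comm
  have e4 : (∑ a, ∑ b, ∑ c, if a < b ∧ b < c then G c a b else 0) =
      ∑ i, ∑ j, ∑ l, if j < l ∧ l < i then G i j l else 0 := by
    rw [sum_congr rfl fun a _ => sum_comm]
    exact sum_comm
  have e5 : (∑ a, ∑ b, ∑ c, if a < b ∧ b < c then G c b a else 0) =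
      ∑ i, ∑ j, ∑ l, if l < j ∧ j < i then G i j l else 0 := by
    rw [sum_congr rfl fun a _ => sum_comm, sum_comm]
    exact sum_congr rfl fun c _ => sum_comm
  have e0 : (∑ a, ∑ b, ∑ c, if a < b ∧ b < c then
        G a b c + G a c b + G b a c + G b c a + G c a b + G c b a else 0) =
      (∑ a, ∑ b, ∑ c, if a < b ∧ b < c then G a b c else 0) +
      (∑ a, ∑ b, ∑ c, if a < b ∧ b < c then G a c b else 0) +
      (∑ a, ∑ b, ∑ c, if a < b ∧ b < c then G b a c else 0) +
      (∑ a, ∑ b, ∑ c, if a < b ∧ b < c then G b c a else 0) +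
      (∑ a, ∑ b, ∑ c, if a < b ∧ b < c then G c a b else 0) +
      (∑ a, ∑ b, ∑ c, if a < b ∧ b < c then G c b a else 0) := by
    simp only [← sum_add_distrib]
    refine sum_congr rfl fun a _ => sum_congr rfl fun b _ => sum_congr rfl fun c _ => ?_
    split_ifs <;> simp
  rw [e0, e1, e2, e3, e4, e5]
  simp only [← sum_add_distrib]
  refine sum_congr rfl fun i _ => sum_congr rfl fun j _ => sum_congr rfl fun l _ => ?_
  rcases lt_trichotomy i j with h | h | h
  · rcases lt_trichotomy j l with h' | h' | h'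
    · have h'' := h.trans h'
      simp [h, h.ne, h', h'.ne, h'', h''.ne, h.not_gt, h'.not_gt, h''.not_gt]
    · subst h'
      simp [h, h.ne, h.not_gt]
    · rcases lt_trichotomy i l with h3 | h3 | h3
      · simp [h, h.ne, h', h'.ne', h3, h3.ne, h.not_gt, h'.not_gt, h3.not_gt]
      · subst h3
        simp [h, h.ne, h.not_gt]
      · simp [h, h.ne, h', h'.ne', h3, h3.ne', h.not_gt, h'.not_gt, h3.not_gt]
  · subst h
    rcases lt_trichotomy i l with h3 | h3 | h3
    · simp [h3.not_gt]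
    · simp [h3]
    · simp [h3.not_gt]
  · rcases lt_trichotomy j l with h' | h' | h'
    · rcases lt_trichotomy i l with h3 | h3 | h3
      · simp [h, h.ne', h', h'.ne, h3, h3.ne, h.not_gt, h'.not_gt, h3.not_gt]
      · subst h3
        simp [h, h.ne', h.not_gt]
      · simp [h, h.ne', h', h'.ne, h3, h3.ne', h.not_gt, h'.not_gt, h3.not_gt]
    · subst h'
      simp [h, h.ne', h.not_gt]
    · have h'' := h'.trans h
      simp [h, h.ne', h', h'.ne', h'', h''.ne', h.not_gt, h'.not_gt, h''.not_gt]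

end Sums

section Forms

variable {κ : Type*} [Fintype κ] [LinearOrder κ] {Ω : Type*}

/-- the linear combination of the functions `ξ i` -/
def ev (ξ : κ → Ω → ZMod 2) (c : κ → ZMod 2) : Ω → ZMod 2 := fun e => ∑ i, c i * ξ i e

lemma ev_add (ξ : κ → Ω → ZMod 2) (c d : κ → ZMod 2) : ev ξ (c + d) = ev ξ c + ev ξ d := by
  funext e
  simp only [ev, Pi.add_apply, add_mul, sum_add_distrib]

/-- a quadratic form in the `ξ i` -/
def Q2 (ξ : κ → Ω → ZMod 2) : (κ ×ₗ κ → ZMod 2) →ₗ[ZMod 2] (Ω → ZMod 2) where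
  toFun t := fun e => ∑ a, ∑ b, if a < b then t (toLex (a, b)) * (ξ a e * ξ b e) else 0
  map_add' := by
    intro s t
    funext e
    simp only [Pi.add_apply, ← sum_add_distrib]
    refine sum_congr rfl fun a _ => sum_congr rfl fun b _ => ?_
    split_ifs
    · ring
    · simp
  map_smul' := by
    intro r t
    funext e
    simp only [Pi.smul_apply, smul_eq_mul, RingHom.id_apply, mul_sum]
    refine sum_congr rfl fun a _ => sum_congr rfl fun b _ => ?_
    split_ifs
    · ring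
    · simp

/-- a cubic form in the `ξ i` -/
def Q3 (ξ : κ → Ω → ZMod 2) : (κ ×ₗ (κ ×ₗ κ) → ZMod 2) →ₗ[ZMod 2] (Ω → ZMod 2) where
  toFun t := fun e => ∑ a, ∑ b, ∑ c, if a < b ∧ b < c then
    t (mk3 a b c) * (ξ a e * ξ b e * ξ c e) else 0
  map_add' := by
    intro s t
    funext e
    simp only [Pi.add_apply, ← sum_add_distrib]
    refine sum_congr rfl fun a _ => sum_congr rfl fun b _ => sum_congr rfl fun c _ => ?_
    split_ifs
    · ring
    · simp
  map_smul' := by
    intro r t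
    funext e
    simp only [Pi.smul_apply, smul_eq_mul, RingHom.id_apply, mul_sum]
    refine sum_congr rfl fun a _ => sum_congr rfl fun b _ => sum_congr rfl fun c _ => ?_
    split_ifs
    · ring
    · simp

lemma zmod2_mul_self (x : ZMod 2) : x * x = x := by
  revert x; decide

/-- product of two linear forms -/
lemma ev_mul_ev (ξ : κ → Ω → ZMod 2) (p q : κ → ZMod 2) :
    ev ξ p * ev ξ q = Q2 ξ (sq p + sq q + sq (p + q)) + ev ξ (p * q) := by
  funext e
  have h1 : (ev ξ p * ev ξ q) e = ∑ i, ∑ j, (p i * ξ i e) * (q j * ξ j e) := by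
    simp only [Pi.mul_apply, ev, sum_mul_sum]
  have h2 : (∑ i, ∑ j, (p i * ξ i e) * (q j * ξ j e)) =
      (∑ i, ∑ j, if i ≠ j then (p i * ξ i e) * (q j * ξ j e) else 0) +
      ∑ i, (p i * ξ i e) * (q i * ξ i e) := by
    rw [← sum_add_distrib]
    refine sum_congr rfl fun i _ => ?_
    have : (p i * ξ i e) * (q i * ξ i e) = ∑ j, if i = j then (p i * ξ i e) * (q j * ξ j e)
        else 0 := by
      rw [sum_ite_eq]; simp
    rw [this, ← sum_add_distrib]
    refine sum_congr rfl fun j _ => ?_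
    by_cases hij : i = j <;> simp [hij]
  rw [h1, h2, sum_distinct2, Pi.add_apply]
  congr 1
  · show _ = ∑ a, ∑ b, if a < b then (sq p + sq q + sq (p + q)) (toLex (a, b)) *
      (ξ a e * ξ b e) else 0
    refine sum_congr rfl fun a _ => sum_congr rfl fun b _ => ?_
    split_ifs
    · simp only [Pi.add_apply, sq, ofLex_toLex]
      have h2 : (2 : ZMod 2) = 0 := by decide
      linear_combination (-(p a * p b + q a * q b) * (ξ a e * ξ b e)) * h2
    · rfl
  · simp only [ev, Pi.mul_apply]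
    refine sum_congr rfl fun i _ => ?_
    have := zmod2_mul_self (ξ i e)
    linear_combination (p i * q i) * this

/-- span of products `ξ i * ξ j` with `i` in `Hi` -/
def SH (ξ : κ → Ω → ZMod 2) (Hi : Finset κ) : Submodule (ZMod 2) (Ω → ZMod 2) :=
  Submodule.span (ZMod 2) (Set.range fun x : Hi × κ => ξ x.1 * ξ x.2)

/-- span of `1` and the `ξ i` -/
def SL (ξ : κ → Ω → ZMod 2) : Submodule (ZMod 2) (Ω → ZMod 2) :=
  Submodule.span (ZMod 2) (Set.range fun x : Option κ => x.elim 1 ξ)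

lemma mem_SH (ξ : κ → Ω → ZMod 2) (Hi : Finset κ) {i : κ} (hi : i ∈ Hi) (j : κ) :
    ξ i * ξ j ∈ SH ξ Hi := Submodule.subset_span ⟨(⟨i, hi⟩, j), rfl⟩

lemma one_mem_SL (ξ : κ → Ω → ZMod 2) : (1 : Ω → ZMod 2) ∈ SL ξ :=
  Submodule.subset_span ⟨none, rfl⟩

lemma ev_eq_sum (ξ : κ → Ω → ZMod 2) (c : κ → ZMod 2) : ev ξ c = ∑ i, c i • ξ i := by
  funext e
  simp [ev, Finset.sum_apply]

lemma ev_mem_SL (ξ : κ → Ω → ZMod 2) (c : κ → ZMod 2) : ev ξ c ∈ SL ξ := by
  rw [ev_eq_sum]
  exact Submodule.sum_mem _ fun i _ => Submodule.smul_mem _ _ (Submodule.subset_span ⟨some i, rfl⟩)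

lemma ev_mul_ev_mem_SH (ξ : κ → Ω → ZMod 2) (Hi : Finset κ) {h : κ → ZMod 2}
    (hh : ∀ i, h i ≠ 0 → i ∈ Hi) (p : κ → ZMod 2) : ev ξ h * ev ξ p ∈ SH ξ Hi := by
  have : ev ξ h * ev ξ p = ∑ i, ∑ j, (h i * p j) • (ξ i * ξ j) := by
    rw [ev_eq_sum, ev_eq_sum, sum_mul_sum]
    refine sum_congr rfl fun i _ => sum_congr rfl fun j _ => ?_
    rw [smul_mul_smul_comm]
  rw [this]
  refine Submodule.sum_mem _ fun i _ => Submodule.sum_mem _ fun j _ => ?_
  by_cases hi : h i = 0
  · rw [hi, zero_mul, zero_smul]; exact Submodule.zero_mem _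
  · exact Submodule.smul_mem _ _ (mem_SH ξ Hi (hh i hi) j)

/-- product of three linear forms: cubic part plus products with an index in `Hi` -/
lemma ev_mul3 (ξ : κ → Ω → ZMod 2) (Hi : Finset κ) {h : κ → ZMod 2}
    (hh : ∀ i, h i ≠ 0 → i ∈ Hi) (p q : κ → ZMod 2) :
    ∃ r ∈ SH ξ Hi, ev ξ h * ev ξ p * ev ξ q = Q3 ξ (tri h p q) + r := by
  classical
  refine ⟨∑ i, ∑ j, ∑ l, if i ≠ j ∧ j ≠ l ∧ i ≠ l then 0 else
    (h i * p j * q l) • (ξ i * ξ j * ξ l), ?_, ?_⟩
  · refine Submodule.sum_mem _ fun i _ => Submodule.sum_mem _ fun j _ =>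
      Submodule.sum_mem _ fun l _ => ?_
    split_ifs with hc
    · exact Submodule.zero_mem _
    · by_cases hi : h i = 0
      · rw [hi, zero_mul, zero_mul, zero_smul]; exact Submodule.zero_mem _
      · apply Submodule.smul_mem
        have hi' := hh i hi
        have hsq : ∀ x : Ω → ZMod 2, x * x = x := fun x => by
          funext e; exact zmod2_mul_self _
        by_cases h1 : i = j
        · subst h1
          rw [hsq]; exact mem_SH ξ Hi hi' l
        · by_cases h2 : j = l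
          · subst h2
            rw [mul_assoc, hsq]; exact mem_SH ξ Hi hi' j
          · have h3 : i = l := by
              by_contra h3; exact hc ⟨h1, h2, h3⟩
            subst h3
            rw [mul_comm (ξ i) (ξ j), mul_assoc, hsq, mul_comm]; exact mem_SH ξ Hi hi' j
  · funext e
    have h1 : (ev ξ h * ev ξ p * ev ξ q) e =
        ∑ i, ∑ j, ∑ l, (h i * ξ i e) * (p j * ξ j e) * (q l * ξ l e) := by
      simp only [Pi.mul_apply, ev, sum_mul_sum]
      refine sum_congr rfl fun i _ => ?_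
      rw [sum_comm]
      refine sum_congr rfl fun j _ => ?_
      rw [sum_mul]
    have h2 : (∑ i, ∑ j, ∑ l, (h i * ξ i e) * (p j * ξ j e) * (q l * ξ l e)) =
        (∑ i, ∑ j, ∑ l, if i ≠ j ∧ j ≠ l ∧ i ≠ l then
          (h i * ξ i e) * (p j * ξ j e) * (q l * ξ l e) else 0) +
        ∑ i, ∑ j, ∑ l, if i ≠ j ∧ j ≠ l ∧ i ≠ l then 0 else
          (h i * p j * q l) * (ξ i e * ξ j e * ξ l e) := by
      simp only [← sum_add_distrib]
      refine sum_congr rfl fun i _ => sum_congr rfl fun j _ => sum_congr rfl fun l _ => ?_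
      split_ifs
      · simp
      · ring
    rw [h1, h2, sum_distinct3, Pi.add_apply]
    congr 1
    · show _ = ∑ a, ∑ b, ∑ c, if a < b ∧ b < c then tri h p q (mk3 a b c) *
        (ξ a e * ξ b e * ξ c e) else 0
      refine sum_congr rfl fun a _ => sum_congr rfl fun b _ => sum_congr rfl fun c _ => ?_
      split_ifs
      · rw [tri_mk3]; ring
      · rfl
    · simp only [Finset.sum_apply]
      refine sum_congr rfl fun i _ => sum_congr rfl fun j _ => sum_congr rfl fun l _ => ?_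
      split_ifs
      · rfl
      · simp

/-- The rank bound. -/
theorem rank_bound [Fintype Ω] [DecidableEq Ω] (ξ : κ → Ω → ZMod 2) (E : Finset Ω)
    (Hi : Finset κ) (Zc : Finset (κ → ZMod 2)) (h p q : Ω → κ → ZMod 2)
    (hh : ∀ f ∈ E, ∀ i, h f i ≠ 0 → i ∈ Hi)
    (hZ : ∀ f ∈ E, h f ∈ Zc ∧ p f ∈ Zc ∧ q f ∈ Zc ∧ h f + p f ∈ Zc ∧ h f + q f ∈ Zc ∧
      p f + q f ∈ Zc)
    (iso : ∀ e ∈ E, ∀ f ∈ E, (1 + ev ξ (h f) e) * (1 + ev ξ (p f) e) * (1 + ev ξ (q f) e) =
      if e = f then 1 else 0) :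
    (E.card : ℝ) ≤ Zc.card * Real.sqrt Zc.card + Zc.card + (Fintype.card κ + 1) +
      Hi.card * Fintype.card κ := by
  classical
  let A : Submodule (ZMod 2) (κ ×ₗ κ → ZMod 2) :=
    Submodule.span (ZMod 2) (Set.range fun z : Zc => sq (z : κ → ZMod 2))
  let T : Submodule (ZMod 2) (κ ×ₗ (κ ×ₗ κ) → ZMod 2) :=
    Submodule.span (ZMod 2) (Set.range fun f : E => tri (h f) (p f) (q f))
  have hsqA : ∀ z ∈ Zc, sq z ∈ A := fun z hz => Submodule.subset_span ⟨⟨z, hz⟩, rfl⟩
  have hA : finrank (ZMod 2) A ≤ Zc.card := by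
    have := finrank_range_le_card (R := ZMod 2) (fun z : Zc => sq (z : κ → ZMod 2))
    simpa [Set.finrank] using this
  have hTs : T ≤ symm3 := by
    apply Submodule.span_le.mpr
    rintro _ ⟨f, rfl⟩
    exact tri_mem_symm3 _ _ _
  have hTA : ∀ t ∈ T, ∀ a, del a t ∈ A := by
    intro t ht a
    have : T ≤ A.comap (del a) := by
      apply Submodule.span_le.mpr
      rintro _ ⟨f, rfl⟩
      show del a (tri (h f) (p f) (q f)) ∈ A
      obtain ⟨h1, h2, h3, h4, h5, h6⟩ := hZ f f.2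
      rw [del_tri]
      refine A.add_mem (A.add_mem (A.smul_mem _ ?_) (A.smul_mem _ ?_)) (A.smul_mem _ ?_)
      · exact A.add_mem (A.add_mem (hsqA _ h2) (hsqA _ h3)) (hsqA _ h6)
      · exact A.add_mem (A.add_mem (hsqA _ h1) (hsqA _ h3)) (hsqA _ h5)
      · exact A.add_mem (A.add_mem (hsqA _ h1) (hsqA _ h2)) (hsqA _ h4)
    exact this ht
  have hT := finrank_cubic T A hTs hTA Zc.card hA
  let U : Submodule (ZMod 2) (Ω → ZMod 2) := T.map (Q3 ξ) ⊔ A.map (Q2 ξ) ⊔ SL ξ ⊔ SH ξ Hi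
  have hU1 : T.map (Q3 ξ) ≤ U := (le_sup_left.trans le_sup_left).trans le_sup_left
  have hU2 : A.map (Q2 ξ) ≤ U := (le_sup_right.trans le_sup_left).trans le_sup_left
  have hU3 : SL ξ ≤ U := le_sup_right.trans le_sup_left
  have hU4 : SH ξ Hi ≤ U := le_sup_right
  -- the product functions lie in U
  have hmem : ∀ f ∈ E, (1 + ev ξ (h f)) * (1 + ev ξ (p f)) * (1 + ev ξ (q f)) ∈ U := by
    intro f hf
    obtain ⟨h1, h2, h3, h4, h5, h6⟩ := hZ f hf
    obtain ⟨r, hr, hr'⟩ := ev_mul3 ξ Hi (hh f hf) (p f) (q f)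
    have e1 : (1 + ev ξ (h f)) * (1 + ev ξ (p f)) * (1 + ev ξ (q f)) =
        1 + ev ξ (p f) + ev ξ (q f) + (Q2 ξ (sq (p f) + sq (q f) + sq (p f + q f)) +
          ev ξ (p f * q f)) + ev ξ (h f) + ev ξ (h f) * ev ξ (p f) + ev ξ (h f) * ev ξ (q f) +
          (Q3 ξ (tri (h f) (p f) (q f)) + r) := by
      rw [← ev_mul_ev, ← hr']; ring
    rw [e1]
    refine U.add_mem (U.add_mem (U.add_mem (U.add_mem (U.add_mem (U.add_mem (U.add_mem ?_ ?_)
      ?_) (U.add_mem ?_ ?_)) ?_) ?_) ?_) (U.add_mem ?_ ?_)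
    · exact hU3 (one_mem_SL ξ)
    · exact hU3 (ev_mem_SL ξ _)
    · exact hU3 (ev_mem_SL ξ _)
    · apply hU2
      exact Submodule.mem_map_of_mem (A.add_mem (A.add_mem (hsqA _ h2) (hsqA _ h3)) (hsqA _ h6))
    · exact hU3 (ev_mem_SL ξ _)
    · exact hU3 (ev_mem_SL ξ _)
    · exact hU4 (ev_mul_ev_mem_SH ξ Hi (hh f hf) _)
    · exact hU4 (ev_mul_ev_mem_SH ξ Hi (hh f hf) _)
    · apply hU1
      exact Submodule.mem_map_of_mem (Submodule.subset_span ⟨⟨f, hf⟩, rfl⟩)
    · exact hU4 hr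
  -- restriction to E
  let res : (Ω → ZMod 2) →ₗ[ZMod 2] (E → ZMod 2) :=
    { toFun := fun g e => g e
      map_add' := by intro a b; rfl
      map_smul' := by intro a b; rfl }
  have htop : U.map res = ⊤ := by
    rw [eq_top_iff]
    intro g _
    have hg : g = ∑ f : E, g f • res ((1 + ev ξ (h f)) * (1 + ev ξ (p f)) * (1 + ev ξ (q f))) := by
      funext e
      rw [Finset.sum_apply]
      have : ∀ f : E, (g f • res ((1 + ev ξ (h f)) * (1 + ev ξ (p f)) * (1 + ev ξ (q f)))) e =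
          if e = f then g f else 0 := by
        intro f
        have h1 : (res ((1 + ev ξ (h f)) * (1 + ev ξ (p f)) * (1 + ev ξ (q f)))) e =
          (1 + ev ξ (h f) e) * (1 + ev ξ (p f) e) * (1 + ev ξ (q f) e) := rfl
        rw [Pi.smul_apply, h1, iso e e.2 f f.2, smul_eq_mul]
        by_cases hef : e = f
        · simp [hef]
        · have : (e : Ω) ≠ f := fun h => hef (Subtype.ext h)
          simp [hef, this]
      rw [sum_congr rfl fun f _ => this f]
      simp
    rw [hg]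
    exact Submodule.sum_mem _ fun f _ => Submodule.smul_mem _ _
      (Submodule.mem_map_of_mem (hmem f f.2))
  have hcard : E.card ≤ finrank (ZMod 2) U := by
    have h1 : finrank (ZMod 2) (U.map res) = E.card := by
      rw [htop, finrank_top]; simp
    rw [← h1]
    exact Submodule.finrank_map_le res U
  have hSL : finrank (ZMod 2) (SL ξ) ≤ Fintype.card κ + 1 := by
    have h1 : (Set.range fun x : Option κ => x.elim 1 ξ).finrank (ZMod 2) ≤
        Fintype.card (Option κ) := finrank_range_le_card _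
    rw [Fintype.card_option] at h1
    exact h1
  have hSH : finrank (ZMod 2) (SH ξ Hi) ≤ Hi.card * Fintype.card κ := by
    have h1 : (Set.range fun x : Hi × κ => ξ x.1 * ξ x.2).finrank (ZMod 2) ≤
        Fintype.card (Hi × κ) := finrank_range_le_card _
    rw [Fintype.card_prod, Fintype.card_coe] at h1
    exact h1
  have hU : finrank (ZMod 2) U ≤ finrank (ZMod 2) T + Zc.card + (Fintype.card κ + 1) +
      Hi.card * Fintype.card κ := by
    have a1 := Submodule.finrank_add_le_finrank_add_finrank (T.map (Q3 ξ)) (A.map (Q2 ξ))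
    have a2 := Submodule.finrank_add_le_finrank_add_finrank (T.map (Q3 ξ) ⊔ A.map (Q2 ξ)) (SL ξ)
    have a3 := Submodule.finrank_add_le_finrank_add_finrank
      (T.map (Q3 ξ) ⊔ A.map (Q2 ξ) ⊔ SL ξ) (SH ξ Hi)
    have a4 := Submodule.finrank_map_le (Q3 ξ) T
    have a5 := Submodule.finrank_map_le (Q2 ξ) A
    show finrank (ZMod 2) ↥(T.map (Q3 ξ) ⊔ A.map (Q2 ξ) ⊔ SL ξ ⊔ SH ξ Hi) ≤ _
    omega
  calc (E.card : ℝ) ≤ ((finrank (ZMod 2) T + Zc.card + (Fintype.card κ + 1) +
        Hi.card * Fintype.card κ : ℕ) : ℝ) := by exact_mod_cast hcard.trans hU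
    _ = finrank (ZMod 2) T + Zc.card + (Fintype.card κ + 1) + Hi.card * Fintype.card κ := by
        push_cast; ring
    _ ≤ _ := by linarith

end Forms

end Pool.Agent.Work.MP_49e1e0_lc
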