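import Pool.Agent.Work.MP_49e1e0_lc.RankBound
import Pool.Agent.Work.MP_49e1e0_lc.Cube

set_option autoImplicit false
set_option linter.unusedSectionVars false

namespace Pool.Agent.Work.MP_49e1e0_lc

open Finset Module

variable {Ω : Type*} [Fintype Ω] [DecidableEq Ω]

/-- The rank bound, for vectors instead of coordinates. -/
theorem rank_bound_vec (E : Finset Ω) (I Ih Z1 : Finset (Ω → ZMod 2)) (hIh : Ih ⊆ I)
    (hI : LinearIndepOn (ZMod 2) id (I : Set (Ω → ZMod 2)))
    (hZ1 : ∀ z ∈ Z1, z ∈ Submodule.span (ZMod 2) (I : Set (Ω → ZMod 2)))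
    (h p q : Ω → Ω → ZMod 2)
    (hh : ∀ f ∈ E, h f ∈ Submodule.span (ZMod 2) (Ih : Set (Ω → ZMod 2)))
    (hZ : ∀ f ∈ E, h f ∈ Z1 ∧ p f ∈ Z1 ∧ q f ∈ Z1 ∧ h f + p f ∈ Z1 ∧ h f + q f ∈ Z1 ∧
      p f + q f ∈ Z1)
    (iso : ∀ e ∈ E, ∀ f ∈ E, (1 + h f e) * (1 + p f e) * (1 + q f e) =
      if e = f then 1 else 0) :
    (E.card : ℝ) ≤ Z1.card * Real.sqrt Z1.card + Z1.card + (I.card + 1) +
      Ih.card * I.card := by
  classical
  let ξ : Fin I.card → Ω → ZMod 2 := fun i => (I.equivFin.symm i : Ω → ZMod 2)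
  have hξI : ∀ i, ξ i ∈ I := fun i => (I.equivFin.symm i).2
  have hrange : Set.range ξ = (I : Set (Ω → ZMod 2)) := by
    ext x
    constructor
    · rintro ⟨i, rfl⟩; exact hξI i
    · intro hx
      exact ⟨I.equivFin ⟨x, hx⟩, by simp [ξ]⟩
  have hli : LinearIndependent (ZMod 2) ξ := by
    have h1 : LinearIndependent (ZMod 2) (fun x : (I : Set (Ω → ZMod 2)) => (x : Ω → ZMod 2)) := hI
    have h2 : ξ = (fun x : (I : Set (Ω → ZMod 2)) => (x : Ω → ZMod 2)) ∘ I.equivFin.symm := rfl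
    rw [h2]
    exact h1.comp _ I.equivFin.symm.injective
  have hevlc : ∀ c, ev ξ c = Fintype.linearCombination (ZMod 2) ξ c := by
    intro c
    rw [ev_eq_sum, Fintype.linearCombination_apply]
  have hinj : Function.Injective (ev ξ) := by
    have := hli.fintypeLinearCombination_injective
    intro c d hcd
    rw [hevlc, hevlc] at hcd
    exact this hcd
  have hex : ∀ z ∈ Submodule.span (ZMod 2) (I : Set (Ω → ZMod 2)), ∃ c, ev ξ c = z := by
    intro z hz
    rw [← hrange] at hz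
    obtain ⟨c, hc⟩ := (Submodule.mem_span_range_iff_exists_fun (ZMod 2)).mp hz
    exact ⟨c, by rw [ev_eq_sum]; exact hc⟩
  let crd : (Ω → ZMod 2) → (Fin I.card → ZMod 2) := fun z =>
    if hz : ∃ c, ev ξ c = z then hz.choose else 0
  have hcrd : ∀ z ∈ Submodule.span (ZMod 2) (I : Set (Ω → ZMod 2)), ev ξ (crd z) = z := by
    intro z hz
    have h1 := hex z hz
    simp only [crd, dif_pos h1]
    exact h1.choose_spec
  have hcrd_add : ∀ x ∈ Z1, ∀ y ∈ Z1, crd (x + y) = crd x + crd y := by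
    intro x hx y hy
    apply hinj
    rw [ev_add, hcrd x (hZ1 x hx), hcrd y (hZ1 y hy),
      hcrd (x + y) (Submodule.add_mem _ (hZ1 x hx) (hZ1 y hy))]
  let Hi : Finset (Fin I.card) := univ.filter fun i => ξ i ∈ Ih
  have hHi : Hi.card ≤ Ih.card := by
    apply card_le_card_of_injOn ξ
    · intro i hi
      exact (mem_filter.mp (mem_coe.mp hi)).2
    · exact hli.injective.injOn
  have hsupp : ∀ z ∈ Submodule.span (ZMod 2) (Ih : Set (Ω → ZMod 2)), ∀ i, crd z i ≠ 0 →
      i ∈ Hi := by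
    intro z hz i hi
    have hzI : z ∈ Submodule.span (ZMod 2) (I : Set (Ω → ZMod 2)) :=
      Submodule.span_mono (coe_subset.mpr hIh) hz
    -- a representation supported on Hi
    have hrep : ∃ c : Fin I.card → ZMod 2, (∀ i, c i ≠ 0 → i ∈ Hi) ∧ ev ξ c = z := by
      refine Submodule.span_induction (p := fun z _ => ∃ c : Fin I.card → ZMod 2,
        (∀ i, c i ≠ 0 → i ∈ Hi) ∧ ev ξ c = z) ?_ ?_ ?_ ?_ hz
      · intro x hx
        have hxI : x ∈ I := hIh (mem_coe.mp hx)
        have hxr : x ∈ Set.range ξ := by rw [hrange]; exact mem_coe.mpr hxI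
        obtain ⟨j, rfl⟩ := hxr
        refine ⟨Pi.single j 1, ?_, ?_⟩
        · intro i hi
          have : i = j := by
            by_contra hne
            exact hi (by simp [Pi.single_apply, hne])
          subst this
          exact mem_filter.mpr ⟨mem_univ _, mem_coe.mp hx⟩
        · rw [ev_eq_sum, Finset.sum_eq_single j]
          · simp
          · intro b _ hb; simp [Pi.single_apply, hb]
          · intro hj; exact absurd (mem_univ _) hj
      · exact ⟨0, fun i hi => absurd rfl hi, by rw [ev_eq_sum]; simp⟩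
      · rintro x y _ _ ⟨c, hc1, hc2⟩ ⟨d, hd1, hd2⟩
        refine ⟨c + d, ?_, by rw [ev_add, hc2, hd2]⟩
        intro i hi
        by_contra hni
        have h1 : c i = 0 := by by_contra h; exact hni (hc1 i h)
        have h2 : d i = 0 := by by_contra h; exact hni (hd1 i h)
        exact hi (by rw [Pi.add_apply, h1, h2, add_zero])
      · rintro a x _ ⟨c, hc1, hc2⟩
        refine ⟨a • c, ?_, ?_⟩
        · intro i hi
          apply hc1
          intro h0
          exact hi (by rw [Pi.smul_apply, h0, smul_zero])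
        · rw [ev_eq_sum, ← hc2, ev_eq_sum, smul_sum]
          refine sum_congr rfl fun i _ => ?_
          rw [Pi.smul_apply, smul_eq_mul, mul_smul]
    obtain ⟨c, hc1, hc2⟩ := hrep
    have : crd z = c := hinj (by rw [hcrd z hzI, hc2])
    rw [this] at hi
    exact hc1 i hi
  let Zc : Finset (Fin I.card → ZMod 2) := Z1.image crd
  have hZc : (Zc.card : ℝ) ≤ Z1.card := by exact_mod_cast card_image_le
  have hmemZc : ∀ z ∈ Z1, crd z ∈ Zc := fun z hz => mem_image_of_mem _ hz
  have hmain := rank_bound ξ E Hi Zc (fun f => crd (h f)) (fun f => crd (p f))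
    (fun f => crd (q f)) (fun f hf => hsupp _ (hh f hf)) (by
      intro f hf
      obtain ⟨h1, h2, h3, h4, h5, h6⟩ := hZ f hf
      refine ⟨hmemZc _ h1, hmemZc _ h2, hmemZc _ h3, ?_, ?_, ?_⟩
      · rw [← hcrd_add _ h1 _ h2]; exact hmemZc _ h4
      · rw [← hcrd_add _ h1 _ h3]; exact hmemZc _ h5
      · rw [← hcrd_add _ h2 _ h3]; exact hmemZc _ h6) (by
      intro e he f hf
      obtain ⟨h1, h2, h3, h4, h5, h6⟩ := hZ f hf
      rw [hcrd _ (hZ1 _ h1), hcrd _ (hZ1 _ h2), hcrd _ (hZ1 _ h3)]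
      exact iso e he f hf)
  have hcard : (Fintype.card (Fin I.card) : ℝ) = I.card := by rw [Fintype.card_fin]
  rw [hcard] at hmain
  have hs : (Zc.card : ℝ) * Real.sqrt Zc.card ≤ Z1.card * Real.sqrt Z1.card :=
    mul_le_mul hZc (Real.sqrt_le_sqrt hZc) (Real.sqrt_nonneg _) (Nat.cast_nonneg _)
  have hHi' : (Hi.card : ℝ) * I.card ≤ Ih.card * I.card :=
    mul_le_mul_of_nonneg_right (by exact_mod_cast hHi) (Nat.cast_nonneg _)
  linarith

end Pool.Agent.Work.MP_49e1e0_lc
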